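import Pool.Agent.N511.LL.Stm

/-!
# Project LL, part A0 (helper691): anti-concentration of the truncated singular series
-/

set_option autoImplicit false

namespace Pool.Agent.N511.LL.A0p

open Finset Filter Topology Classical Pool.Agent.N511.LL

noncomputable section

/-! ### The central binomial coefficient -/

theorem cb (m : ℕ) : m.centralBinom ^ 2 * (2 * m + 1) ≤ 16 ^ m := by
  induction m with
  | zero => simp
  | succ m ih =>
    have h := Nat.succ_mul_centralBinom_succ m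
    have h1 : ((m + 1) * (m + 1).centralBinom) ^ 2 * (2 * (m + 1) + 1) ≤
        (m + 1) ^ 2 * 16 ^ (m + 1) := by
      rw [h]
      calc (2 * (2 * m + 1) * m.centralBinom) ^ 2 * (2 * (m + 1) + 1)
          = (4 * (2 * m + 1) * (2 * m + 3)) * (m.centralBinom ^ 2 * (2 * m + 1)) := by ring
        _ ≤ (4 * (2 * m + 1) * (2 * m + 3)) * 16 ^ m := Nat.mul_le_mul_left _ ih
        _ ≤ ((m + 1) ^ 2 * 16) * 16 ^ m := by
            apply Nat.mul_le_mul_right
            nlinarith
        _ = (m + 1) ^ 2 * 16 ^ (m + 1) := by rw [pow_succ]; ring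
    have h2 : (m + 1) ^ 2 * ((m + 1).centralBinom ^ 2 * (2 * (m + 1) + 1)) ≤
        (m + 1) ^ 2 * 16 ^ (m + 1) := by
      calc _ = ((m + 1) * (m + 1).centralBinom) ^ 2 * (2 * (m + 1) + 1) := by ring
        _ ≤ _ := h1
    exact Nat.le_of_mul_le_mul_left h2 (by positivity)

theorem exists_n (ε : ℝ) (hε : 0 < ε) : ∃ n : ℕ, (n.choose (n / 2) : ℝ) ≤ ε * 2 ^ n := by
  obtain ⟨m, hm⟩ := exists_nat_gt (1 / ε ^ 2)
  refine ⟨2 * m, ?_⟩
  have h1 : (2 * m).choose (2 * m / 2) = m.centralBinom := by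
    rw [Nat.mul_div_cancel_left _ (by norm_num)]
    rfl
  rw [h1]
  have h2 : ((m.centralBinom : ℝ)) ^ 2 * (2 * m + 1) ≤ 16 ^ m := by exact_mod_cast cb m
  have h3 : (2 : ℝ) ^ (2 * m) = 4 ^ m := by rw [pow_mul]; norm_num
  have h4 : (16 : ℝ) ^ m = (4 ^ m) ^ 2 := by rw [← pow_mul, mul_comm m 2, pow_mul]; norm_num
  rw [h3]
  refine le_of_sq_le_sq ?_ (by positivity)
  rw [mul_pow, ← h4]
  have h5 : 1 ≤ ε ^ 2 * (2 * m + 1) := by
    rw [div_lt_iff₀ (by positivity)] at hm
    nlinarith [sq_nonneg ε]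
  have h6 : (0 : ℝ) < 2 * m + 1 := by positivity
  have h7 : ((m.centralBinom : ℝ)) ^ 2 ≤ 16 ^ m / (2 * m + 1) := by
    rw [le_div_iff₀ h6]; exact h2
  refine h7.trans ?_
  rw [div_le_iff₀ h6]
  have h8 : (0 : ℝ) < 16 ^ m := by positivity
  nlinarith

/-! ### Periodicity -/

theorem jac_congr {N p : ℕ} (hp : p ∣ N) {a b : ℤ} (h : (a : ZMod N) = b) :
    jacobiSym a p = jacobiSym b p := by
  have h1 : a ≡ b [ZMOD N] := (ZMod.intCast_eq_intCast_iff a b N).1 h
  have h2 : a ≡ b [ZMOD p] := h1.of_dvd (by exact_mod_cast hp)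
  rw [jacobiSym.mod_left a p, jacobiSym.mod_left b p, h2]

theorem mem_PP {y p : ℕ} : p ∈ PP y ↔ p.Prime ∧ 3 ≤ p ∧ p ≤ y := by
  unfold PP
  rw [Finset.mem_filter, Finset.mem_Icc]
  tauto

theorem dvd_Q {y p : ℕ} (hp : p ∈ PP y) : p ∣ Q y := Finset.dvd_prod_of_mem _ hp

theorem Q_pos (y : ℕ) : 0 < Q y :=
  Finset.prod_pos fun p hp => (mem_PP.1 hp).1.pos

theorem T_congr {y : ℕ} {a b : ℤ} (h : (a : ZMod (Q y)) = b) : T a y = T b y := by
  unfold T
  apply Finset.prod_congr rfl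
  intro p hp
  unfold loc
  rw [jac_congr (dvd_Q hp) h]

/-- the symbol of a residue class -/
def cc (y : ℕ) (x : ZMod (Q y)) (p : ℕ) : ℤ := jacobiSym (x.val : ℤ) p

theorem val_cast (y : ℕ) (x : ZMod (Q y)) : (((x.val : ℕ) : ℤ) : ZMod (Q y)) = x := by
  have : NeZero (Q y) := ⟨(Q_pos y).ne'⟩
  rw [Int.cast_natCast, ZMod.natCast_zmod_val]

theorem cc_mul (y : ℕ) (u x : ZMod (Q y)) {p : ℕ} (hp : p ∈ PP y) :
    cc y (u * x) p = cc y u p * cc y x p := by
  unfold cc
  rw [← jacobiSym.mul_left]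
  apply jac_congr (dvd_Q hp)
  rw [val_cast, Int.cast_mul, val_cast, val_cast]

theorem cc_cast (y : ℕ) (k : ℤ) {p : ℕ} (hp : p ∈ PP y) : cc y (k : ZMod (Q y)) p = jacobiSym k p := by
  unfold cc
  apply jac_congr (dvd_Q hp)
  rw [val_cast]

/-- the truncated product of a residue class -/
def TT (y : ℕ) (x : ZMod (Q y)) : ℝ := ∏ p ∈ PP y, (1 - (cc y x p : ℝ) / ((p : ℝ) - 1))

theorem TT_cast (y : ℕ) (d : ℤ) : TT y (d : ZMod (Q y)) = T d y := by
  unfold TT T
  apply Finset.prod_congr rfl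
  intro p hp
  rw [cc_cast y d hp]
  rfl

/-! ### Counting -/

/-- the residue classes in the window -/
def W (y : ℕ) (t δ : ℝ) (x : ZMod (Q y)) : Prop := t < TT y x ∧ TT y x ≤ t * (1 + δ)

instance (y : ℕ) : NeZero (Q y) := ⟨(Q_pos y).ne'⟩

theorem transfer (y : ℕ) (s : ℤ) (t δ : ℝ) :
    #((range (Q y)).filter (fun d : ℕ => t < T (d + s) y ∧ T (d + s) y ≤ t * (1 + δ))) ≤
      #((univ : Finset (ZMod (Q y))).filter (W y t δ)) := by
  apply Finset.card_le_card_of_injOn (fun d : ℕ => (((d : ℤ) + s : ℤ) : ZMod (Q y)))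
  · intro d hd
    rw [Finset.mem_coe, Finset.mem_filter] at hd
    rw [Finset.mem_coe, Finset.mem_filter]
    refine ⟨Finset.mem_univ _, ?_⟩
    unfold W
    rw [TT_cast]
    exact hd.2
  · intro d hd d' hd' h
    rw [Finset.mem_coe, Finset.mem_filter, Finset.mem_range] at hd hd'
    simp only [Int.cast_add, Int.cast_natCast, add_left_inj] at h
    have h1 := (ZMod.natCast_eq_natCast_iff' d d' (Q y)).1 h
    rwa [Nat.mod_eq_of_lt hd.1, Nat.mod_eq_of_lt hd'.1] at h1

theorem zero_count (y : ℕ) {p : ℕ} (hp : p ∈ PP y) :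
    #((univ : Finset (ZMod (Q y))).filter (fun x => cc y x p = 0)) * p = Q y := by
  have : Fact p.Prime := ⟨(mem_PP.1 hp).1⟩
  have : NeZero p := ⟨(mem_PP.1 hp).1.ne_zero⟩
  have hdvd := dvd_Q hp
  set f : ZMod (Q y) →+ ZMod p := (ZMod.castHom hdvd (ZMod p)).toAddMonoidHom with hf
  have hsurj : Function.Surjective f := ZMod.castHom_surjective hdvd
  have h1 : ∀ z : ZMod p, #((univ : Finset (ZMod (Q y))).filter (fun x => f x = z)) =
      #((univ : Finset (ZMod (Q y))).filter (fun x => f x = 0)) := fun z =>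
    AddMonoidHom.card_fiber_eq_of_mem_range f (hsurj z) (hsurj 0)
  have h2 : #(univ : Finset (ZMod (Q y))) = ∑ z : ZMod p,
      #((univ : Finset (ZMod (Q y))).filter (fun x => f x = z)) :=
    Finset.card_eq_sum_card_fiberwise (fun x _ => Finset.mem_coe.2 (Finset.mem_univ _))
  simp only [h1, Finset.sum_const, Finset.card_univ, ZMod.card, smul_eq_mul] at h2
  have h3 : (univ : Finset (ZMod (Q y))).filter (fun x => cc y x p = 0) =
      (univ : Finset (ZMod (Q y))).filter (fun x => f x = 0) := by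
    ext x
    rw [Finset.mem_filter, Finset.mem_filter]
    apply and_congr_right
    intro _
    unfold cc
    rw [← jacobiSym.legendreSym.to_jacobiSym, legendreSym.eq_zero_iff]
    have h4 : (((x.val : ℕ) : ℤ) : ZMod p) = f x := by
      rw [Int.cast_natCast, ZMod.natCast_val]
      rfl
    rw [h4]
  rw [h3, mul_comm]
  exact h2.symm

/-! ### Changing the signs -/

theorem exists_g (y : ℕ) {p : ℕ} (hp : p ∈ PP y) : ∃ u : (ZMod (Q y))ˣ,
    cc y u p = -1 ∧ ∀ q ∈ PP y, q ≠ p → cc y u q = 1 := by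
  have hpp := (mem_PP.1 hp).1
  have hp3 := (mem_PP.1 hp).2.1
  have : Fact p.Prime := ⟨hpp⟩
  set Q' : ℕ := ∏ q ∈ (PP y).erase p, q with hQ'
  have hQ : Q y = p * Q' := (Finset.mul_prod_erase _ _ hp).symm
  have hco : Nat.Coprime p Q' := by
    apply Nat.Coprime.prod_right
    intro q hq
    rw [Finset.mem_erase] at hq
    exact (Nat.coprime_primes hpp (mem_PP.1 hq.2).1).2 hq.1.symm
  obtain ⟨a, ha⟩ := FiniteField.exists_nonsquare (F := ZMod p) (by
    rw [ZMod.ringChar_zmod_n]; omega)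
  obtain ⟨k, hk1, hk2⟩ := Nat.chineseRemainder hco a.val 1
  have hkp : jacobiSym (k : ℤ) p = -1 := by
    rw [← jacobiSym.legendreSym.to_jacobiSym, legendreSym.eq_neg_one_iff]
    have h1 : ((k : ℤ) : ZMod p) = a := by
      rw [Int.cast_natCast, (ZMod.natCast_eq_natCast_iff k a.val p).2 hk1, ZMod.natCast_zmod_val]
    rw [h1]; exact ha
  have hkq : ∀ q ∈ PP y, q ≠ p → jacobiSym (k : ℤ) q = 1 := by
    intro q hq hqp
    have h1 : k ≡ 1 [MOD q] := hk2.of_dvd (Finset.dvd_prod_of_mem _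
      (Finset.mem_erase.2 ⟨hqp, hq⟩))
    have h2 : jacobiSym (k : ℤ) q = jacobiSym 1 q := by
      apply jac_congr (dvd_refl q)
      rw [Int.cast_natCast, Int.cast_one]
      have := (ZMod.natCast_eq_natCast_iff k 1 q).2 h1
      rwa [Nat.cast_one] at this
    rw [h2, jacobiSym.one_left]
  have hkQ : Nat.Coprime k (Q y) := by
    rw [hQ]
    apply Nat.Coprime.mul_right
    · rw [Nat.coprime_comm, Nat.Prime.coprime_iff_not_dvd hpp]
      intro hd
      have h1 : jacobiSym (k : ℤ) p = 0 := by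
        rw [← jacobiSym.legendreSym.to_jacobiSym, legendreSym.eq_zero_iff, Int.cast_natCast]
        exact (ZMod.natCast_eq_zero_iff k p).2 hd
      rw [h1] at hkp
      norm_num at hkp
    · have := hk2.gcd_eq
      rw [Nat.Coprime, this, Nat.gcd_one_left]
  refine ⟨ZMod.unitOfCoprime k hkQ, ?_, ?_⟩
  · rw [ZMod.coe_unitOfCoprime]
    have := cc_cast y (k : ℤ) hp
    rw [Int.cast_natCast] at this
    rw [this, hkp]
  · intro q hq hqp
    rw [ZMod.coe_unitOfCoprime]
    have := cc_cast y (k : ℤ) hq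
    rw [Int.cast_natCast] at this
    rw [this, hkq q hq hqp]

theorem cc_one (y : ℕ) {p : ℕ} (hp : p ∈ PP y) : cc y 1 p = 1 := by
  have := cc_cast y 1 hp
  rw [Int.cast_one] at this
  rw [this, jacobiSym.one_left]

theorem cc_prod (y : ℕ) {ι : Type} (g : ι → (ZMod (Q y))ˣ) (E : Finset ι) {q : ℕ} (hq : q ∈ PP y) :
    cc y ((∏ i ∈ E, g i : (ZMod (Q y))ˣ) : ZMod (Q y)) q = ∏ i ∈ E, cc y (g i) q := by
  induction E using Finset.induction_on with
  | empty => rw [Finset.prod_empty, Finset.prod_empty, Units.val_one, cc_one y hq]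
  | insert a E ha ih =>
    rw [Finset.prod_insert ha, Finset.prod_insert ha, Units.val_mul, cc_mul y _ _ hq, ih]

/-- the local factors -/
def wt (p : ℕ) (b : Prop) : ℝ := if b then 1 + 1 / ((p : ℝ) - 1) else 1 - 1 / ((p : ℝ) - 1)

theorem wt_pos {p : ℕ} (hp : 3 ≤ p) (b : Prop) : 0 < wt p b := by
  have h3 : (3 : ℝ) ≤ p := by exact_mod_cast hp
  have h1 : 0 < 1 / ((p : ℝ) - 1) := by apply div_pos one_pos; linarith
  have h2 : 1 / ((p : ℝ) - 1) ≤ 1 / 2 := one_div_le_one_div_of_le (by norm_num) (by linarith)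
  unfold wt
  split_ifs <;> linarith

theorem wt_mono {p : ℕ} (hp : 3 ≤ p) {b b' : Prop} (h : b → b') : wt p b ≤ wt p b' := by
  have h3 : (3 : ℝ) ≤ p := by exact_mod_cast hp
  have h1 : 0 < 1 / ((p : ℝ) - 1) := by apply div_pos one_pos; linarith
  unfold wt
  split_ifs with h4 h5
  · exact le_rfl
  · exact absurd (h h4) h5
  · linarith
  · exact le_rfl

theorem wt_gap {p : ℕ} (hp : 3 ≤ p) (δ : ℝ) (hδ : δ * p ≤ 1) (hδ0 : 0 < δ) :
    (1 + δ) * wt p False < wt p True := by
  have h3 : (3 : ℝ) ≤ p := by exact_mod_cast hp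
  unfold wt
  rw [if_neg (fun h => h), if_pos trivial]
  have h1 : 1 - 1 / ((p : ℝ) - 1) = ((p : ℝ) - 2) / ((p : ℝ) - 1) := by
    rw [eq_div_iff (by linarith), sub_mul, one_div_mul_cancel (by linarith)]; ring
  have h2 : 1 + 1 / ((p : ℝ) - 1) = (p : ℝ) / ((p : ℝ) - 1) := by
    rw [eq_div_iff (by linarith), add_mul, one_div_mul_cancel (by linarith)]; ring
  rw [h1, h2, ← mul_div_assoc]
  apply div_lt_div_of_pos_right _ (by linarith)
  nlinarith

theorem fac_pos (y : ℕ) (x : ZMod (Q y)) {p : ℕ} (hp : 3 ≤ p) :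
    0 < 1 - (cc y x p : ℝ) / ((p : ℝ) - 1) := by
  have h3 : (3 : ℝ) ≤ p := by exact_mod_cast hp
  have h2 : 1 / ((p : ℝ) - 1) ≤ 1 / 2 := one_div_le_one_div_of_le (by norm_num) (by linarith)
  have h1 : 0 < 1 / ((p : ℝ) - 1) := by apply div_pos one_pos; linarith
  rcases jacobiSym.trichotomy (x.val : ℤ) p with h | h | h
  · have : cc y x p = 0 := h
    rw [this]; simp
  · have : cc y x p = 1 := h
    rw [this]; push_cast; linarith
  · have : cc y x p = -1 := h
    rw [this]; push_cast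
    have : (-1 : ℝ) / ((p : ℝ) - 1) = -(1 / ((p : ℝ) - 1)) := by ring
    rw [this]; linarith

section sperner

variable {y : ℕ} {P0 : Finset ℕ} (g : P0 → (ZMod (Q y))ˣ)

/-- the product of the sign changes -/
def gE (E : Finset P0) : ZMod (Q y) := ((∏ i ∈ E, g i : (ZMod (Q y))ˣ) : ZMod (Q y))

/-- the remaining factors -/
def Rest (P0 : Finset ℕ) (x : ZMod (Q y)) : ℝ := ∏ p ∈ PP y \ P0, (1 - (cc y x p : ℝ) / ((p : ℝ) - 1))

/-- the primes with symbol `-1` -/
def Dx (P0 : Finset ℕ) (x : ZMod (Q y)) : Finset P0 := univ.filter fun p => cc y x p = -1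

theorem TT_gE (hP : P0 ⊆ PP y) (hg1 : ∀ p : P0, cc y (g p) p = -1)
    (hg2 : ∀ p : P0, ∀ q ∈ PP y, q ≠ p → cc y (g p) q = 1) (x : ZMod (Q y))
    (hx : ∀ p ∈ P0, cc y x p ≠ 0) (E : Finset P0) :
    TT y (gE g E * x) = Rest P0 x * ∏ p : P0, wt p (p ∈ symmDiff E (Dx P0 x)) := by
  have h1 : ∀ q ∈ PP y \ P0, cc y (gE g E * x) q = cc y x q := by
    intro q hq
    rw [Finset.mem_sdiff] at hq
    rw [cc_mul y _ _ hq.1]
    unfold gE
    rw [cc_prod y g E hq.1, Finset.prod_eq_one, one_mul]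
    intro i _
    apply hg2 i q hq.1
    rintro rfl
    exact hq.2 i.2
  have h2 : ∀ q : P0, cc y (gE g E * x) q = (if q ∈ E then -1 else 1) * cc y x q := by
    intro q
    rw [cc_mul y _ _ (hP q.2)]
    unfold gE
    rw [cc_prod y g E (hP q.2)]
    congr 1
    have h3 : ∀ i ∈ E, cc y (g i) q = if i = q then -1 else 1 := by
      intro i _
      by_cases h : i = q
      · rw [if_pos h, h]; exact hg1 q
      · rw [if_neg h]
        apply hg2 i q (hP q.2)
        intro h'
        exact h (Subtype.ext h'.symm)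
    rw [Finset.prod_congr rfl h3, Finset.prod_ite_eq']
  unfold TT
  rw [← Finset.prod_sdiff hP]
  congr 1
  · apply Finset.prod_congr rfl
    intro q hq
    rw [h1 q hq]
  · rw [← Finset.prod_coe_sort]
    apply Finset.prod_congr rfl
    intro q _
    rw [h2 q]
    unfold wt
    have h0 := hx q q.2
    have hD : q ∈ Dx P0 x ↔ cc y x q = -1 := by
      unfold Dx
      simp
    rcases jacobiSym.trichotomy ((x.val : ℕ) : ℤ) (q : ℕ) with h | h | h
    · exact absurd h h0
    · have h4 : cc y x q = 1 := h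
      have h5 : ¬ q ∈ Dx P0 x := by rw [hD, h4]; norm_num
      by_cases hE : q ∈ E
      · rw [if_pos hE, if_pos (Finset.mem_symmDiff.2 (Or.inl ⟨hE, h5⟩)), h4]
        push_cast; ring
      · rw [if_neg hE, if_neg, h4]
        · push_cast; ring
        · rw [Finset.mem_symmDiff]; tauto
    · have h4 : cc y x q = -1 := h
      have h5 : q ∈ Dx P0 x := hD.2 h4
      by_cases hE : q ∈ E
      · rw [if_pos hE, if_neg, h4]
        · push_cast; ring
        · rw [Finset.mem_symmDiff]; tauto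
      · rw [if_neg hE, if_pos (Finset.mem_symmDiff.2 (Or.inr ⟨h5, hE⟩)), h4]
        push_cast; ring

theorem sperner_count (hP : P0 ⊆ PP y) (hg1 : ∀ p : P0, cc y (g p) p = -1)
    (hg2 : ∀ p : P0, ∀ q ∈ PP y, q ≠ p → cc y (g p) q = 1) (x : ZMod (Q y))
    (hx : ∀ p ∈ P0, cc y x p ≠ 0) (t δ : ℝ) (ht : 0 < t) (hδ0 : 0 < δ)
    (hδ : ∀ p ∈ P0, δ * p ≤ 1) :
    #((univ : Finset (Finset P0)).filter (fun E => W y t δ (gE g E * x))) ≤
      (#P0).choose (#P0 / 2) := by
  set 𝓔 := (univ : Finset (Finset P0)).filter (fun E => W y t δ (gE g E * x)) with h𝓔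
  have hinj : Function.Injective fun E : Finset P0 => symmDiff E (Dx P0 x) :=
    symmDiff_left_injective _
  have h1 : #𝓔 = #(𝓔.image fun E => symmDiff E (Dx P0 x)) :=
    (Finset.card_image_of_injective _ hinj).symm
  rw [h1]
  have h3p : ∀ p : P0, 3 ≤ (p : ℕ) := fun p => (mem_PP.1 (hP p.2)).2.1
  have hR : 0 < Rest P0 x := by
    apply Finset.prod_pos
    intro p hp
    exact fac_pos y x (mem_PP.1 (Finset.mem_sdiff.1 hp).1).2.1
  have hanti : IsAntichain (· ⊆ ·) ((𝓔.image fun E => symmDiff E (Dx P0 x) : Finset (Finset P0)) :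
      Set (Finset P0)) := by
    intro A hA A' hA' hne hsub
    rw [Finset.mem_coe, Finset.mem_image] at hA hA'
    obtain ⟨E, hE, rfl⟩ := hA
    obtain ⟨E', hE', rfl⟩ := hA'
    rw [h𝓔, Finset.mem_filter] at hE hE'
    have hE1 := hE.2.1
    have hE2 := hE'.2.2
    rw [TT_gE g hP hg1 hg2 x hx] at hE1 hE2
    obtain ⟨p0, hp0, hp0'⟩ : ∃ p0 ∈ symmDiff E' (Dx P0 x), p0 ∉ symmDiff E (Dx P0 x) := by
      by_contra hcon
      push Not at hcon
      exact hne (Finset.Subset.antisymm hsub hcon)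
    have e1 : ∏ p : P0, wt p (p ∈ symmDiff E (Dx P0 x)) =
        wt p0 False * ∏ p ∈ univ.erase p0, wt p (p ∈ symmDiff E (Dx P0 x)) := by
      rw [← Finset.mul_prod_erase univ _ (Finset.mem_univ p0)]
      congr 2
      exact propext ⟨fun h => hp0' h, fun h => h.elim⟩
    have e2 : ∏ p : P0, wt p (p ∈ symmDiff E' (Dx P0 x)) =
        wt p0 True * ∏ p ∈ univ.erase p0, wt p (p ∈ symmDiff E' (Dx P0 x)) := by
      rw [← Finset.mul_prod_erase univ _ (Finset.mem_univ p0)]
      congr 2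
      exact propext ⟨fun _ => trivial, fun _ => hp0⟩
    have e3 : ∏ p ∈ univ.erase p0, wt p (p ∈ symmDiff E (Dx P0 x)) ≤
        ∏ p ∈ univ.erase p0, wt p (p ∈ symmDiff E' (Dx P0 x)) := by
      apply Finset.prod_le_prod
      · intro p _; exact (wt_pos (h3p p) _).le
      · intro p _; exact wt_mono (h3p p) fun h => hsub h
    have e4 : 0 < ∏ p ∈ univ.erase p0, wt p (p ∈ symmDiff E (Dx P0 x)) :=
      Finset.prod_pos fun p _ => wt_pos (h3p p) _
    have e5 := wt_gap (h3p p0) δ (hδ p0 p0.2) hδ0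
    have e6 : 0 < wt p0 True := wt_pos (h3p p0) _
    rw [e1] at hE1
    rw [e2] at hE2
    set a := ∏ p ∈ univ.erase p0, wt p (p ∈ symmDiff E (Dx P0 x)) with ha
    set a' := ∏ p ∈ univ.erase p0, wt p (p ∈ symmDiff E' (Dx P0 x)) with ha'
    have e7 : wt p0 True * a ≤ wt p0 True * a' := mul_le_mul_of_nonneg_left e3 e6.le
    have e8 : (1 + δ) * wt p0 False * a < wt p0 True * a := mul_lt_mul_of_pos_right e5 e4
    have e9 : Rest P0 x * ((1 + δ) * wt p0 False * a) < Rest P0 x * (wt p0 True * a') :=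
      mul_lt_mul_of_pos_left (e8.trans_le e7) hR
    have e10 : (1 + δ) * t < (1 + δ) * (Rest P0 x * (wt p0 False * a)) :=
      mul_lt_mul_of_pos_left hE1 (by linarith)
    nlinarith
  have h2 := hanti.sperner
  rwa [Fintype.card_coe] at h2

end sperner

theorem A0_main : A0 := by
  intro ε hε
  obtain ⟨n, hn⟩ := exists_n (ε / 2) (by positivity)
  obtain ⟨Bd, hBd⟩ := exists_nat_gt (2 * n / ε)
  have hinf : {p : ℕ | p.Prime ∧ max 3 Bd ≤ p}.Infinite := by
    apply Set.infinite_of_forall_exists_gt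
    intro a
    obtain ⟨p, hp1, hp2⟩ := Nat.exists_infinite_primes (max (a + 1) (max 3 Bd))
    refine ⟨p, ⟨hp2, le_trans (le_max_right _ _) hp1⟩, ?_⟩
    have := le_trans (le_max_left _ _) hp1
    omega
  obtain ⟨P0, hP0, hP0c⟩ := hinf.exists_subset_card_eq n
  have hprime : ∀ p ∈ P0, p.Prime := fun p hp => (hP0 hp).1
  have h3p : ∀ p ∈ P0, 3 ≤ p := fun p hp => le_trans (le_max_left _ _) (hP0 hp).2
  have hBp : ∀ p ∈ P0, Bd ≤ p := fun p hp => le_trans (le_max_right _ _) (hP0 hp).2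
  set y0 : ℕ := P0.sup id + 1 with hy0
  have hle : ∀ p ∈ P0, p ≤ y0 := fun p hp => le_trans (Finset.le_sup (f := id) hp) (Nat.le_succ _)
  have hy0pos : (0 : ℝ) < y0 := by
    rw [hy0]; positivity
  refine ⟨y0, 1 / y0, by positivity, ?_, ?_⟩
  · rw [div_le_one hy0pos, hy0]
    push_cast
    have : (0 : ℝ) ≤ ((P0.sup id : ℕ) : ℝ) := Nat.cast_nonneg _
    linarith
  intro y hy s t ht
  have hP : P0 ⊆ PP y := fun p hp => mem_PP.2 ⟨hprime p hp, h3p p hp, (hle p hp).trans hy⟩
  have hδ : ∀ p ∈ P0, (1 / (y0 : ℝ)) * p ≤ 1 := by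
    intro p hp
    rw [one_div, inv_mul_le_iff₀ hy0pos, mul_one]
    exact_mod_cast hle p hp
  have hex := fun p : P0 => exists_g y (hP p.2)
  choose g hg1 hg2 using hex
  set δ : ℝ := 1 / y0 with hδdef
  have hδ0 : 0 < δ := by positivity
  refine le_trans (Nat.cast_le.2 (transfer y s t δ)) ?_
  set S := (univ : Finset (ZMod (Q y))).filter (fun x => W y t δ x ∧ ∀ p ∈ P0, cc y x p ≠ 0) with hS
  have hsub : (univ : Finset (ZMod (Q y))).filter (W y t δ) ⊆
      (P0.biUnion fun p => (univ : Finset (ZMod (Q y))).filter (fun x => cc y x p = 0)) ∪ S := by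
    intro x hx
    rw [Finset.mem_filter] at hx
    rw [Finset.mem_union]
    by_cases h : ∀ p ∈ P0, cc y x p ≠ 0
    · right
      rw [hS, Finset.mem_filter]
      exact ⟨Finset.mem_univ _, hx.2, h⟩
    · left
      push Not at h
      obtain ⟨p, hp, hp'⟩ := h
      rw [Finset.mem_biUnion]
      exact ⟨p, hp, Finset.mem_filter.2 ⟨Finset.mem_univ _, hp'⟩⟩
  have hQ0 : (0 : ℝ) < Q y := by exact_mod_cast Q_pos y
  have hc1 : (#(P0.biUnion fun p => (univ : Finset (ZMod (Q y))).filter (fun x => cc y x p = 0)) : ℝ) ≤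
      ε / 2 * Q y := by
    have h1 : (#(P0.biUnion fun p => (univ : Finset (ZMod (Q y))).filter (fun x => cc y x p = 0)) : ℝ) ≤
        ∑ p ∈ P0, (#((univ : Finset (ZMod (Q y))).filter (fun x => cc y x p = 0)) : ℝ) := by
      exact_mod_cast Finset.card_biUnion_le
    refine h1.trans ?_
    rcases Nat.eq_zero_or_pos n with hn0 | hn0
    · rw [hn0, Finset.card_eq_zero] at hP0c
      rw [hP0c, Finset.sum_empty]
      positivity
    have h2 : ∀ p ∈ P0, (#((univ : Finset (ZMod (Q y))).filter (fun x => cc y x p = 0)) : ℝ) ≤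
        ε / (2 * n) * Q y := by
      intro p hp
      have h3 := zero_count y (hP hp)
      have h4 : (#((univ : Finset (ZMod (Q y))).filter (fun x => cc y x p = 0)) : ℝ) * p = Q y := by
        exact_mod_cast h3
      have hp0 : (0 : ℝ) < p := by exact_mod_cast (hprime p hp).pos
      have hn0' : (0 : ℝ) < n := by exact_mod_cast hn0
      have h5 : 2 * n / ε ≤ (p : ℝ) := hBd.le.trans (by exact_mod_cast hBp p hp)
      rw [div_le_iff₀ hε] at h5
      have h6 : 1 ≤ ε / (2 * n) * p := by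
        rw [div_mul_eq_mul_div, le_div_iff₀ (by positivity)]
        linarith
      have h7 : (#((univ : Finset (ZMod (Q y))).filter (fun x => cc y x p = 0)) : ℝ) * 1 ≤
          (#((univ : Finset (ZMod (Q y))).filter (fun x => cc y x p = 0)) : ℝ) *
            (ε / (2 * n) * p) := mul_le_mul_of_nonneg_left h6 (Nat.cast_nonneg _)
      rw [mul_one] at h7
      calc (#((univ : Finset (ZMod (Q y))).filter (fun x => cc y x p = 0)) : ℝ) ≤ _ := h7
        _ = ε / (2 * n) * ((#((univ : Finset (ZMod (Q y))).filter (fun x => cc y x p = 0)) : ℝ) * p) := by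
            ring
        _ = _ := by rw [h4]
    refine (Finset.sum_le_sum h2).trans (le_of_eq ?_)
    rw [Finset.sum_const, hP0c, nsmul_eq_mul]
    have hn0' : (0 : ℝ) < n := by exact_mod_cast hn0
    field_simp
  have hc2 : (#S : ℝ) ≤ ε / 2 * Q y := by
    have h1 : ∀ E : Finset P0, #((univ : Finset (ZMod (Q y))).filter (fun x => gE g E * x ∈ S)) = #S := by
      intro E
      apply Finset.card_bijective (fun x => gE g E * x) (Units.mulLeft_bijective (∏ i ∈ E, g i))
      intro x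
      rw [Finset.mem_filter]
      simp
    have h2 : ∑ E : Finset P0, #((univ : Finset (ZMod (Q y))).filter (fun x => gE g E * x ∈ S)) =
        ∑ x : ZMod (Q y), #((univ : Finset (Finset P0)).filter (fun E => gE g E * x ∈ S)) := by
      simp only [Finset.card_filter]
      rw [Finset.sum_comm]
    have h3 : ∀ x : ZMod (Q y), #((univ : Finset (Finset P0)).filter (fun E => gE g E * x ∈ S)) ≤
        n.choose (n / 2) := by
      intro x
      by_cases hx : ∀ p ∈ P0, cc y x p ≠ 0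
      · rw [← hP0c]
        refine le_trans (Finset.card_le_card ?_)
          (sperner_count g hP hg1 hg2 x hx t δ ht hδ0 hδ)
        intro E hE
        rw [Finset.mem_filter, hS, Finset.mem_filter] at hE
        rw [Finset.mem_filter]
        exact ⟨Finset.mem_univ _, hE.2.2.1⟩
      · push Not at hx
        obtain ⟨p, hp, hp'⟩ := hx
        rw [Finset.filter_eq_empty_iff.2]
        · simp
        · intro E _ hE
          rw [hS, Finset.mem_filter] at hE
          apply hE.2.2 p hp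
          rw [cc_mul y _ _ (hP hp), hp', mul_zero]
    simp only [h1, Finset.sum_const, Finset.card_univ, Fintype.card_finset, Fintype.card_coe,
      hP0c, smul_eq_mul] at h2
    have h4 : 2 ^ n * #S ≤ Q y * n.choose (n / 2) := by
      rw [h2]
      refine (Finset.sum_le_sum fun x _ => h3 x).trans ?_
      rw [Finset.sum_const, Finset.card_univ, ZMod.card, smul_eq_mul]
    have h5 : (2 : ℝ) ^ n * #S ≤ Q y * n.choose (n / 2) := by exact_mod_cast h4
    have h6 : (Q y : ℝ) * n.choose (n / 2) ≤ Q y * (ε / 2 * 2 ^ n) :=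
      mul_le_mul_of_nonneg_left hn hQ0.le
    have h7 : (0 : ℝ) < 2 ^ n := by positivity
    have h8 : (2 : ℝ) ^ n * #S ≤ 2 ^ n * (ε / 2 * Q y) := by linarith
    exact le_of_mul_le_mul_left h8 h7
  have hfin : (#((univ : Finset (ZMod (Q y))).filter (W y t δ)) : ℝ) ≤
      (#(P0.biUnion fun p => (univ : Finset (ZMod (Q y))).filter (fun x => cc y x p = 0)) : ℝ) + #S := by
    exact_mod_cast (Finset.card_le_card hsub).trans (Finset.card_union_le _ _)
  linarith

end

end Pool.Agent.N511.LL.A0p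

namespace Pool.Agent.N511.LL

theorem a0 : A0 := A0p.A0_main

end Pool.Agent.N511.LL
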