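import Pool.Agent.N511.LL.Stm

/-!
# LL/B1, B2 (helper861 for helper511): second moment of `∑ χ(p)/p` over a progression, and the tail
of the product
-/

set_option autoImplicit false

namespace Pool.Agent.N511.LL

open Finset Filter Topology
open Classical

namespace Baux

/-! ### sums of quadratic symbols over periods -/

lemma sum_range_zmod {q : ℕ} [NeZero q] (f : ZMod q → ℤ) : ∑ j ∈ range q, f (j : ZMod q) = ∑ x : ZMod q, f x := by
  refine Finset.sum_nbij' (fun j => (j : ZMod q)) (fun x => x.val) ?_ ?_ ?_ ?_ ?_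
  · intro j _
    exact mem_univ _
  · intro x _
    exact mem_range.2 (ZMod.val_lt x)
  · intro j hj
    exact ZMod.val_cast_of_lt (mem_range.1 hj)
  · intro x _
    exact ZMod.natCast_zmod_val x
  · intro j _
    rfl

/-- sum over a period of a prime modulus -/
lemma sum_period {q : ℕ} (hq : q.Prime) (hq2 : q ≠ 2) {d : ℤ} (hd : ¬ (q : ℤ) ∣ d) (c : ℤ) :
    ∑ j ∈ range q, jacobiSym (c + d * j) q = 0 := by
  haveI : Fact q.Prime := ⟨hq⟩
  have h1 : ∀ j : ℕ, jacobiSym (c + d * j) q = quadraticChar (ZMod q) ((c : ZMod q) + d * (j : ZMod q)) := by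
    intro j
    rw [← jacobiSym.legendreSym.to_jacobiSym, legendreSym]
    push_cast
    rfl
  have h2 : ∑ j ∈ range q, jacobiSym (c + d * j) q =
      ∑ j ∈ range q, (fun x : ZMod q => quadraticChar (ZMod q) ((c : ZMod q) + d * x)) (j : ZMod q) :=
    Finset.sum_congr rfl fun j _ => h1 j
  refine (h2.trans (sum_range_zmod (fun x : ZMod q => quadraticChar (ZMod q) ((c : ZMod q) + d * x)))).trans ?_
  have hd0 : (d : ZMod q) ≠ 0 := by
    intro h
    exact hd ((ZMod.intCast_zmod_eq_zero_iff_dvd d q).1 h)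
  have h3 : ∑ x : ZMod q, quadraticChar (ZMod q) ((c : ZMod q) + d * x) = ∑ x : ZMod q, quadraticChar (ZMod q) x := by
    refine Fintype.sum_equiv ((Equiv.mulLeft₀ (d : ZMod q) hd0).trans (Equiv.addLeft (c : ZMod q))) _ _ fun x => ?_
    rfl
  rw [h3]
  refine quadraticChar_sum_zero ?_
  rw [ZMod.ringChar_zmod_n]
  exact hq2

lemma sum_mul (f : ℕ → ℤ) (p q : ℕ) :
    ∑ i ∈ range (p * q), f i = ∑ j ∈ range q, ∑ i ∈ range p, f (p * j + i) := by
  induction q with
  | zero => simp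
  | succ q ih => rw [mul_add, mul_one, sum_range_add, ih, sum_range_succ]

/-- sum over a period of a product of two primes -/
lemma sum_period2 {p q : ℕ} (hq : q.Prime) (hq2 : q ≠ 2) (hp : p.Prime) (hpq : p ≠ q) {κ : ℕ}
    (hκ : ¬ q ∣ κ) (b : ℤ) :
    ∑ i ∈ range (p * q), jacobiSym (b + κ * i) p * jacobiSym (b + κ * i) q = 0 := by
  have h := sum_mul (fun i => jacobiSym (b + κ * i) p * jacobiSym (b + κ * i) q) p q
  refine h.trans ?_
  rw [Finset.sum_comm]
  refine Finset.sum_eq_zero fun i _ => ?_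
  have h1 : ∀ j : ℕ, jacobiSym (b + κ * ((p * j + i : ℕ) : ℤ)) p * jacobiSym (b + κ * ((p * j + i : ℕ) : ℤ)) q =
      jacobiSym (b + κ * i) p * jacobiSym ((b + κ * i) + (κ * p : ℤ) * j) q := by
    intro j
    congr 1
    · apply jacobiSym.mod_left'
      push_cast
      rw [show b + (κ : ℤ) * (p * j + i) = (b + κ * i) + p * (κ * j) by ring, Int.add_mul_emod_self_left]
    · push_cast
      congr 1
      ring
  simp only [h1]
  rw [← Finset.mul_sum, sum_period hq hq2, mul_zero]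
  intro h2
  have h3 : q ∣ κ * p := by exact_mod_cast h2
  rcases hq.dvd_mul.1 h3 with h4 | h4
  · exact hκ h4
  · exact hpq ((Nat.prime_dvd_prime_iff_eq hq hp).1 h4).symm

lemma abs_jac (a : ℤ) (n : ℕ) : |jacobiSym a n| ≤ 1 := by
  rcases jacobiSym.trichotomy a n with h | h | h <;> rw [h] <;> simp

/-- incomplete sums -/
lemma sum_incomplete {p q : ℕ} (hq : q.Prime) (hq2 : q ≠ 2) (hp : p.Prime) (hpq : p ≠ q) {κ : ℕ}
    (hκ : ¬ q ∣ κ) (M : ℕ) : ∀ b : ℤ,
    |∑ i ∈ range M, jacobiSym (b + κ * i) p * jacobiSym (b + κ * i) q| ≤ ((p * q : ℕ) : ℤ) := by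
  induction M using Nat.strong_induction_on with
  | _ M ih =>
    intro b
    by_cases hM : M ≤ p * q
    · refine (Finset.abs_sum_le_sum_abs _ _).trans ?_
      refine (Finset.sum_le_card_nsmul _ _ 1 fun i _ => ?_).trans ?_
      · rw [abs_mul]
        exact mul_le_one₀ (abs_jac _ _) (abs_nonneg _) (abs_jac _ _)
      · rw [card_range, nsmul_eq_mul, mul_one]
        exact_mod_cast hM
    · push Not at hM
      have hpos : 0 < p * q := Nat.mul_pos hp.pos hq.pos
      obtain ⟨M', rfl⟩ : ∃ M', M = p * q + M' := ⟨M - p * q, by omega⟩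
      rw [sum_range_add, sum_period2 hq hq2 hp hpq hκ, zero_add]
      have h1 : ∀ i : ℕ, (b + κ * ((p * q + i : ℕ) : ℤ)) = (b + κ * ((p * q : ℕ) : ℤ)) + κ * i := by
        intro i
        push_cast
        ring
      simp only [h1]
      exact ih M' (by omega) _

end Baux

open Baux

theorem b1 : B1 := by
  intro y z M κ b hy hκ
  have hPR : ∀ p ∈ PR κ y z, p.Prime ∧ y < p ∧ p ≤ z ∧ ¬ p ∣ κ := by
    intro p hp
    rw [PR, mem_filter, mem_Ioc] at hp
    exact ⟨hp.2.1, hp.1.1, hp.1.2, hp.2.2⟩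
  set f : ℕ → ℕ → ℝ := fun i p => (jacobiSym (b + κ * i) p : ℝ) with hf
  have hexp : ∑ i ∈ range M, (∑ p ∈ PR κ y z, f i p / p) ^ 2 =
      ∑ p ∈ PR κ y z, ∑ q ∈ PR κ y z, 1 / ((p : ℝ) * q) * ∑ i ∈ range M, f i p * f i q := by
    have h1 : ∀ i, (∑ p ∈ PR κ y z, f i p / p) ^ 2 =
        ∑ p ∈ PR κ y z, ∑ q ∈ PR κ y z, 1 / ((p : ℝ) * q) * (f i p * f i q) := by
      intro i
      rw [sq, Finset.sum_mul_sum]
      refine Finset.sum_congr rfl fun p hp => Finset.sum_congr rfl fun q hq => ?_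
      have hp0 : (p : ℝ) ≠ 0 := Nat.cast_ne_zero.2 (hPR p hp).1.ne_zero
      have hq0 : (q : ℝ) ≠ 0 := Nat.cast_ne_zero.2 (hPR q hq).1.ne_zero
      field_simp
    simp only [h1]
    rw [Finset.sum_comm]
    refine Finset.sum_congr rfl fun p _ => ?_
    rw [Finset.sum_comm]
    refine Finset.sum_congr rfl fun q _ => ?_
    rw [Finset.mul_sum]
  have habs : ∀ i p, |f i p| ≤ 1 := by
    intro i p
    have h1 := abs_jac (b + κ * i) p
    show |((jacobiSym (b + κ * i) p : ℤ) : ℝ)| ≤ 1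
    rw [← Int.cast_abs]
    exact_mod_cast h1
  rw [hexp]
  -- the terms
  have hterm : ∀ p ∈ PR κ y z, ∀ q ∈ PR κ y z, 1 / ((p : ℝ) * q) * ∑ i ∈ range M, f i p * f i q ≤
      (if p = q then (M : ℝ) * ((p : ℝ) ^ 2)⁻¹ else 0) + 1 := by
    intro p hp q hq
    obtain ⟨hp1, hp2, hp3, hp4⟩ := hPR p hp
    obtain ⟨hq1, hq2, hq3, hq4⟩ := hPR q hq
    have hp0 : (0 : ℝ) < p := Nat.cast_pos.2 hp1.pos
    have hq0 : (0 : ℝ) < q := Nat.cast_pos.2 hq1.pos
    by_cases hpq : p = q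
    · subst hpq
      rw [if_pos rfl]
      have h1 : ∑ i ∈ range M, f i p * f i p ≤ M := by
        refine (Finset.sum_le_card_nsmul _ _ 1 fun i _ => ?_).trans ?_
        · have := habs i p
          rw [← sq, ← sq_abs]
          exact pow_le_one₀ (abs_nonneg _) this
        · rw [card_range, nsmul_eq_mul, mul_one]
      have h2 : 1 / ((p : ℝ) * p) * ∑ i ∈ range M, f i p * f i p ≤ 1 / ((p : ℝ) * p) * M :=
        mul_le_mul_of_nonneg_left h1 (by positivity)
      have h3 : 1 / ((p : ℝ) * p) * M = M * ((p : ℝ) ^ 2)⁻¹ := by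
        rw [sq]
        ring
      linarith
    · rw [if_neg hpq, zero_add]
      have h1 := sum_incomplete hq1 (by omega) hp1 hpq hq4 M b
      have h2 : ∑ i ∈ range M, f i p * f i q ≤ (p : ℝ) * q := by
        have h3 : |∑ i ∈ range M, f i p * f i q| ≤ (p : ℝ) * q := by
          simp only [hf]
          exact_mod_cast h1
        exact (le_abs_self _).trans h3
      have h3 : 1 / ((p : ℝ) * q) * ∑ i ∈ range M, f i p * f i q ≤ 1 / ((p : ℝ) * q) * ((p : ℝ) * q) :=
        mul_le_mul_of_nonneg_left h2 (by positivity)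
      rwa [one_div_mul_cancel (by positivity)] at h3
  have hcard : (#(PR κ y z) : ℝ) ≤ z := by
    have h1 : #(PR κ y z) ≤ z := by
      refine (Finset.card_le_card (t := Ioc 0 z) ?_).trans (by simp)
      intro p hp
      obtain ⟨hp1, hp2, hp3, hp4⟩ := hPR p hp
      exact mem_Ioc.2 ⟨hp1.pos, hp3⟩
    exact_mod_cast h1
  have hsq : ∑ p ∈ PR κ y z, ((p : ℝ) ^ 2)⁻¹ ≤ 1 / y := by
    by_cases hyz : y ≤ z
    · have h1 : ∑ p ∈ PR κ y z, ((p : ℝ) ^ 2)⁻¹ ≤ ∑ p ∈ Ioc y z, ((p : ℝ) ^ 2)⁻¹ :=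
        Finset.sum_le_sum_of_subset_of_nonneg (Finset.filter_subset _ _) fun _ _ _ => by positivity
      have h2 := sum_Ioc_inv_sq_le_sub (α := ℝ) (k := y) (n := z) (by omega) hyz
      have h3 : (0 : ℝ) ≤ (z : ℝ)⁻¹ := by positivity
      rw [one_div]
      linarith
    · have : PR κ y z = ∅ := by
        rw [PR, Ioc_eq_empty (by omega)]
        rfl
      rw [this, Finset.sum_empty]
      positivity
  calc ∑ p ∈ PR κ y z, ∑ q ∈ PR κ y z, 1 / ((p : ℝ) * q) * ∑ i ∈ range M, f i p * f i q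
      ≤ ∑ p ∈ PR κ y z, ∑ q ∈ PR κ y z, ((if p = q then (M : ℝ) * ((p : ℝ) ^ 2)⁻¹ else 0) + 1) :=
        Finset.sum_le_sum fun p hp => Finset.sum_le_sum fun q hq => hterm p hp q hq
    _ = M * ∑ p ∈ PR κ y z, ((p : ℝ) ^ 2)⁻¹ + (#(PR κ y z) : ℝ) * #(PR κ y z) := by
        simp only [Finset.sum_add_distrib]
        congr 1
        · rw [Finset.mul_sum]
          refine Finset.sum_congr rfl fun p hp => ?_
          rw [Finset.sum_ite_eq, if_pos hp]
        · simp
    _ ≤ M * (1 / y) + z * z := by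
        refine add_le_add (mul_le_mul_of_nonneg_left hsq (Nat.cast_nonneg _)) ?_
        exact mul_le_mul hcard hcard (Nat.cast_nonneg _) (Nat.cast_nonneg _)
    _ = (M : ℝ) / y + (z : ℝ) ^ 2 := by ring

namespace Baux

/-- the logarithm of the product -/
lemma log_prod {κ y z : ℕ} (hy : 2 ≤ y) (d : ℤ) :
    0 < ∏ p ∈ PR κ y z, loc d p ∧
    |Real.log (∏ p ∈ PR κ y z, loc d p) + ∑ p ∈ PR κ y z, (jacobiSym d p : ℝ) / p| ≤ 10 / y := by
  have hPR : ∀ p ∈ PR κ y z, p.Prime ∧ y < p ∧ p ≤ z := by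
    intro p hp
    rw [PR, mem_filter, mem_Ioc] at hp
    exact ⟨hp.2.1, hp.1.1, hp.1.2⟩
  have hu : ∀ p ∈ PR κ y z, 0 < loc d p ∧
      |Real.log (loc d p) + (jacobiSym d p : ℝ) / p| ≤ 10 * ((p : ℝ) ^ 2)⁻¹ := by
    intro p hp
    obtain ⟨hp1, hp2, hp3⟩ := hPR p hp
    have hp' : (3 : ℝ) ≤ p := by exact_mod_cast (by omega : 3 ≤ p)
    set J : ℝ := (jacobiSym d p : ℝ) with hJ
    have hJ1 : |J| ≤ 1 := by
      have := abs_jac d p
      rw [hJ]
      exact_mod_cast this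
    set u : ℝ := J / ((p : ℝ) - 1) with hu
    have hp1' : (0 : ℝ) < (p : ℝ) - 1 := by linarith
    have hu1 : |u| ≤ 1 / ((p : ℝ) - 1) := by
      rw [hu, abs_div, abs_of_pos hp1']
      exact div_le_div_of_nonneg_right hJ1 hp1'.le
    have hu2 : 1 / ((p : ℝ) - 1) ≤ 1 / 2 := by
      apply one_div_le_one_div_of_le <;> linarith
    have hu3 : |u| ≤ 1 / 2 := hu1.trans hu2
    have hloc : loc d p = 1 - u := rfl
    have hpos : 0 < loc d p := by
      rw [hloc]
      have := (abs_le.1 hu3).2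
      linarith
    refine ⟨hpos, ?_⟩
    have h1 := Real.abs_log_sub_add_sum_range_le (x := u) (by linarith) 1
    simp only [Finset.sum_range_one, Nat.cast_zero, zero_add, pow_one, div_one] at h1
    have h2 : |u| ^ (1 + 1) / (1 - |u|) ≤ 2 * (1 / ((p : ℝ) - 1)) ^ 2 := by
      rw [div_le_iff₀ (by linarith)]
      have h3 : |u| ^ 2 ≤ (1 / ((p : ℝ) - 1)) ^ 2 := pow_le_pow_left₀ (abs_nonneg _) hu1 2
      have h4 : 0 ≤ (1 / ((p : ℝ) - 1)) ^ 2 := by positivity
      nlinarith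
    have h3 : (1 / ((p : ℝ) - 1)) ^ 2 ≤ 4 * ((p : ℝ) ^ 2)⁻¹ := by
      rw [div_pow, one_pow, ← one_div, mul_one_div, div_le_div_iff₀ (by positivity) (by positivity)]
      nlinarith
    have h4 : |u - J / p| ≤ 2 * ((p : ℝ) ^ 2)⁻¹ := by
      have h5 : u - J / p = J * (1 / (((p : ℝ) - 1) * p)) := by
        rw [hu]
        field_simp
        ring
      rw [h5, abs_mul, abs_of_pos (by positivity : (0 : ℝ) < 1 / (((p : ℝ) - 1) * p))]
      have h6 : 1 / (((p : ℝ) - 1) * p) ≤ 2 * ((p : ℝ) ^ 2)⁻¹ := by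
        rw [← one_div, mul_one_div, div_le_div_iff₀ (by positivity) (by positivity)]
        nlinarith
      calc |J| * (1 / (((p : ℝ) - 1) * p)) ≤ 1 * (1 / (((p : ℝ) - 1) * p)) :=
            mul_le_mul_of_nonneg_right hJ1 (by positivity)
        _ ≤ 2 * ((p : ℝ) ^ 2)⁻¹ := by rw [one_mul]; exact h6
    have h5 : Real.log (loc d p) + J / p = (u + Real.log (1 - u)) - (u - J / p) := by
      rw [hloc]
      ring
    rw [h5]
    refine (abs_sub _ _).trans ?_
    have h6 : |u + Real.log (1 - u)| ≤ 8 * ((p : ℝ) ^ 2)⁻¹ := by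
      refine h1.trans (h2.trans ?_)
      linarith
    linarith
  refine ⟨Finset.prod_pos fun p hp => (hu p hp).1, ?_⟩
  rw [Real.log_prod fun p hp => (hu p hp).1.ne', ← Finset.sum_add_distrib]
  refine (Finset.abs_sum_le_sum_abs _ _).trans ((Finset.sum_le_sum fun p hp => (hu p hp).2).trans ?_)
  rw [← Finset.mul_sum]
  have hsq : ∑ p ∈ PR κ y z, ((p : ℝ) ^ 2)⁻¹ ≤ 1 / y := by
    by_cases hyz : y ≤ z
    · have h1 : ∑ p ∈ PR κ y z, ((p : ℝ) ^ 2)⁻¹ ≤ ∑ p ∈ Ioc y z, ((p : ℝ) ^ 2)⁻¹ :=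
        Finset.sum_le_sum_of_subset_of_nonneg (Finset.filter_subset _ _) fun _ _ _ => by positivity
      have h2 := sum_Ioc_inv_sq_le_sub (α := ℝ) (k := y) (n := z) (by omega) hyz
      have h3 : (0 : ℝ) ≤ (z : ℝ)⁻¹ := by positivity
      rw [one_div]
      linarith
    · have : PR κ y z = ∅ := by
        rw [PR, Ioc_eq_empty (by omega)]
        rfl
      rw [this, Finset.sum_empty]
      positivity
  calc (10 : ℝ) * ∑ p ∈ PR κ y z, ((p : ℝ) ^ 2)⁻¹ ≤ 10 * (1 / y) :=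
        mul_le_mul_of_nonneg_left hsq (by norm_num)
    _ = 10 / y := by ring

end Baux

theorem b2 : B2 := by
  intro η hη
  obtain ⟨e, he0, he1, he2⟩ : ∃ e : ℝ, 0 < e ∧ 4 * e ≤ η ∧ 4 * e ≤ 1 :=
    ⟨min η 1 / 4, by positivity, by linarith [min_le_left η 1], by linarith [min_le_right η 1]⟩
  obtain ⟨y0, hy0⟩ := exists_nat_ge (2 + 10 / e + 2 / (η * e ^ 2))
  have hp1 : 0 < 10 / e := by positivity
  have hp2 : 0 < 2 / (η * e ^ 2) := by positivity
  refine ⟨y0, ?_, ?_⟩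
  · have : (2 : ℝ) ≤ y0 := by linarith
    exact_mod_cast this
  intro y hy z hyz M hM κ b hκ
  have hy' : (y0 : ℝ) ≤ y := by exact_mod_cast hy
  have hy2 : 2 ≤ y := by
    have : (2 : ℝ) ≤ y := by linarith
    exact_mod_cast this
  have hy0' : (0 : ℝ) < y := by linarith
  have h10 : 10 / (y : ℝ) ≤ e := by
    rw [div_le_iff₀ hy0']
    have h1 : 10 / e ≤ y := by linarith
    rw [div_le_iff₀ he0] at h1
    linarith
  set g : ℕ → ℝ := fun i => ∑ p ∈ PR κ y z, (jacobiSym (b + κ * i) p : ℝ) / p with hg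
  have hsub : (range M).filter (fun i : ℕ => η < |∏ p ∈ PR κ y z, loc (b + κ * i) p - 1|) ⊆
      (range M).filter (fun i : ℕ => e < |g i|) := by
    intro i hi
    rw [mem_filter] at hi ⊢
    refine ⟨hi.1, ?_⟩
    by_contra hcon
    push Not at hcon
    obtain ⟨h1, h2⟩ := log_prod (κ := κ) (z := z) hy2 (b + κ * i)
    set P := ∏ p ∈ PR κ y z, loc (b + κ * i) p with hP
    have h3 : |Real.log P| ≤ 2 * e := by
      have h4 : Real.log P = (Real.log P + g i) - g i := by ring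
      rw [h4]
      refine (abs_sub _ _).trans ?_
      have h5 : |Real.log P + g i| ≤ 10 / y := h2
      linarith
    have h4 := Real.abs_exp_sub_one_le (x := Real.log P) (by linarith)
    rw [Real.exp_log h1] at h4
    have := hi.2
    linarith
  have hcount : (#((range M).filter (fun i : ℕ => e < |g i|)) : ℝ) * e ^ 2 ≤ (M : ℝ) / y + (z : ℝ) ^ 2 := by
    refine le_trans ?_ (b1 y z M κ b hy2 hκ)
    calc (#((range M).filter (fun i : ℕ => e < |g i|)) : ℝ) * e ^ 2
        = ∑ i ∈ (range M).filter (fun i : ℕ => e < |g i|), e ^ 2 := by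
          rw [Finset.sum_const, nsmul_eq_mul]
      _ ≤ ∑ i ∈ (range M).filter (fun i : ℕ => e < |g i|), g i ^ 2 := by
          refine Finset.sum_le_sum fun i hi => ?_
          rw [← sq_abs (g i)]
          exact pow_le_pow_left₀ he0.le (mem_filter.1 hi).2.le 2
      _ ≤ ∑ i ∈ range M, g i ^ 2 :=
          Finset.sum_le_sum_of_subset_of_nonneg (Finset.filter_subset _ _) fun _ _ _ => sq_nonneg _
  have hz0 : (0 : ℝ) < z := by
    have : (y : ℝ) ≤ z := by exact_mod_cast hyz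
    linarith
  have hz2 : (z : ℝ) ^ 2 ≤ M / y := by
    have h1 : (z : ℝ) ^ 3 ≤ M := by exact_mod_cast hM
    have h2 : (y : ℝ) ≤ z := by exact_mod_cast hyz
    rw [le_div_iff₀ hy0']
    calc (z : ℝ) ^ 2 * y ≤ (z : ℝ) ^ 2 * z := mul_le_mul_of_nonneg_left h2 (by positivity)
      _ = (z : ℝ) ^ 3 := by ring
      _ ≤ M := h1
  have hfin : (#((range M).filter (fun i : ℕ => e < |g i|)) : ℝ) ≤ η * M := by
    have h1 : 2 / (η * e ^ 2) ≤ y := by linarith
    rw [div_le_iff₀ (by positivity)] at h1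
    have h2 : (#((range M).filter (fun i : ℕ => e < |g i|)) : ℝ) * e ^ 2 ≤ 2 * ((M : ℝ) / y) := by linarith
    have h3 : 2 * ((M : ℝ) / y) ≤ η * M * e ^ 2 := by
      rw [mul_div_assoc', div_le_iff₀ hy0']
      have hM0 : (0 : ℝ) ≤ M := Nat.cast_nonneg _
      nlinarith
    exact le_of_mul_le_mul_right (h2.trans h3) (by positivity)
  refine le_trans ?_ hfin
  have h9 := Finset.card_le_card hsub
  exact_mod_cast h9

end Pool.Agent.N511.LL
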