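import Pool.Agent.N511.LL.Stm

/-!
# Project LL: periodicity of the box condition
-/

set_option autoImplicit false

namespace Pool.Agent.N511.LL

open Finset Filter Topology Classical

theorem Q_pos (y : ℕ) : 0 < Q y := by
  unfold Q PP
  refine Finset.prod_pos fun p hp => ?_
  exact (Finset.mem_filter.1 hp).2.pos

theorem T_congr (y : ℕ) {a b : ℤ} (h : (a : ZMod (Q y)) = b) : T a y = T b y := by
  unfold T loc
  refine Finset.prod_congr rfl fun p hp => ?_
  have h1 : ((Q y : ℕ) : ℤ) ∣ b - a := (ZMod.intCast_eq_intCast_iff_dvd_sub a b (Q y)).1 h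
  have h2 : (p : ℤ) ∣ b - a := by
    refine dvd_trans ?_ h1
    exact_mod_cast Finset.dvd_prod_of_mem (fun p => p) hp
  have h3 : a % p = b % p := (Int.modEq_iff_dvd).2 h2
  rw [jacobiSym.mod_left a, h3, ← jacobiSym.mod_left b]

theorem InBox_congr {ι : Type} (y : ℕ) (s : ι → ℤ) (α β : ι → ℝ) {a b : ℤ} (h : (a : ZMod (Q y)) = b) :
    InBox y s α β a ↔ InBox y s α β b := by
  unfold InBox
  have h1 : ∀ j, T (a + s j) y = T (b + s j) y := fun j => T_congr y (by push_cast; rw [h])
  simp only [h1]

theorem card_shift {n : ℕ} (hn : 0 < n) (F : ℤ → Prop) (hF : ∀ a b : ℤ, (a : ZMod n) = b → (F a ↔ F b)) (κ : ℕ)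
    (b : ℤ) (h : Nat.Coprime κ n) :
    #((range n).filter (fun i : ℕ => F (b + κ * i))) = #((range n).filter (fun i : ℕ => F i)) := by
  have : NeZero n := ⟨hn.ne'⟩
  have hu : IsUnit (κ : ZMod n) := (ZMod.isUnit_iff_coprime κ n).2 h
  refine Finset.card_bij (fun i _ => ((b + κ * i : ℤ) : ZMod n).val) ?_ ?_ ?_
  · intro i hi
    rw [Finset.mem_filter, Finset.mem_range] at hi ⊢
    refine ⟨ZMod.val_lt _, ?_⟩
    rw [hF _ (b + κ * i) (by rw [Int.cast_natCast, ZMod.natCast_zmod_val])]
    exact hi.2
  · intro i hi j hj hij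
    rw [Finset.mem_filter, Finset.mem_range] at hi hj
    have h1 := ZMod.val_injective n hij
    push_cast at h1
    have h2 : (i : ZMod n) = j := hu.mul_left_cancel (add_left_cancel h1)
    rw [ZMod.natCast_eq_natCast_iff'] at h2
    rwa [Nat.mod_eq_of_lt hi.1, Nat.mod_eq_of_lt hj.1] at h2
  · intro d hd
    rw [Finset.mem_filter, Finset.mem_range] at hd
    obtain ⟨u, hu'⟩ := hu
    have h0 : (((b + κ * ((((u⁻¹ : (ZMod n)ˣ) : ZMod n) * ((d : ZMod n) - b)).val : ℕ) : ℤ)) : ZMod n) = d := by
      push_cast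
      rw [ZMod.natCast_zmod_val, ← hu', ← mul_assoc, Units.mul_inv, one_mul]
      ring
    refine ⟨(((u⁻¹ : (ZMod n)ˣ) : ZMod n) * ((d : ZMod n) - b)).val, ?_, ?_⟩
    · rw [Finset.mem_filter, Finset.mem_range]
      refine ⟨ZMod.val_lt _, ?_⟩
      rw [hF _ (d : ℤ) (by rw [h0]; simp)]
      exact hd.2
    · rw [h0, ZMod.val_natCast, Nat.mod_eq_of_lt hd.1]

theorem card_blocks {n : ℕ} (P : ℕ → Prop) (hP : ∀ i, P (i + n) ↔ P i) (q : ℕ) :
    #((range (n * q)).filter P) = q * #((range n).filter P) := by
  have hper : ∀ q i, P (i + n * q) ↔ P i := by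
    intro q
    induction q with
    | zero => simp
    | succ q ih =>
      intro i
      rw [mul_add, mul_one, ← add_assoc, hP, ih]
  induction q with
  | zero => simp
  | succ q ih =>
    rw [mul_add, mul_one, Finset.range_add_eq_union, Finset.filter_union, Finset.card_union_of_disjoint, ih]
    · have : #(((range n).map (addLeftEmbedding (n * q))).filter P) = #((range n).filter P) := by
        rw [Finset.filter_map, Finset.card_map]
        congr 1
        refine Finset.filter_congr fun i _ => ?_
        simp only [Function.comp, addLeftEmbedding_apply]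
        rw [add_comm, hper]
      rw [this]
      ring
    · rw [Finset.disjoint_left]
      intro a ha hb
      simp only [Finset.mem_filter, Finset.mem_map, Finset.mem_range, addLeftEmbedding_apply] at ha hb
      obtain ⟨⟨i, _, hi⟩, _⟩ := hb
      omega

theorem c0 : C0 := by
  intro ι y s α β κ M b hc
  have hn := Q_pos y
  set n := Q y with hndef
  set P : ℕ → Prop := fun i => InBox y s α β (b + κ * i) with hPdef
  have hP : ∀ i, P (i + n) ↔ P i := by
    intro i
    refine InBox_congr y s α β ?_
    push_cast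
    rw [← hndef]
    simp
  set c : ℕ := #((range n).filter P) with hcdef
  have hc1 : c = #((range n).filter (fun d : ℕ => InBox y s α β d)) :=
    card_shift hn (fun d => InBox y s α β d) (fun a b h => InBox_congr y s α β h) κ b hc
  have hG : Gb y s α β = (c : ℝ) / n := by
    rw [hc1]
    rfl
  have hnR : (0 : ℝ) < n := by exact_mod_cast hn
  have hcn : (c : ℝ) ≤ n := by
    have : c ≤ #(range n) := Finset.card_filter_le _ _
    rw [Finset.card_range] at this
    exact_mod_cast this
  have key : ∀ q r : ℕ, (q : ℝ) * c ≤ #((range (n * q + r)).filter P) ∧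
      (#((range (n * q + r)).filter P) : ℝ) ≤ q * c + r := by
    intro q r
    have h1 := card_blocks P hP q
    rw [Finset.range_add_eq_union, Finset.filter_union, Finset.card_union_of_disjoint, h1]
    · have h2 : #(((range r).map (addLeftEmbedding (n * q))).filter P) ≤ r := by
        refine (Finset.card_filter_le _ _).trans ?_
        rw [Finset.card_map, Finset.card_range]
      constructor
      · push_cast
        have : (0 : ℝ) ≤ #(((range r).map (addLeftEmbedding (n * q))).filter P) := Nat.cast_nonneg _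
        linarith
      · push_cast
        have : (#(((range r).map (addLeftEmbedding (n * q))).filter P) : ℝ) ≤ r := by exact_mod_cast h2
        linarith
    · rw [Finset.disjoint_left]
      intro a ha hb
      simp only [Finset.mem_filter, Finset.mem_map, Finset.mem_range, addLeftEmbedding_apply] at ha hb
      obtain ⟨⟨i, _, hi⟩, _⟩ := hb
      omega
  rw [hG]
  constructor
  · have hM : M = n * (M / n) + M % n := (Nat.div_add_mod M n).symm
    have hr : M % n < n := Nat.mod_lt _ hn
    obtain ⟨k1, k2⟩ := key (M / n) (M % n)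
    rw [← hM] at k1 k2
    have hMR : (M : ℝ) = n * ((M / n : ℕ) : ℝ) + ((M % n : ℕ) : ℝ) := by exact_mod_cast hM
    have hrR : ((M % n : ℕ) : ℝ) ≤ n := by exact_mod_cast hr.le
    have hr0 : (0 : ℝ) ≤ ((M % n : ℕ) : ℝ) := Nat.cast_nonneg _
    have hx : (M : ℝ) * ((c : ℝ) / n) = ((M / n : ℕ) : ℝ) * c + ((M % n : ℕ) : ℝ) * (c / n) := by
      rw [hMR]
      field_simp
    have h01 : (c : ℝ) / n ≤ 1 := by rw [div_le_one hnR]; exact hcn
    have h00 : 0 ≤ (c : ℝ) / n := div_nonneg (Nat.cast_nonneg _) hnR.le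
    have h02 : ((M % n : ℕ) : ℝ) * (c / n) ≤ ((M % n : ℕ) : ℝ) := mul_le_of_le_one_right hr0 h01
    have h03 : 0 ≤ ((M % n : ℕ) : ℝ) * (c / n) := mul_nonneg hr0 h00
    rw [abs_le, hx]
    constructor <;> linarith
  · rintro ⟨q, rfl⟩
    have h1 := card_blocks P hP q
    rw [h1, ← hcdef]
    push_cast
    field_simp

end Pool.Agent.N511.LL
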