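import Pool.Agent.N511.LL.Stm

/-!
# LL/CR0: product of local sums (helper887, for helper511)
-/

set_option autoImplicit false

namespace Pool.Agent.N511.LL

open Finset

namespace CR0aux

theorem jac_mod {q N : ℕ} (h : q ∣ N) (d : ℕ) :
    jacobiSym (d : ℤ) q = jacobiSym ((d % N : ℕ) : ℤ) q := by
  apply jacobiSym.mod_left'
  have : d % N % q = d % q := Nat.mod_mod_of_dvd d h
  exact_mod_cast this.symm

theorem sum_crt {N p : ℕ} (hN : N ≠ 0) (hp : p ≠ 0) (co : N.Coprime p) (F g : ℕ → ℝ)
    (hF : ∀ d, F d = F (d % N)) (hg : ∀ d, g d = g (d % p)) :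
    ∑ d ∈ range (N * p), F d * g d = (∑ d ∈ range N, F d) * ∑ r ∈ range p, g r := by
  rw [Finset.sum_mul_sum, ← Finset.sum_product']
  refine Finset.sum_nbij' (fun d => (d % N, d % p))
    (fun x => (Nat.chineseRemainder co x.1 x.2 : ℕ)) ?_ ?_ ?_ ?_ ?_
  · intro d _
    rw [Finset.mem_product]
    exact ⟨Finset.mem_range.2 (Nat.mod_lt _ (Nat.pos_of_ne_zero hN)),
      Finset.mem_range.2 (Nat.mod_lt _ (Nat.pos_of_ne_zero hp))⟩
  · intro x _
    exact Finset.mem_range.2 (Nat.chineseRemainder_lt_mul co x.1 x.2 hN hp)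
  · intro d hd
    have h := Nat.chineseRemainder_modEq_unique co (a := d % N) (b := d % p) (z := d)
      (Nat.mod_modEq d N).symm (Nat.mod_modEq d p).symm
    exact (h.eq_of_lt_of_lt (Finset.mem_range.1 hd)
      (Nat.chineseRemainder_lt_mul co _ _ hN hp)).symm
  · intro x hx
    rw [Finset.mem_product, Finset.mem_range, Finset.mem_range] at hx
    have h := (Nat.chineseRemainder co x.1 x.2).2
    have h1 : (Nat.chineseRemainder co x.1 x.2 : ℕ) % N = x.1 := by
      have := h.1
      unfold Nat.ModEq at this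
      rw [this, Nat.mod_eq_of_lt hx.1]
    have h2 : (Nat.chineseRemainder co x.1 x.2 : ℕ) % p = x.2 := by
      have := h.2
      unfold Nat.ModEq at this
      rw [this, Nat.mod_eq_of_lt hx.2]
    exact Prod.ext h1 h2
  · intro d _
    show F d * g d = F (d % N) * g (d % p)
    rw [← hF, ← hg]

end CR0aux

open CR0aux in
theorem cr0 : CR0 := by
  intro S hS f
  induction S using Finset.induction_on with
  | empty => simp
  | insert p S hp ih =>
    have hpp : p.Prime := hS p (Finset.mem_insert_self _ _)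
    have hS' : ∀ q ∈ S, q.Prime := fun q hq => hS q (Finset.mem_insert_of_mem hq)
    have ih' := ih hS'
    rw [Finset.prod_insert hp, Finset.prod_insert hp, ← ih']
    have hN : ∏ q ∈ S, q ≠ 0 := Finset.prod_ne_zero_iff.2 fun q hq => (hS' q hq).ne_zero
    have co : (∏ q ∈ S, q).Coprime p := by
      apply Nat.Coprime.prod_left
      intro q hq
      rw [Nat.coprime_primes (hS' q hq) hpp]
      intro h
      exact hp (h ▸ hq)
    have key := sum_crt hN hpp.ne_zero co (fun d => ∏ q ∈ S, f q (jacobiSym (d : ℤ) q))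
      (fun d => f p (jacobiSym (d : ℤ) p)) (fun d => by
        refine Finset.prod_congr rfl fun q hq => ?_
        exact congrArg (f q) (jac_mod (Finset.dvd_prod_of_mem (fun x : ℕ => x) hq) d))
      (fun d => congrArg (f p) (jac_mod (dvd_refl p) d))
    rw [mul_comm p, mul_comm (∑ r ∈ range p, f p (jacobiSym (r : ℤ) p)), ← key]
    refine Finset.sum_congr rfl fun d _ => ?_
    rw [Finset.prod_insert hp, mul_comm]

end Pool.Agent.N511.LL

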