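import Pool.Agent.N511.LL.Stm

/-!
# Existence of the limit law, uniform in the box (D0)
-/

set_option autoImplicit false

namespace Pool.Agent.N511.LL

open Finset Filter Topology Classical

namespace D0x

theorem mem_PP {y p : ℕ} : p ∈ PP y ↔ (3 ≤ p ∧ p ≤ y) ∧ p.Prime := by
  unfold PP
  rw [Finset.mem_filter, Finset.mem_Icc]

theorem loc_pos {d : ℤ} {p : ℕ} (hp : 3 ≤ p) : 0 < loc d p := by
  unfold loc
  have h1 : (jacobiSym d p : ℝ) ≤ 1 := by
    rcases jacobiSym.trichotomy d p with h | h | h <;> rw [h] <;> norm_num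
  have h2 : (2 : ℝ) ≤ (p : ℝ) - 1 := by
    have : (3 : ℝ) ≤ p := by exact_mod_cast hp
    linarith
  have h3 : (jacobiSym d p : ℝ) / ((p : ℝ) - 1) ≤ 1 / 2 := by
    rw [div_le_div_iff₀ (by linarith) (by norm_num)]
    linarith
  linarith

theorem T_pos (d : ℤ) (y : ℕ) : 0 < T d y :=
  Finset.prod_pos fun _ hp => loc_pos (mem_PP.1 hp).1.1

theorem T_split {d : ℤ} {y z : ℕ} (hy : 2 ≤ y) (hyz : y ≤ z) :
    T d z = T d y * ∏ p ∈ PR 1 y z, loc d p := by
  unfold T
  rw [← Finset.prod_union]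
  · refine Finset.prod_congr ?_ fun _ _ => rfl
    ext p
    rw [Finset.mem_union, mem_PP, mem_PP]
    unfold PR
    rw [Finset.mem_filter, Finset.mem_Ioc]
    constructor
    · rintro ⟨⟨h1, h2⟩, h3⟩
      by_cases h : p ≤ y
      · exact Or.inl ⟨⟨h1, h⟩, h3⟩
      · exact Or.inr ⟨⟨by omega, h2⟩, h3, fun h4 => h3.one_lt.ne' (Nat.dvd_one.1 h4)⟩
    · rintro (⟨⟨h1, h2⟩, h3⟩ | ⟨⟨h1, h2⟩, h3, _⟩)
      · exact ⟨⟨h1, h2.trans hyz⟩, h3⟩
      · exact ⟨⟨by omega, h2⟩, h3⟩
  · rw [Finset.disjoint_left]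
    intro p hp hp'
    rw [mem_PP] at hp
    unfold PR at hp'
    rw [Finset.mem_filter, Finset.mem_Ioc] at hp'
    omega

theorem Q_pos (y : ℕ) : 0 < Q y :=
  Finset.prod_pos fun _ hp => (mem_PP.1 hp).2.pos

/-- comparison with a threshold -/
theorem cmp {a x x' η δ : ℝ} (hη : 0 < η) (hδ1 : δ ≤ 1) (hηδ : 8 * η ≤ δ) (hx : 0 < x)
    (hx' : |x' - x| ≤ η * x) (hw : 0 < a → ¬ (a / (1 + η) ^ 2 < x ∧ x ≤ a / (1 + η) ^ 2 * (1 + δ))) :
    a < x ↔ a < x' := by
  rw [abs_le] at hx'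
  obtain ⟨h1, h2⟩ := hx'
  have hη1 : η ≤ 1 / 8 := by linarith
  rcases le_or_gt a 0 with ha | ha
  · constructor
    · intro _
      nlinarith
    · intro _
      linarith
  · have hw' := hw ha
    have hpos : (0 : ℝ) < (1 + η) ^ 2 := by positivity
    rcases le_or_gt x (a / (1 + η) ^ 2) with h3 | h3
    · rw [le_div_iff₀ hpos] at h3
      constructor
      · intro h4
        exfalso
        nlinarith [mul_pos hη hx, mul_pos (mul_pos hη hη) hx]
      · intro h4
        exfalso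
        nlinarith [mul_pos hη hx, mul_pos (mul_pos hη hη) hx]
    · have h4 : a / (1 + η) ^ 2 * (1 + δ) < x := by
        by_contra h
        exact hw' ⟨h3, not_lt.1 h⟩
      have h5 : a * (1 + δ) < x * (1 + η) ^ 2 := by
        rw [div_mul_eq_mul_div, div_lt_iff₀ hpos] at h4
        exact h4
      have h6 : a < (1 - η) * x := by
        have h7 : (1 + η) ^ 2 ≤ (1 + δ) * (1 - η) := by nlinarith
        have h8 : x * (1 + η) ^ 2 ≤ x * ((1 + δ) * (1 - η)) := mul_le_mul_of_nonneg_left h7 hx.le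
        have h9 : (0 : ℝ) < 1 + δ := by linarith
        have h10 : a * (1 + δ) < ((1 - η) * x) * (1 + δ) := by nlinarith
        exact lt_of_mul_lt_mul_right h10 h9.le
      constructor
      · intro _
        linarith
      · intro _
        nlinarith [mul_pos hη hx]

theorem count_window (hC : C0) {y M : ℕ} (hM : Q y ∣ M) (s : ℤ) {t δ ε : ℝ}
    (hA : (#((range (Q y)).filter (fun d : ℕ => t < T (d + s) y ∧ T (d + s) y ≤ t * (1 + δ))) : ℝ) ≤
      ε * Q y) :
    (#((range M).filter (fun i : ℕ => t < T (i + s) y ∧ T (i + s) y ≤ t * (1 + δ))) : ℝ) ≤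
      ε * M := by
  have h1 := (hC (ι := Unit) y (fun _ => s) (fun _ => t) (fun _ => t * (1 + δ)) 1 M 0
    (Nat.coprime_one_left _)).2 hM
  have hQ : (0 : ℝ) < Q y := by exact_mod_cast Q_pos y
  have h2 : Gb y (fun _ : Unit => s) (fun _ => t) (fun _ => t * (1 + δ)) ≤ ε := by
    unfold Gb
    rw [div_le_iff₀ hQ]
    refine le_trans (le_of_eq ?_) hA
    congr 2
    refine Finset.filter_congr fun d _ => ?_
    unfold InBox
    simp
  have h3 : (#((range M).filter (fun i : ℕ => t < T (i + s) y ∧ T (i + s) y ≤ t * (1 + δ))) : ℝ) =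
      M * Gb y (fun _ : Unit => s) (fun _ => t) (fun _ => t * (1 + δ)) := by
    rw [← h1]
    congr 2
    refine Finset.filter_congr fun d _ => ?_
    unfold InBox
    simp
  rw [h3, mul_comm ε]
  exact mul_le_mul_of_nonneg_left h2 (Nat.cast_nonneg _)

/-- uniform Cauchy property -/
theorem cauchy (hA : A0) (hB : B2) (hC : C0) {ι : Type} [Fintype ι] (s : ι → ℤ) {ε : ℝ}
    (hε : 0 < ε) : ∃ y0 : ℕ, ∀ y : ℕ, y0 ≤ y → ∀ z : ℕ, y ≤ z → ∀ α β : ι → ℝ,
      |Gb y s α β - Gb z s α β| ≤ ε := by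
  set k : ℝ := (Fintype.card ι : ℝ) with hk
  have hk0 : 0 ≤ k := Nat.cast_nonneg _
  set ε1 : ℝ := ε / (3 * k + 1) with hε1
  have hε10 : 0 < ε1 := by positivity
  obtain ⟨yA, δ, hδ0, hδ1, hyA⟩ := hA ε1 hε10
  set η : ℝ := min (δ / 8) ε1 with hη
  have hη0 : 0 < η := lt_min (by linarith) hε10
  have hηδ : 8 * η ≤ δ := by
    have := min_le_left (δ / 8) ε1
    linarith
  have hηε : η ≤ ε1 := min_le_right _ _
  obtain ⟨yB, hyB2, hyB⟩ := hB η hη0
  refine ⟨max yA yB, fun y hy z hyz α β => ?_⟩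
  have hy1 : yA ≤ y := (le_max_left _ _).trans hy
  have hy2 : yB ≤ y := (le_max_right _ _).trans hy
  have hy3 : 2 ≤ y := hyB2.trans hy2
  set M : ℕ := Q y * Q z * z ^ 3 with hM
  have hz0 : 0 < z := by omega
  have hM0 : 0 < M := Nat.mul_pos (Nat.mul_pos (Q_pos y) (Q_pos z)) (pow_pos hz0 3)
  have hMz : z ^ 3 ≤ M := Nat.le_mul_of_pos_left _ (Nat.mul_pos (Q_pos y) (Q_pos z))
  have hQy : Q y ∣ M := Dvd.dvd.mul_right (Dvd.intro _ rfl) _
  have hQz : Q z ∣ M := Dvd.dvd.mul_right (Dvd.intro_left _ rfl) _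
  have hMr : (0 : ℝ) < M := by exact_mod_cast hM0
  -- the counts
  have hcount : ∀ w : ℕ, Q w ∣ M →
      (#((range M).filter (fun i : ℕ => InBox w s α β (i : ℤ))) : ℝ) = M * Gb w s α β := by
    intro w hw
    rw [← (hC w s α β 1 M 0 (Nat.coprime_one_left _)).2 hw]
    simp
  -- the exceptional sets
  set E : ι → Finset ℕ := fun j => (range M).filter
    (fun i : ℕ => η < |∏ p ∈ PR 1 y z, loc (s j + (1 : ℕ) * i) p - 1|) with hE
  set Wd : ℤ → ℝ → Finset ℕ := fun b a => if 0 < a then (range M).filter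
    (fun i : ℕ => a / (1 + η) ^ 2 < T (i + b) y ∧ T (i + b) y ≤ a / (1 + η) ^ 2 * (1 + δ)) else ∅
    with hWd
  have hEc : ∀ j, ((#(E j) : ℕ) : ℝ) ≤ ε1 * M := by
    intro j
    refine (hyB y hy2 z hyz M hMz 1 (s j) le_rfl).trans ?_
    exact mul_le_mul_of_nonneg_right hηε hMr.le
  have hWc : ∀ b a, ((#(Wd b a) : ℕ) : ℝ) ≤ ε1 * M := by
    intro b a
    rw [hWd]
    simp only
    split_ifs with h
    · exact count_window hC hQy b (hyA y hy1 b _ (by positivity))
    · simp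
      positivity
  set Bad : Finset ℕ := Finset.univ.biUnion
    (fun j : ι => E j ∪ (Wd (s j) (α j) ∪ Wd (s j) (β j))) with hBad
  have hBadc : ((#Bad : ℕ) : ℝ) ≤ ε * M := by
    have h1 : (#Bad : ℕ) ≤ ∑ j : ι, (#(E j) + (#(Wd (s j) (α j)) + #(Wd (s j) (β j)))) := by
      refine Finset.card_biUnion_le.trans (Finset.sum_le_sum fun j _ => ?_)
      refine (Finset.card_union_le _ _).trans (Nat.add_le_add_left (Finset.card_union_le _ _) _)
    have h2 : ((#Bad : ℕ) : ℝ) ≤ ∑ j : ι, (3 * (ε1 * M)) := by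
      refine le_trans (Nat.cast_le.2 h1) ?_
      push_cast
      refine Finset.sum_le_sum fun j _ => ?_
      have e1 := hEc j
      have e2 := hWc (s j) (α j)
      have e3 := hWc (s j) (β j)
      linarith
    rw [Finset.sum_const, Finset.card_univ, nsmul_eq_mul] at h2
    refine h2.trans ?_
    have h3 : 3 * k * ε1 ≤ ε := by
      rw [hε1, ← mul_div_assoc, div_le_iff₀ (by positivity)]
      nlinarith
    calc (Fintype.card ι : ℝ) * (3 * (ε1 * M)) = 3 * k * ε1 * M := by rw [hk]; ring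
      _ ≤ ε * M := mul_le_mul_of_nonneg_right h3 hMr.le
  have hgood : ∀ i ∈ range M, i ∉ Bad → (InBox y s α β (i : ℤ) ↔ InBox z s α β (i : ℤ)) := by
    intro i hi hib
    rw [hBad, Finset.mem_biUnion] at hib
    push Not at hib
    unfold InBox
    refine forall_congr' fun j => ?_
    have hj := hib j (Finset.mem_univ _)
    rw [Finset.mem_union, Finset.mem_union] at hj
    push Not at hj
    obtain ⟨g1, g2, g3⟩ := hj
    have g1' : |∏ p ∈ PR 1 y z, loc (s j + (1 : ℕ) * i) p - 1| ≤ η := by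
      by_contra h
      exact g1 (Finset.mem_filter.2 ⟨hi, not_le.1 h⟩)
    have e1 : s j + (1 : ℕ) * (i : ℤ) = (i : ℤ) + s j := by push_cast; ring
    rw [e1] at g1'
    have hT := T_pos ((i : ℤ) + s j) y
    have hx' : |T ((i : ℤ) + s j) z - T ((i : ℤ) + s j) y| ≤ η * T ((i : ℤ) + s j) y := by
      rw [T_split hy3 hyz]
      have e2 : T ((i : ℤ) + s j) y * ∏ p ∈ PR 1 y z, loc ((i : ℤ) + s j) p -
          T ((i : ℤ) + s j) y =
          T ((i : ℤ) + s j) y * (∏ p ∈ PR 1 y z, loc ((i : ℤ) + s j) p - 1) := by ring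
      rw [e2, abs_mul, abs_of_pos hT, mul_comm η]
      exact mul_le_mul_of_nonneg_left g1' hT.le
    have hw : ∀ a, i ∉ Wd (s j) a → 0 < a → ¬ (a / (1 + η) ^ 2 < T ((i : ℤ) + s j) y ∧
        T ((i : ℤ) + s j) y ≤ a / (1 + η) ^ 2 * (1 + δ)) := by
      intro a ha ha0 h
      apply ha
      rw [hWd]
      simp only [if_pos ha0]
      exact Finset.mem_filter.2 ⟨hi, h⟩
    have c1 := cmp hη0 hδ1 hηδ hT hx' (hw _ g2)
    have c2 := cmp hη0 hδ1 hηδ hT hx' (hw _ g3)
    rw [c1, ← not_lt, ← not_lt, c2]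
  -- comparison of the counts
  have hsub : ∀ p q : ℕ → Prop, (∀ i ∈ range M, i ∉ Bad → (p i ↔ q i)) →
      ((#((range M).filter p) : ℕ) : ℝ) ≤ ((#((range M).filter q) : ℕ) : ℝ) + (#Bad : ℕ) := by
    intro p q hpq
    have h1 : (range M).filter p ⊆ (range M).filter q ∪ Bad := by
      intro i hi
      rw [Finset.mem_filter] at hi
      rw [Finset.mem_union]
      by_cases hb : i ∈ Bad
      · exact Or.inr hb
      · exact Or.inl (Finset.mem_filter.2 ⟨hi.1, (hpq i hi.1 hb).1 hi.2⟩)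
    have h2 := (Finset.card_le_card h1).trans (Finset.card_union_le _ _)
    exact_mod_cast h2
  have h1 := hsub (fun i : ℕ => InBox y s α β (i : ℤ)) (fun i : ℕ => InBox z s α β (i : ℤ)) hgood
  have h2 := hsub (fun i : ℕ => InBox z s α β (i : ℤ)) (fun i : ℕ => InBox y s α β (i : ℤ))
    fun i hi hb => (hgood i hi hb).symm
  rw [hcount y hQy, hcount z hQz] at h1
  rw [hcount y hQy, hcount z hQz] at h2
  rw [abs_le]
  constructor
  · have : (M : ℝ) * Gb z s α β ≤ M * (Gb y s α β + ε) := by linarith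
    have := le_of_mul_le_mul_left this hMr
    linarith
  · have : (M : ℝ) * Gb y s α β ≤ M * (Gb z s α β + ε) := by linarith
    have := le_of_mul_le_mul_left this hMr
    linarith

end D0x

open D0x in
theorem d0 (hA : A0) (hB : B2) (hC : C0) : D0 := by
  intro ι _ s
  have hlim : ∀ α β : ι → ℝ, ∃ r : ℝ, Tendsto (fun y => Gb y s α β) atTop (𝓝 r) := by
    intro α β
    refine cauchySeq_tendsto_of_complete (Metric.cauchySeq_iff'.2 fun ε hε => ?_)
    obtain ⟨y0, h⟩ := cauchy hA hB hC s (half_pos hε)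
    refine ⟨y0, fun z hz => ?_⟩
    rw [Real.dist_eq, abs_sub_comm]
    exact (h y0 le_rfl z hz α β).trans_lt (half_lt_self hε)
  choose ρ hρ using hlim
  refine ⟨ρ, fun ε hε => ?_⟩
  obtain ⟨y0, h⟩ := cauchy hA hB hC s hε
  refine ⟨y0, fun y hy α β => ?_⟩
  have h1 : Tendsto (fun z => |Gb y s α β - Gb z s α β|) atTop (𝓝 |Gb y s α β - ρ α β|) :=
    (tendsto_const_nhds.sub (hρ α β)).abs
  refine le_of_tendsto h1 ?_
  filter_upwards [eventually_ge_atTop y] with z hz
  exact h y hy z hz α β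

end Pool.Agent.N511.LL
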