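import Pool.Agent.N511.LL.Stm

/-!
# Project LL (helper511), leaf E0 (helper157): transfer to quantities near the truncated products
-/

set_option autoImplicit false

namespace Pool.Agent.N511.LL

open Finset Filter Topology

namespace E0p

theorem loc_pos {p : ℕ} (hp : 3 ≤ p) (d : ℤ) : 0 < loc d p := by
  unfold loc
  have hp' : (3 : ℝ) ≤ p := by exact_mod_cast hp
  have h1 : (jacobiSym d p : ℝ) ≤ 1 := by
    rcases jacobiSym.trichotomy d p with h | h | h <;> rw [h] <;> norm_num
  have h2 : (jacobiSym d p : ℝ) / ((p : ℝ) - 1) ≤ 1 / 2 := by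
    rw [div_le_div_iff₀ (by linarith) (by norm_num)]
    linarith
  linarith

theorem T_pos (d : ℤ) (y : ℕ) : 0 < T d y := by
  unfold T
  apply prod_pos
  intro p hp
  have : p ∈ Icc 3 y := (mem_filter.1 hp).1
  exact loc_pos (mem_Icc.1 this).1 d

theorem Q_pos (y : ℕ) : 0 < Q y := by
  unfold Q
  apply prod_pos
  intro p hp
  exact (mem_filter.1 hp).2.pos

open Classical in
theorem window (hC : C0) {ε δ : ℝ} {y : ℕ}
    (hA : ∀ s : ℤ, ∀ t : ℝ, 0 < t →
      (#((range (Q y)).filter (fun d : ℕ => t < T (d + s) y ∧ T (d + s) y ≤ t * (1 + δ))) : ℝ) ≤ ε * Q y)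
    (κ M : ℕ) (b s : ℤ) (hκ : Nat.Coprime κ (Q y)) (t : ℝ) (ht : 0 < t) :
    (#((range M).filter (fun i : ℕ => t < T (b + κ * i + s) y ∧ T (b + κ * i + s) y ≤ t * (1 + δ))) : ℝ) ≤
      ε * M + Q y := by
  have h1 := (hC (ι := Unit) y (fun _ => s) (fun _ => t) (fun _ => t * (1 + δ)) κ M b hκ).1
  have h2 := hA s t ht
  have e1 : ∀ d : ℤ, InBox y (fun _ : Unit => s) (fun _ => t) (fun _ => t * (1 + δ)) d ↔
      (t < T (d + s) y ∧ T (d + s) y ≤ t * (1 + δ)) := by
    intro d
    unfold InBox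
    simp
  have h3 : Gb y (fun _ : Unit => s) (fun _ => t) (fun _ => t * (1 + δ)) ≤ ε := by
    unfold Gb
    have hQ : (0 : ℝ) < Q y := by exact_mod_cast Q_pos y
    rw [div_le_iff₀ hQ]
    refine le_trans (le_of_eq ?_) h2
    congr 2
    ext d
    simp only [mem_filter, e1]
  have h4 : ((range M).filter (fun i : ℕ => InBox y (fun _ : Unit => s) (fun _ => t)
      (fun _ => t * (1 + δ)) (b + κ * i))) =
      (range M).filter (fun i : ℕ => t < T (b + κ * i + s) y ∧ T (b + κ * i + s) y ≤ t * (1 + δ)) := by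
    ext d
    simp only [mem_filter, e1]
  rw [h4] at h1
  have h5 := (abs_le.1 h1).2
  have hM : (0 : ℝ) ≤ M := Nat.cast_nonneg M
  nlinarith

/-- comparison at one threshold -/
theorem thr {D X a η δ : ℝ} (hD : 0 < D) (hη : 0 < η) (hδ : 0 < δ) (hδ1 : δ ≤ 1) (hηδ : 8 * η ≤ δ)
    (hX : |X - D| ≤ η * D) (hno : ¬ (0 < a ∧ a / (1 + 2 * η) < D ∧ D ≤ a / (1 + 2 * η) * (1 + δ))) :
    a < X ↔ a < D := by
  have hX1 := (abs_le.1 hX).1
  have hX2 := (abs_le.1 hX).2
  by_cases ha : 0 < a
  · have hne : (0 : ℝ) < 1 + 2 * η := by linarith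
    constructor
    · intro h
      by_contra h2
      apply hno
      refine ⟨ha, ?_, ?_⟩
      · rw [div_lt_iff₀ hne]
        nlinarith
      · rw [div_mul_eq_mul_div, le_div_iff₀ hne]
        nlinarith
    · intro h
      by_contra h2
      apply hno
      refine ⟨ha, ?_, ?_⟩
      · rw [div_lt_iff₀ hne]
        nlinarith
      · rw [div_mul_eq_mul_div, le_div_iff₀ hne]
        have h3 : D * (1 - η) ≤ a := by linarith
        have h4 : (1 + 2 * η) ≤ (1 - η) * (1 + δ) := by nlinarith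
        nlinarith
  · have h1 : 0 < X := by nlinarith
    constructor
    · intro _; linarith
    · intro _; linarith

theorem card_diff {A B E : Finset ℕ} (h : ∀ i, i ∉ E → (i ∈ A ↔ i ∈ B)) :
    |(#A : ℝ) - #B| ≤ #E := by
  classical
  have h1 : #A ≤ #B + #E := by
    refine (card_le_card ?_).trans (card_union_le B E)
    intro i hi
    rw [mem_union]
    by_cases hE : i ∈ E
    · exact Or.inr hE
    · exact Or.inl ((h i hE).1 hi)
  have h2 : #B ≤ #A + #E := by
    refine (card_le_card ?_).trans (card_union_le A E)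
    intro i hi
    rw [mem_union]
    by_cases hE : i ∈ E
    · exact Or.inr hE
    · exact Or.inl ((h i hE).2 hi)
  have h1' : (#A : ℝ) ≤ #B + #E := by exact_mod_cast h1
  have h2' : (#B : ℝ) ≤ #A + #E := by exact_mod_cast h2
  rw [abs_le]
  constructor <;> linarith

end E0p

open E0p Classical in
theorem e0 (hA : A0) (hC : C0) : E0 := by
  intro ι _ s ρ hρ ε hε
  set k : ℝ := (Fintype.card ι : ℝ) with hk
  have hk0 : 0 ≤ k := Nat.cast_nonneg _
  have hε' : 0 < ε / (10 * (k + 1)) := by positivity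
  set ε' : ℝ := ε / (10 * (k + 1)) with hε'def
  obtain ⟨y1, δ, hδ, hδ1, hA⟩ := hA ε' hε'
  obtain ⟨yL, hL⟩ := hρ ε' hε'
  refine ⟨min ε' (δ / 8), lt_min hε' (by positivity), max y1 yL, ?_⟩
  set η := min ε' (δ / 8) with hη
  have hη0 : 0 < η := lt_min hε' (by positivity)
  have hη1 : η ≤ ε' := min_le_left _ _
  have hη2 : 8 * η ≤ δ := by
    have := min_le_right ε' (δ / 8)
    linarith
  intro y hy
  have hy1 : y1 ≤ y := (le_max_left _ _).trans hy
  have hyL : yL ≤ y := (le_max_right _ _).trans hy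
  refine ⟨⌈(Q y : ℝ) / ε'⌉₊, ?_⟩
  intro M hM κ b X Y hκ hbad α β
  have hQM : (Q y : ℝ) ≤ ε' * M := by
    have h1 : (Q y : ℝ) / ε' ≤ M := (Nat.le_ceil _).trans (by exact_mod_cast hM)
    rw [div_le_iff₀ hε'] at h1
    linarith
  have hM0 : (0 : ℝ) ≤ M := Nat.cast_nonneg M
  -- the exceptional sets
  set B : ι → Finset ℕ := fun j => (range M).filter (fun i : ℕ =>
    η * T (b + κ * i + s j) y < |X j i - T (b + κ * i + s j) y| ∨
      η * T (b + κ * i + s j) y < |Y j i - T (b + κ * i + s j) y|) with hB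
  set W : ℝ → ι → Finset ℕ := fun a j => (range M).filter (fun i : ℕ => 0 < a ∧
    a / (1 + 2 * η) < T (b + κ * i + s j) y ∧
      T (b + κ * i + s j) y ≤ a / (1 + 2 * η) * (1 + δ)) with hW
  have hWc : ∀ a j, (#(W a j) : ℝ) ≤ ε' * M + Q y := by
    intro a j
    by_cases ha : 0 < a
    · have h1 := window hC (hA y hy1) κ M b (s j) hκ (a / (1 + 2 * η)) (by positivity)
      refine le_trans ?_ h1
      have h2 : W a j ⊆ (range M).filter (fun i : ℕ => a / (1 + 2 * η) < T (b + κ * i + s j) y ∧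
          T (b + κ * i + s j) y ≤ a / (1 + 2 * η) * (1 + δ)) := by
        intro i hi
        rw [hW, mem_filter] at hi
        rw [mem_filter]
        exact ⟨hi.1, hi.2.2⟩
      exact_mod_cast card_le_card h2
    · have h2 : W a j = ∅ := by
        rw [hW]
        apply filter_eq_empty_iff.2
        intro i _ h
        exact ha h.1
      rw [h2, card_empty]
      push_cast
      positivity
  set E : Finset ℕ := univ.biUnion (fun j : ι => B j ∪ (W (α j) j ∪ W (β j) j)) with hE
  have hEc : (#E : ℝ) ≤ k * (η * M + 2 * (ε' * M + Q y)) := by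
    have h1 : #E ≤ ∑ j : ι, (#(B j) + (#(W (α j) j) + #(W (β j) j))) := by
      refine card_biUnion_le.trans (sum_le_sum fun j _ => ?_)
      exact (card_union_le _ _).trans (Nat.add_le_add_left (card_union_le _ _) _)
    have h2 : (#E : ℝ) ≤ ∑ j : ι, ((#(B j) : ℝ) + ((#(W (α j) j) : ℝ) + #(W (β j) j))) := by
      exact_mod_cast h1
    refine h2.trans ?_
    have h3 : ∑ j : ι, ((#(B j) : ℝ) + ((#(W (α j) j) : ℝ) + #(W (β j) j))) ≤
        ∑ _j : ι, (η * M + 2 * (ε' * M + Q y)) := by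
      apply sum_le_sum
      intro j _
      have := hbad j
      have := hWc (α j) j
      have := hWc (β j) j
      linarith
    refine h3.trans (le_of_eq ?_)
    rw [sum_const, card_univ, nsmul_eq_mul]
  have hdiff := card_diff (A := (range M).filter (fun i : ℕ => ∀ j, α j < X j i ∧ Y j i ≤ β j))
    (B := (range M).filter (fun i : ℕ => InBox y s α β (b + κ * i))) (E := E) (by
    intro i hi
    rw [mem_filter, mem_filter]
    apply and_congr_right
    intro hiM
    unfold InBox
    apply forall_congr'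
    intro j
    have hij : i ∉ B j ∧ i ∉ W (α j) j ∧ i ∉ W (β j) j := by
      have : i ∉ B j ∪ (W (α j) j ∪ W (β j) j) := fun h => hi (mem_biUnion.2 ⟨j, mem_univ _, h⟩)
      rw [mem_union, mem_union] at this
      tauto
    obtain ⟨h1, h2, h3⟩ := hij
    rw [hB, mem_filter, not_and, not_or, not_lt, not_lt] at h1
    rw [hW, mem_filter, not_and] at h2 h3
    have h1 := h1 hiM
    have h2 := h2 hiM
    have h3 := h3 hiM
    have hD := T_pos (b + κ * i + s j) y
    have a1 := thr hD hη0 hδ hδ1 hη2 h1.1 h2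
    have a2 := thr hD hη0 hδ hδ1 hη2 h1.2 h3
    rw [a1, ← not_lt, a2, not_lt])
  have hbox := (hC y s α β κ M b hκ).1
  have hlaw := hL y hyL α β
  have hkε : ε' * (10 * (k + 1)) = ε := by
    rw [hε'def]
    field_simp
  rw [abs_le] at hdiff hbox hlaw ⊢
  have hmul1 : -(ε' * M) ≤ M * Gb y s α β - M * ρ α β := by nlinarith [hlaw.1]
  have hmul2 : M * Gb y s α β - M * ρ α β ≤ ε' * M := by nlinarith [hlaw.2]
  have hkey : k * (η * M + 2 * (ε' * M + Q y)) + Q y + ε' * M ≤ ε * M := by
    have h1 : k * (η * M + 2 * (ε' * M + Q y)) ≤ k * (5 * (ε' * M)) := by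
      apply mul_le_mul_of_nonneg_left _ hk0
      nlinarith
    have h2 : k * (5 * (ε' * M)) + ε' * M + ε' * M ≤ ε * M := by
      rw [← hkε]
      have : 0 ≤ ε' * M := by positivity
      nlinarith
    linarith
  constructor <;> linarith [hdiff.1, hdiff.2, hbox.1, hbox.2]

end Pool.Agent.N511.LL
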