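import Pool.Agent.N511.LL.Stm

/-!
# Project LL, task F0 (helper281): full support of the limit law
-/

set_option autoImplicit false

namespace Pool.Agent.N511.LL

open Finset Filter Topology Classical

namespace F0aux

lemma mem_PP {y p : ℕ} : p ∈ PP y ↔ (3 ≤ p ∧ p ≤ y) ∧ p.Prime := by
  simp [PP]

lemma loc_pos (d : ℤ) {p : ℕ} (hp : 3 ≤ p) : 0 < loc d p := by
  unfold loc
  have h3 : (3 : ℝ) ≤ p := by exact_mod_cast hp
  have h4 : (0 : ℝ) < (p : ℝ) - 1 := by linarith
  have h5 : (jacobiSym d p : ℝ) ≤ 1 := by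
    rcases jacobiSym.trichotomy d p with h | h | h <;> rw [h] <;> norm_num
  have h6 : (jacobiSym d p : ℝ) / ((p : ℝ) - 1) < 1 := by
    rw [div_lt_one h4]
    linarith
  linarith

lemma T_pos (d : ℤ) (y : ℕ) : 0 < T d y :=
  Finset.prod_pos fun p hp => loc_pos d (mem_PP.1 hp).1.1

lemma loc_congr {a b : ℤ} {p : ℕ} (h : a % p = b % p) : loc a p = loc b p := by
  unfold loc
  rw [jacobiSym.mod_left' h]

lemma PP_split {z y : ℕ} (h2 : 2 ≤ z) (hzy : z ≤ y) (f : ℕ → ℝ) :
    ∏ p ∈ PP y, f p = (∏ p ∈ PP z, f p) * ∏ p ∈ PR 1 z y, f p := by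
  have hd : Disjoint (PP z) (PR 1 z y) := by
    rw [Finset.disjoint_left]
    intro p hp hq
    simp only [PP, PR, mem_filter, mem_Icc, mem_Ioc] at hp hq
    omega
  rw [← Finset.prod_union hd]
  congr 1
  ext p
  simp only [PP, PR, mem_union, mem_filter, mem_Icc, mem_Ioc]
  constructor
  · rintro ⟨⟨h3, h4⟩, h5⟩
    by_cases h : p ≤ z
    · exact Or.inl ⟨⟨h3, h⟩, h5⟩
    · exact Or.inr ⟨⟨by omega, h4⟩, h5, fun h6 => h5.one_lt.ne' (Nat.dvd_one.1 h6)⟩
  · rintro (⟨⟨h3, h4⟩, h5⟩ | ⟨⟨h3, h4⟩, h5, -⟩)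
    · exact ⟨⟨h3, by omega⟩, h5⟩
    · exact ⟨⟨by omega, h4⟩, h5⟩

lemma PR_Q (z y : ℕ) : PR (Q z) z y = PR 1 z y := by
  unfold PR
  apply Finset.filter_congr
  intro p hp
  rw [mem_Ioc] at hp
  constructor
  · rintro ⟨h1, _⟩
    exact ⟨h1, fun h => h1.one_lt.ne' (Nat.dvd_one.1 h)⟩
  · rintro ⟨h1, _⟩
    refine ⟨h1, fun h => ?_⟩
    unfold Q at h
    obtain ⟨q, hq, hpq⟩ := (Prime.dvd_finset_prod_iff h1.prime _).1 h
    rw [mem_PP] at hq
    have h2 := (Nat.prime_dvd_prime_iff_eq h1 hq.2).1 hpq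
    omega

lemma Q_pos (y : ℕ) : 0 < Q y :=
  Finset.prod_pos fun p hp => by
    have := (mem_PP.1 hp).1.1
    omega

lemma PP_mono {z y : ℕ} (h : z ≤ y) : PP z ⊆ PP y := by
  intro p hp
  rw [mem_PP] at hp ⊢
  exact ⟨⟨hp.1.1, hp.1.2.trans h⟩, hp.2⟩

lemma Q_dvd {z y : ℕ} (h : z ≤ y) : Q z ∣ Q y :=
  Finset.prod_dvd_prod_of_subset _ _ _ (PP_mono h)

/-- Chinese remainder theorem -/
lemma crt (z : ℕ) (a : ℕ → ℤ) : ∃ d : ℕ, ∀ p ∈ PP z, (d : ℤ) % p = a p % p := by
  obtain ⟨d, hd⟩ := Nat.chineseRemainderOfFinset (fun p => (a p % p).toNat) (fun p : ℕ => p) (PP z)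
    (fun p hp => by have := (mem_PP.1 hp).1.1; omega)
    (fun p hp q hq hpq => (Nat.coprime_primes (mem_PP.1 hp).2 (mem_PP.1 hq).2).2 hpq)
  refine ⟨d, fun p hp => ?_⟩
  have hp0 : (p : ℤ) ≠ 0 := by
    have := (mem_PP.1 hp).1.1
    omega
  have h1 := hd p hp
  have h2 : (d : ℤ) ≡ ((a p % p).toNat : ℤ) [ZMOD p] := Int.natCast_modEq_iff.2 h1
  rw [Int.toNat_of_nonneg (Int.emod_nonneg _ hp0)] at h2
  have h3 : (d : ℤ) % p = a p % p % p := h2
  rw [h3, Int.emod_emod]

end F0aux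

open F0aux in
theorem f0 (h1 : F1) (h2 : F2) (hB : B2) (hC : C0) : F0 := by
  intro ι _ s hs α β hαβ hβ
  -- the targets
  set τ : ι → ℝ := fun j => (max (α j) 0 + β j) / 2 with hτ
  set m : ι → ℝ := fun j => (β j - max (α j) 0) / 2 with hm
  have hmx : ∀ j, max (α j) 0 < β j := fun j => max_lt (hαβ j) (hβ j)
  have hm0 : ∀ j, 0 < m j := fun j => by
    have := hmx j
    simp only [hm]
    linarith
  have hτ0 : ∀ j, 0 < τ j := fun j => by
    have := hβ j
    have := le_max_right (α j) 0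
    simp only [hτ]
    linarith
  have hτβ : ∀ j, τ j + m j = β j := fun j => by simp only [hτ, hm]; ring
  have hτα : ∀ j, α j ≤ τ j - m j := fun j => by
    have := le_max_left (α j) 0
    simp only [hτ, hm]
    linarith
  have hS : 0 ≤ ∑ j, 3 * τ j / m j := Finset.sum_nonneg fun j _ => by
    have := hm0 j; have := hτ0 j; positivity
  set D : ℝ := 4 + 2 * Fintype.card ι + ∑ j, 3 * τ j / m j with hD
  have hk0 : (0 : ℝ) ≤ Fintype.card ι := Nat.cast_nonneg _
  have hD0 : 0 < D := by rw [hD]; linarith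
  set η : ℝ := 1 / D with hη
  have hη0 : 0 < η := by positivity
  have hηD : η * D = 1 := by rw [hη]; field_simp
  have hη4 : η ≤ 1 / 4 := by
    have : η * 4 ≤ η * D := mul_le_mul_of_nonneg_left (by rw [hD]; linarith) hη0.le
    linarith
  have hηk : Fintype.card ι * η ≤ 1 / 2 := by
    have : η * (2 * Fintype.card ι) ≤ η * D :=
      mul_le_mul_of_nonneg_left (by rw [hD]; linarith) hη0.le
    linarith
  have hητ : ∀ j, 3 * η * τ j ≤ m j := by
    intro j
    have e1 : 3 * τ j / m j ≤ ∑ j, 3 * τ j / m j :=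
      Finset.single_le_sum (f := fun j => 3 * τ j / m j) (fun i _ => by
        have := hm0 i; have := hτ0 i; positivity) (Finset.mem_univ j)
    have e2 : η * (3 * τ j / m j) ≤ η * D :=
      mul_le_mul_of_nonneg_left (by rw [hD]; linarith) hη0.le
    rw [hηD] at e2
    have e3 : η * (3 * τ j / m j) * m j ≤ 1 * m j := mul_le_mul_of_nonneg_right e2 (hm0 j).le
    have e4 : η * (3 * τ j / m j) * m j = 3 * η * τ j := by
      have := (hm0 j).ne'
      field_simp
    linarith
  -- the thresholds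
  obtain ⟨p0, hp0⟩ := h1 s hs
  obtain ⟨ya, hya2, hya⟩ := h2 (ι := ι) η hη0
  obtain ⟨yb, hyb2, hyb⟩ := hB η hη0
  set y1 : ℕ := max (max p0 ya) yb with hy1
  have hy1p : p0 ≤ y1 := (le_max_left _ _).trans (le_max_left _ _)
  have hy1a : ya ≤ y1 := (le_max_right _ _).trans (le_max_left _ _)
  have hy1b : yb ≤ y1 := le_max_right _ _
  have hy12 : 2 ≤ y1 := hya2.trans hy1a
  set θ : ι → ℝ := fun j => T (s j) y1 with hθ
  have hθ0 : ∀ j, 0 < θ j := fun j => T_pos _ _
  obtain ⟨z, hz, e, he, hez⟩ := hya y1 hy1a (fun j => τ j / θ j)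
    (fun j => div_pos (hτ0 j) (hθ0 j))
  -- the Chinese remainder theorem
  have hex : ∀ p : ℕ, ∃ d : ℤ, y1 < p → p.Prime → ∀ j, jacobiSym (d + s j) p = e j p := by
    intro p
    by_cases h : y1 < p ∧ p.Prime
    · obtain ⟨d, hd⟩ := hp0 p (by omega) h.2 (fun j => e j p) (fun j => he j p)
      exact ⟨d, fun _ _ => hd⟩
    · exact ⟨0, fun h3 h4 => absurd ⟨h3, h4⟩ h⟩
  choose dp hdp using hex
  obtain ⟨d0, hd0⟩ := crt z (fun p => if p ≤ y1 then 0 else dp p)
  have hT0 : ∀ j, |T (d0 + s j) z - τ j| ≤ η * τ j := by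
    intro j
    have e1 : T (d0 + s j) z = θ j * ∏ p ∈ PR 1 y1 z, (1 - (e j p : ℝ) / ((p : ℝ) - 1)) := by
      unfold T
      rw [PP_split hy12 hz]
      congr 1
      · refine Finset.prod_congr rfl fun p hp => loc_congr ?_
        have h3 := hd0 p (PP_mono hz hp)
        rw [if_pos (mem_PP.1 hp).1.2] at h3
        rw [Int.add_emod, h3]
        simp
      · refine Finset.prod_congr rfl fun p hp => ?_
        simp only [PR, mem_filter, mem_Ioc] at hp
        have h3 := hd0 p (mem_PP.2 ⟨⟨by omega, hp.1.2⟩, hp.2.1⟩)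
        rw [if_neg (by omega)] at h3
        have h4 : loc ((d0 : ℤ) + s j) p = loc (dp p + s j) p := loc_congr (by
          rw [Int.add_emod, h3, ← Int.add_emod])
        rw [h4]
        unfold loc
        rw [hdp p hp.1.1 hp.2.1 j]
    have e2 := hez j
    have e3 : T (d0 + s j) z - τ j = θ j *
        (∏ p ∈ PR 1 y1 z, (1 - (e j p : ℝ) / ((p : ℝ) - 1)) - τ j / θ j) := by
      rw [e1, mul_sub, mul_div_cancel₀ _ (hθ0 j).ne']
    rw [e3, abs_mul, abs_of_pos (hθ0 j)]
    have e4 := mul_le_mul_of_nonneg_left e2 (hθ0 j).le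
    refine e4.trans (le_of_eq ?_)
    have := (hθ0 j).ne'
    field_simp
  -- the conclusion
  have hz2 : 2 ≤ z := hy12.trans hz
  have hQz : (0 : ℝ) < Q z := by exact_mod_cast Q_pos z
  refine ⟨1 / (2 * Q z), by positivity, z, fun y hy => ?_⟩
  obtain ⟨R, hR⟩ := Q_dvd hy
  have hRpos : 0 < R := by
    rcases Nat.eq_zero_or_pos R with h | h
    · rw [h, mul_zero] at hR
      exact absurd hR (Q_pos y).ne'
    · exact h
  set L : ℕ := y ^ 3 with hL
  have hLpos : 0 < L := by
    have : 0 < y := by omega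
    positivity
  set M : ℕ := L * R with hM
  have hML : y ^ 3 ≤ M := Nat.le_mul_of_pos_right _ hRpos
  have hbad := fun j => hyb z (hy1b.trans hz) y hy M hML (Q z) (d0 + s j) (Q_pos z)
  -- factorisation
  have hfac : ∀ (i : ℕ) (j : ι), T ((d0 : ℤ) + Q z * i + s j) y =
      T (d0 + s j) z * ∏ p ∈ PR (Q z) z y, loc (d0 + s j + Q z * i) p := by
    intro i j
    rw [PR_Q]
    unfold T
    rw [PP_split hz2 hy]
    congr 1
    · refine Finset.prod_congr rfl fun p hp => loc_congr ?_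
      have h3 : (p : ℤ) ∣ (Q z : ℤ) := Int.natCast_dvd_natCast.2 (Finset.dvd_prod_of_mem _ hp)
      have h4 : (p : ℤ) ∣ (Q z : ℤ) * i := h3.mul_right _
      have h5 : ((d0 : ℤ) + Q z * i + s j) = (d0 + s j) + Q z * i := by ring
      rw [h5]
      exact (Int.emod_emod_of_dvd _ (dvd_refl _)).symm.trans (by
        rw [Int.add_emod, Int.emod_eq_zero_of_dvd h4]; simp)
    · refine Finset.prod_congr rfl fun p hp => ?_
      congr 1
      ring
  -- the good `i`
  have hgood : ∀ i ∈ range M, (∀ j, ¬ η < |∏ p ∈ PR (Q z) z y, loc (d0 + s j + Q z * i) p - 1|) →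
      InBox y s α β ((d0 : ℤ) + Q z * i) := by
    intro i _ hi j
    have g1 := hi j
    push Not at g1
    have g2 := hT0 j
    rw [hfac]
    set A := T (d0 + s j) z
    set B := ∏ p ∈ PR (Q z) z y, loc (d0 + s j + Q z * i) p
    rw [abs_le] at g1 g2
    have g3 := hτ0 j
    have g4 := hητ j
    have g5 := hτβ j
    have g6 := hτα j
    have A1 : τ j * (1 - η) ≤ A := by linarith [g2.1]
    have A2 : A ≤ τ j * (1 + η) := by linarith [g2.2]
    have B1 : 1 - η ≤ B := by linarith [g1.1]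
    have B2 : B ≤ 1 + η := by linarith [g1.2]
    have A0 : 0 < τ j * (1 - η) := by
      have : 0 < 1 - η := by linarith
      positivity
    have C1 : τ j * (1 - η) * (1 - η) ≤ A * B := by
      apply mul_le_mul A1 B1 (by linarith) (by linarith)
    have C2 : A * B ≤ τ j * (1 + η) * (1 + η) := by
      apply mul_le_mul A2 B2 (by linarith) (by positivity)
    have ητ0 : 0 < η * τ j := by positivity
    have ηητ : 0 < η * (η * τ j) := by positivity
    have ηητ' : η * (η * τ j) ≤ 1 / 4 * (η * τ j) := mul_le_mul_of_nonneg_right hη4 ητ0.le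
    constructor
    · nlinarith
    · nlinarith
  -- counting
  have hcount : (M : ℝ) / 2 ≤ (#((range M).filter
      (fun i : ℕ => InBox y s α β ((d0 : ℤ) + Q z * i))) : ℝ) := by
    have c1 : range M ⊆ (range M).filter (fun i : ℕ => InBox y s α β ((d0 : ℤ) + Q z * i)) ∪
        (Finset.univ : Finset ι).biUnion (fun j => (range M).filter (fun i : ℕ =>
          η < |∏ p ∈ PR (Q z) z y, loc (d0 + s j + Q z * i) p - 1|)) := by
      intro i hi
      rw [mem_union, mem_filter, mem_biUnion]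
      by_cases h : ∀ j, ¬ η < |∏ p ∈ PR (Q z) z y, loc (d0 + s j + Q z * i) p - 1|
      · exact Or.inl ⟨hi, hgood i hi h⟩
      · push Not at h
        obtain ⟨j, hj⟩ := h
        exact Or.inr ⟨j, Finset.mem_univ _, mem_filter.2 ⟨hi, hj⟩⟩
    have c2 := (card_le_card c1).trans (card_union_le _ _)
    rw [card_range] at c2
    have c3 : (#((Finset.univ : Finset ι).biUnion (fun j => (range M).filter (fun i : ℕ =>
          η < |∏ p ∈ PR (Q z) z y, loc (d0 + s j + Q z * i) p - 1|))) : ℝ) ≤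
        Fintype.card ι * (η * M) := by
      have c4 : (#((Finset.univ : Finset ι).biUnion (fun j => (range M).filter (fun i : ℕ =>
          η < |∏ p ∈ PR (Q z) z y, loc (d0 + s j + Q z * i) p - 1|))) : ℝ) ≤
          ∑ j : ι, (#((range M).filter (fun i : ℕ =>
          η < |∏ p ∈ PR (Q z) z y, loc (d0 + s j + Q z * i) p - 1|)) : ℝ) := by
        exact_mod_cast card_biUnion_le
      refine c4.trans ((Finset.sum_le_sum fun j _ => hbad j).trans (le_of_eq ?_))
      rw [Finset.sum_const, Finset.card_univ, nsmul_eq_mul]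
    have c5 : (M : ℝ) ≤ (#((range M).filter
        (fun i : ℕ => InBox y s α β ((d0 : ℤ) + Q z * i))) : ℝ) +
        (#((Finset.univ : Finset ι).biUnion (fun j => (range M).filter (fun i : ℕ =>
          η < |∏ p ∈ PR (Q z) z y, loc (d0 + s j + Q z * i) p - 1|))) : ℝ) := by
      exact_mod_cast c2
    have c6 : (Fintype.card ι : ℝ) * (η * M) ≤ M / 2 := by
      have : (Fintype.card ι * η) * M ≤ 1 / 2 * M :=
        mul_le_mul_of_nonneg_right hηk (Nat.cast_nonneg _)
      linarith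
    linarith
  -- the interval
  have hint := (hC y s α β 1 (L * Q y) (d0 : ℤ) (Nat.coprime_one_left _)).2 (Dvd.intro_left _ rfl)
  have hinj : #((range M).filter (fun i : ℕ => InBox y s α β ((d0 : ℤ) + Q z * i))) ≤
      #((range (L * Q y)).filter (fun i : ℕ => InBox y s α β ((d0 : ℤ) + (1 : ℕ) * i))) := by
    refine Finset.card_le_card_of_injOn (fun i => Q z * i) ?_ ?_
    · intro i hi
      rw [Finset.mem_coe, mem_filter, mem_range] at hi ⊢
      refine ⟨?_, ?_⟩
      · calc Q z * i < Q z * M := Nat.mul_lt_mul_of_pos_left hi.1 (Q_pos z)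
          _ = L * Q y := by rw [hM, hR]; ring
      · have h7 := hi.2
        push_cast
        rw [one_mul]
        exact h7
    · intro a _ b _ hab
      exact Nat.eq_of_mul_eq_mul_left (Q_pos z) hab
  have hinj' : (#((range M).filter (fun i : ℕ => InBox y s α β ((d0 : ℤ) + Q z * i))) : ℝ) ≤
      (#((range (L * Q y)).filter (fun i : ℕ => InBox y s α β ((d0 : ℤ) + (1 : ℕ) * i))) : ℝ) := by
    exact_mod_cast hinj
  rw [hint] at hinj'
  have h8 : (M : ℝ) / 2 ≤ ((L * Q y : ℕ) : ℝ) * Gb y s α β := hcount.trans hinj'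
  have h9 : ((L * Q y : ℕ) : ℝ) = (M : ℝ) * Q z := by
    rw [hM, hR]
    push_cast
    ring
  rw [h9] at h8
  have hM0 : (0 : ℝ) < M := by
    have : 0 < M := Nat.mul_pos hLpos hRpos
    exact_mod_cast this
  rw [div_le_iff₀ (by positivity)]
  have h10 : (M : ℝ) * (1 / 2) ≤ M * (Gb y s α β * Q z) := by linarith
  have h11 := le_of_mul_le_mul_left h10 hM0
  linarith

end Pool.Agent.N511.LL
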