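import Pool.Agent.N511.LL.Stm
import Pool.Agent.H341R2.WeilSharp

/-!
# Patterns of quadratic symbols (F1 of project LL)
-/

set_option autoImplicit false

namespace Pool.Agent.N511.LL

open Finset Filter Topology Classical Polynomial

/-- Weil's bound for a product of distinct linear factors. -/
theorem f1_weil {ι : Type} (p : ℕ) [Fact p.Prime] (hp : p ≠ 2) (s : ι → ℤ)
    (hs : ∀ i j : ι, (s i : ZMod p) = (s j : ZMod p) → i = j) (S : Finset ι) (hS : S.Nonempty) :
    |∑ x : ZMod p, ∏ j ∈ S, (quadraticChar (ZMod p) (x + (s j : ZMod p)) : ℝ)| ≤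
      (S.card : ℝ) * Real.sqrt p := by
  set f : (ZMod p)[X] := ∏ j ∈ S, (X - C (-(s j : ZMod p))) with hf
  have hmon : f.Monic := monic_prod_of_monic _ _ (fun j _ => monic_X_sub_C _)
  have hdeg : f.natDegree = S.card := by
    rw [hf, natDegree_prod_of_monic _ _ (fun j _ => monic_X_sub_C _),
      sum_congr rfl (fun j _ => natDegree_X_sub_C _), sum_const, smul_eq_mul, mul_one]
  have hsep : f.Separable := by
    rw [hf, separable_prod_X_sub_C_iff']
    intro x _ y _ hxy
    exact hs x y (neg_injective hxy)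
  have hc : 1 ≤ S.card := hS.card_pos
  have hring : ringChar (ZMod p) ≠ 2 := by
    rw [ZMod.ringChar_zmod_n]
    exact hp
  have h5 := Pool.Agent.H341R2.Sharp.weil_sharp hring f (by rw [hdeg]; exact hc) (by
    intro c h hch
    have h6 : IsUnit h := hsep.squarefree h ⟨C c, by rw [hch]; ring⟩
    have h7 : f.natDegree = 0 := by
      obtain ⟨r, hr⟩ := Polynomial.isUnit_iff.1 h6
      rw [hch, ← hr.2, ← C_pow, ← C_mul, natDegree_C]
    omega)
  rw [ZMod.card, hdeg] at h5
  have h6 : ∑ x : ZMod p, (quadraticChar (ZMod p) (f.eval x) : ℝ) =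
      ∑ x : ZMod p, ∏ j ∈ S, (quadraticChar (ZMod p) (x + (s j : ZMod p)) : ℝ) := by
    apply sum_congr rfl
    intro x _
    rw [hf, eval_prod, map_prod]
    push_cast
    apply prod_congr rfl
    intro j _
    rw [eval_sub, eval_X, eval_C, sub_neg_eq_add]
  rw [← h6]
  refine h5.trans ?_
  apply mul_le_mul_of_nonneg_right _ (Real.sqrt_nonneg _)
  linarith

/-- Patterns of quadratic symbols occur for all large primes. -/
theorem f1 : F1 := by
  intro ι _ s hs
  set k : ℕ := Fintype.card ι with hk
  refine ⟨(2 * (k * 2 ^ k)) ^ 2 + 3 + 2 * ∑ j, (s j).natAbs, ?_⟩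
  intro p hp hpp e he
  have : Fact p.Prime := ⟨hpp⟩
  have hp2 : p ≠ 2 := by omega
  have hinj : ∀ i j : ι, (s i : ZMod p) = (s j : ZMod p) → i = j := by
    intro i j hij
    apply hs
    have h1 : ((s i - s j : ℤ) : ZMod p) = 0 := by
      push_cast
      rw [hij, sub_self]
    rw [ZMod.intCast_zmod_eq_zero_iff_dvd] at h1
    have h2 : (s i).natAbs ≤ ∑ j, (s j).natAbs := single_le_sum (f := fun j => (s j).natAbs)
      (fun _ _ => Nat.zero_le _) (mem_univ i)
    have h3 : (s j).natAbs ≤ ∑ j, (s j).natAbs := single_le_sum (f := fun j => (s j).natAbs)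
      (fun _ _ => Nat.zero_le _) (mem_univ j)
    have h4 : s i - s j = 0 := by
      apply Int.eq_zero_of_abs_lt_dvd h1
      rw [abs_lt]
      generalize ∑ j, (s j).natAbs = B at *
      have : (2 * (k * 2 ^ k)) ^ 2 + 3 + 2 * B ≤ p := hp
      constructor <;> omega
    linarith
  by_contra hcon
  push Not at hcon
  have hcon' : ∀ x : ZMod p, ∃ j, quadraticChar (ZMod p) (x + (s j : ZMod p)) ≠ e j := by
    intro x
    obtain ⟨j, hj⟩ := hcon (x.val : ℤ)
    refine ⟨j, ?_⟩
    intro h
    apply hj
    rw [← h, ← jacobiSym.legendreSym.to_jacobiSym, legendreSym]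
    push_cast
    rw [ZMod.natCast_zmod_val]
  -- the sum of the products
  set G : ZMod p → ℝ := fun x => ∏ j, (1 + (e j : ℝ) * (quadraticChar (ZMod p) (x + (s j : ZMod p)) : ℝ)) with hG
  have hq : ∀ y : ZMod p, |(quadraticChar (ZMod p) y : ℝ)| ≤ 1 := by
    intro y
    by_cases hy : y = 0
    · rw [hy, MulChar.map_zero]
      simp
    · rcases quadraticChar_dichotomy hy with h | h <;> simp [h]
  have hea : ∀ j, |(e j : ℝ)| = 1 := by
    intro j
    rcases he j with h | h <;> simp [h]
  have hup : |∑ x, G x| ≤ (k : ℝ) * 2 ^ k := by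
    set R : Finset (ZMod p) := univ.image (fun j : ι => -(s j : ZMod p)) with hR
    have hz : ∀ x ∉ R, G x = 0 := by
      intro x hx
      obtain ⟨j, hj⟩ := hcon' x
      apply prod_eq_zero (mem_univ j)
      have hy : x + (s j : ZMod p) ≠ 0 := by
        intro h0
        apply hx
        rw [hR, mem_image]
        exact ⟨j, mem_univ _, (eq_neg_of_add_eq_zero_left h0).symm⟩
      rcases quadraticChar_dichotomy hy with h | h <;> rcases he j with h' | h' <;> rw [h] at hj ⊢ <;>
        rw [h'] at hj ⊢ <;> first | exact absurd rfl hj | norm_num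
    have h1 : ∑ x, G x = ∑ x ∈ R, G x := by
      symm
      apply sum_subset (subset_univ _)
      intro x _ hx
      exact hz x hx
    rw [h1]
    calc |∑ x ∈ R, G x| ≤ ∑ x ∈ R, |G x| := abs_sum_le_sum_abs _ _
      _ ≤ ∑ x ∈ R, (2 : ℝ) ^ k := by
          apply sum_le_sum
          intro x _
          rw [hG]
          simp only
          rw [abs_prod]
          calc ∏ j, |1 + (e j : ℝ) * (quadraticChar (ZMod p) (x + (s j : ZMod p)) : ℝ)| ≤ ∏ j : ι, (2 : ℝ) := by
                apply Finset.prod_le_prod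
                · intro j _
                  exact abs_nonneg _
                · intro j _
                  refine (abs_add_le _ _).trans ?_
                  rw [abs_mul, hea j, one_mul, abs_one]
                  have := hq (x + (s j : ZMod p))
                  linarith
            _ = 2 ^ k := by
                rw [prod_const, hk]
                rfl
      _ = (R.card : ℝ) * 2 ^ k := by rw [sum_const, nsmul_eq_mul]
      _ ≤ (k : ℝ) * 2 ^ k := by
          apply mul_le_mul_of_nonneg_right _ (by positivity)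
          have : R.card ≤ k := by
            rw [hR, hk]
            exact card_image_le
          exact_mod_cast this
  have hexp : ∑ x, G x = ∑ S ∈ (univ : Finset ι).powerset, (∏ j ∈ S, (e j : ℝ)) *
      ∑ x : ZMod p, ∏ j ∈ S, (quadraticChar (ZMod p) (x + (s j : ZMod p)) : ℝ) := by
    simp only [hG]
    have h1 : ∀ x : ZMod p, ∏ j, (1 + (e j : ℝ) * (quadraticChar (ZMod p) (x + (s j : ZMod p)) : ℝ)) =
        ∑ S ∈ (univ : Finset ι).powerset, ∏ j ∈ S, ((e j : ℝ) * (quadraticChar (ZMod p) (x + (s j : ZMod p)) : ℝ)) := by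
      intro x
      rw [prod_one_add]
    simp_rw [h1]
    rw [sum_comm]
    apply sum_congr rfl
    intro S _
    rw [mul_sum]
    apply sum_congr rfl
    intro x _
    rw [prod_mul_distrib]
  have hlow : (p : ℝ) - (2 ^ k : ℝ) * (k * Real.sqrt p) ≤ ∑ x, G x := by
    rw [hexp]
    rw [← add_sum_erase _ _ (empty_mem_powerset (univ : Finset ι))]
    have h0 : (∏ j ∈ (∅ : Finset ι), (e j : ℝ)) *
      ∑ x : ZMod p, ∏ j ∈ (∅ : Finset ι), (quadraticChar (ZMod p) (x + (s j : ZMod p)) : ℝ) = p := by
      simp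
    rw [h0]
    have h2 : |∑ S ∈ (univ : Finset ι).powerset.erase ∅, (∏ j ∈ S, (e j : ℝ)) *
      ∑ x : ZMod p, ∏ j ∈ S, (quadraticChar (ZMod p) (x + (s j : ZMod p)) : ℝ)| ≤ (2 ^ k : ℝ) * (k * Real.sqrt p) := by
      calc _ ≤ ∑ S ∈ (univ : Finset ι).powerset.erase ∅, |(∏ j ∈ S, (e j : ℝ)) *
            ∑ x : ZMod p, ∏ j ∈ S, (quadraticChar (ZMod p) (x + (s j : ZMod p)) : ℝ)| := abs_sum_le_sum_abs _ _
        _ ≤ ∑ S ∈ (univ : Finset ι).powerset.erase ∅, ((k : ℝ) * Real.sqrt p) := by
            apply sum_le_sum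
            intro S hS
            rw [mem_erase] at hS
            rw [abs_mul, abs_prod]
            rw [prod_congr rfl (fun j _ => hea j), prod_const_one, one_mul]
            refine (f1_weil p hp2 s hinj S (nonempty_iff_ne_empty.2 hS.1)).trans ?_
            apply mul_le_mul_of_nonneg_right _ (Real.sqrt_nonneg _)
            have : S.card ≤ k := card_le_univ S
            exact_mod_cast this
        _ = (((univ : Finset ι).powerset.erase ∅).card : ℝ) * ((k : ℝ) * Real.sqrt p) := by
            rw [sum_const, nsmul_eq_mul]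
        _ ≤ (2 ^ k : ℝ) * (k * Real.sqrt p) := by
            apply mul_le_mul_of_nonneg_right _ (by positivity)
            have h3 : ((univ : Finset ι).powerset.erase ∅).card ≤ 2 ^ k := by
              refine (card_erase_le).trans ?_
              rw [card_powerset, card_univ]
            exact_mod_cast h3
    have h4 := (abs_le.1 h2).1
    linarith
  have hle : (p : ℝ) ≤ (k : ℝ) * 2 ^ k + (2 ^ k : ℝ) * (k * Real.sqrt p) := by
    have := (abs_le.1 hup).2
    linarith
  have hsp : (0 : ℝ) ≤ Real.sqrt p := Real.sqrt_nonneg _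
  have hsq : Real.sqrt p * Real.sqrt p = p := Real.mul_self_sqrt (Nat.cast_nonneg _)
  have hbig : (2 * ((k : ℝ) * 2 ^ k)) ^ 2 + 3 ≤ (p : ℝ) := by
    have : (2 * (k * 2 ^ k)) ^ 2 + 3 ≤ p := by omega
    exact_mod_cast this
  have h1s : 1 ≤ Real.sqrt p := by
    rw [Real.one_le_sqrt]
    have : 1 ≤ p := hpp.one_lt.le
    exact_mod_cast this
  set K : ℝ := (k : ℝ) * 2 ^ k with hK
  have hK0 : 0 ≤ K := by positivity
  set r : ℝ := Real.sqrt p with hr
  have e1 : (p : ℝ) ≤ 2 * K * r := by
    have : (2 ^ k : ℝ) * (k * r) = K * r := by rw [hK]; ring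
    rw [this] at hle
    have h5 : K ≤ K * r := le_mul_of_one_le_right hK0 h1s
    linarith
  have e2 : r ≤ 2 * K := by
    rw [← hsq] at e1
    exact le_of_mul_le_mul_right e1 (by linarith)
  have e3 : r * r ≤ (2 * K) * (2 * K) := mul_self_le_mul_self hsp e2
  nlinarith

end Pool.Agent.N511.LL
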