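import Pool.Agent.N511.LL.Stm

/-!
# Project LL, leaf F2: greedy choice of the signs
-/

set_option autoImplicit false

namespace Pool.Agent.N511.LL.F2

open Finset Filter Topology

/-- the sign chosen at the prime `p` if the product so far is `w` -/
noncomputable def sg (τ w : ℝ) : ℤ := if w < τ then -1 else 1

/-- the greedy product -/
noncomputable def W (y : ℕ) (τ : ℝ) : ℕ → ℝ
  | 0 => 1
  | z + 1 => if y < z + 1 ∧ (z + 1).Prime then
      W y τ z * (1 - (sg τ (W y τ z) : ℝ) / (((z + 1 : ℕ) : ℝ) - 1)) else W y τ z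

/-- the reciprocals of the primes -/
noncomputable def fr (n : ℕ) : ℝ := if n.Prime then 1 / (n : ℝ) else 0

lemma fr_nonneg (n : ℕ) : 0 ≤ fr n := by
  unfold fr
  split_ifs <;> positivity

/-- the sum of the reciprocals of the primes diverges -/
lemma div (z0 : ℕ) (B : ℝ) : ∃ z, z0 ≤ z ∧ B ≤ ∑ i ∈ Ico (z0 + 1) (z + 1), fr i := by
  have h1 : ¬ Summable fr := by
    have h := Nat.Primes.not_summable_one_div
    have h2 := not_summable_one_div_on_primes
    intro hs
    apply h2
    refine hs.congr fun n => ?_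
    unfold fr
    by_cases hn : n.Prime
    · rw [if_pos hn, Set.indicator_of_mem (by exact hn)]
    · rw [if_neg hn, Set.indicator_of_notMem (by exact hn)]
  rw [not_summable_iff_tendsto_nat_atTop_of_nonneg fr_nonneg] at h1
  have h2 := (h1.eventually_ge_atTop (B + ∑ i ∈ range (z0 + 1), fr i)).and
    (eventually_ge_atTop (z0 + 1))
  obtain ⟨n, hn, hn1⟩ := h2.exists
  refine ⟨n - 1, by omega, ?_⟩
  rw [Nat.sub_add_cancel (by omega)]
  have h3 := Finset.sum_range_add_sum_Ico fr hn1
  linarith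

lemma W_step {y : ℕ} (_hy : 2 ≤ y) (τ : ℝ) (z : ℕ) :
    (W y τ (z + 1) = W y τ z ∧ ¬ (y < z + 1 ∧ (z + 1).Prime)) ∨
    ((y < z + 1 ∧ (z + 1).Prime) ∧ W y τ z < τ ∧ W y τ (z + 1) = W y τ z * (1 + 1 / (z : ℝ))) ∨
    ((y < z + 1 ∧ (z + 1).Prime) ∧ τ ≤ W y τ z ∧
      W y τ (z + 1) = W y τ z * (1 - 1 / (z : ℝ))) := by
  by_cases h : y < z + 1 ∧ (z + 1).Prime
  · right
    have e : (((z + 1 : ℕ) : ℝ) - 1) = z := by push_cast; ring
    by_cases h2 : W y τ z < τ
    · left
      refine ⟨h, h2, ?_⟩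
      rw [W, if_pos h, e]
      unfold sg
      rw [if_pos h2]
      push_cast
      ring
    · right
      refine ⟨h, not_lt.1 h2, ?_⟩
      rw [W, if_pos h, e]
      unfold sg
      rw [if_neg h2]
      push_cast
      ring
  · left
    exact ⟨by rw [W, if_neg h], h⟩

lemma W_pos {y : ℕ} (hy : 2 ≤ y) (τ : ℝ) (z : ℕ) : 0 < W y τ z := by
  induction z with
  | zero => rw [W]; exact one_pos
  | succ z ih =>
    rcases W_step hy τ z with ⟨h, -⟩ | ⟨hz, -, h⟩ | ⟨hz, -, h⟩
    · rw [h]; exact ih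
    · rw [h]
      have : (0 : ℝ) ≤ 1 / (z : ℝ) := by positivity
      exact mul_pos ih (by linarith)
    · rw [h]
      have h2 : (2 : ℝ) ≤ z := by
        have : 2 ≤ z := by omega
        exact_mod_cast this
      have h3 : 1 / (z : ℝ) ≤ 1 / 2 := one_div_le_one_div_of_le (by norm_num) h2
      exact mul_pos ih (by linarith)

/-- the product cannot stay below the target -/
lemma up {y : ℕ} (hy : 2 ≤ y) (τ : ℝ) (z0 : ℕ) (h0 : y ≤ z0) : ∃ z, z0 ≤ z ∧ τ ≤ W y τ z := by
  by_contra hcon
  push Not at hcon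
  have key : ∀ z, z0 ≤ z → W y τ z0 * (1 + ∑ i ∈ Ico (z0 + 1) (z + 1), fr i) ≤ W y τ z := by
    intro z hz
    induction z, hz using Nat.le_induction with
    | base => simp
    | succ z hz ih =>
      rw [Finset.sum_Ico_succ_top (by omega)]
      have hw := W_pos hy τ z0
      have hs : 0 ≤ ∑ i ∈ Ico (z0 + 1) (z + 1), fr i := sum_nonneg fun i _ => fr_nonneg i
      have h1 : W y τ z0 ≤ W y τ z := by nlinarith
      rcases W_step hy τ z with ⟨h, hn⟩ | ⟨hp, -, h⟩ | ⟨-, hp, -⟩
      · have h2 : fr (z + 1) = 0 := by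
          unfold fr
          rw [if_neg]
          intro h3
          exact hn ⟨by omega, h3⟩
        rw [h, h2, add_zero]
        exact ih
      · have h2 : fr (z + 1) ≤ 1 / (z : ℝ) := by
          unfold fr
          rw [if_pos hp.2]
          have hz0 : (0 : ℝ) < z := by
            have : 0 < z := by omega
            exact_mod_cast this
          exact one_div_le_one_div_of_le hz0 (by push_cast; linarith)
        have h3 := fr_nonneg (z + 1)
        rw [h]
        have h4 : W y τ z0 * fr (z + 1) ≤ W y τ z * (1 / (z : ℝ)) :=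
          mul_le_mul h1 h2 h3 (W_pos hy τ z).le
        nlinarith
      · exact absurd hp (not_le.2 (hcon z hz))
  have hw := W_pos hy τ z0
  obtain ⟨z, hz, hB⟩ := div z0 (τ / W y τ z0)
  have h1 := key z hz
  have h2 := hcon z hz
  have h3 : W y τ z0 * (τ / W y τ z0) = τ := by field_simp
  nlinarith

/-- the product cannot stay above the target -/
lemma down {y : ℕ} (hy : 2 ≤ y) (τ : ℝ) (hτ : 0 < τ) (z0 : ℕ) (h0 : y ≤ z0) :
    ∃ z, z0 ≤ z ∧ W y τ z < τ := by
  by_contra hcon
  push Not at hcon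
  have key : ∀ z, z0 ≤ z →
      W y τ z * Real.exp (∑ i ∈ Ico (z0 + 1) (z + 1), fr i) ≤ W y τ z0 := by
    intro z hz
    induction z, hz using Nat.le_induction with
    | base => simp
    | succ z hz ih =>
      rw [Finset.sum_Ico_succ_top (by omega), Real.exp_add]
      rcases W_step hy τ z with ⟨h, hn⟩ | ⟨-, hp, -⟩ | ⟨hp, -, h⟩
      · have h2 : fr (z + 1) = 0 := by
          unfold fr
          rw [if_neg]
          intro h3
          exact hn ⟨by omega, h3⟩
        rw [h, h2, Real.exp_zero, mul_one]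
        exact ih
      · exact absurd hp (not_lt.2 (hcon z hz))
      · have hz0 : (0 : ℝ) < z := by
          have : 0 < z := by omega
          exact_mod_cast this
        have h2 : fr (z + 1) ≤ 1 / (z : ℝ) := by
          unfold fr
          rw [if_pos hp.2]
          exact one_div_le_one_div_of_le hz0 (by push_cast; linarith)
        have h3 : (1 - 1 / (z : ℝ)) * Real.exp (fr (z + 1)) ≤ 1 := by
          have h4 := Real.add_one_le_exp (-(1 / (z : ℝ)))
          have h5 : Real.exp (fr (z + 1)) ≤ Real.exp (1 / (z : ℝ)) := Real.exp_le_exp.2 h2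
          have h6 : Real.exp (-(1 / (z : ℝ))) * Real.exp (1 / (z : ℝ)) = 1 := by
            rw [← Real.exp_add, neg_add_cancel, Real.exp_zero]
          calc (1 - 1 / (z : ℝ)) * Real.exp (fr (z + 1))
              ≤ Real.exp (-(1 / (z : ℝ))) * Real.exp (1 / (z : ℝ)) :=
                mul_le_mul (by linarith) h5 (Real.exp_pos _).le (Real.exp_pos _).le
            _ = 1 := h6
        rw [h]
        have hE := Real.exp_pos (∑ i ∈ Ico (z0 + 1) (z + 1), fr i)
        have hW := W_pos hy τ z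
        calc W y τ z * (1 - 1 / (z : ℝ)) * (Real.exp (∑ i ∈ Ico (z0 + 1) (z + 1), fr i) *
              Real.exp (fr (z + 1)))
            = (W y τ z * Real.exp (∑ i ∈ Ico (z0 + 1) (z + 1), fr i)) *
              ((1 - 1 / (z : ℝ)) * Real.exp (fr (z + 1))) := by ring
          _ ≤ (W y τ z * Real.exp (∑ i ∈ Ico (z0 + 1) (z + 1), fr i)) * 1 :=
              mul_le_mul_of_nonneg_left h3 (mul_pos hW hE).le
          _ ≤ W y τ z0 := by rw [mul_one]; exact ih
  obtain ⟨z, hz, hB⟩ := div z0 (W y τ z0 / τ)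
  have h1 := key z hz
  have h2 := hcon z hz
  have h3 : τ * (W y τ z0 / τ) = W y τ z0 := by field_simp
  have h4 := Real.add_one_le_exp (∑ i ∈ Ico (z0 + 1) (z + 1), fr i)
  have h5 : τ * (W y τ z0 / τ + 1) ≤ W y τ z * Real.exp (∑ i ∈ Ico (z0 + 1) (z + 1), fr i) :=
    mul_le_mul h2 (by linarith) (by
      have := W_pos hy τ z0
      positivity) (W_pos hy τ z).le
  nlinarith

/-- closeness is preserved -/
lemma close_step {y : ℕ} (hy : 2 ≤ y) {τ : ℝ} (hτ : 0 < τ) {z : ℕ} (hz : y ≤ z)
    (h : τ * (1 - 1 / y) ≤ W y τ z ∧ W y τ z ≤ τ * (1 + 1 / y)) :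
    τ * (1 - 1 / y) ≤ W y τ (z + 1) ∧ W y τ (z + 1) ≤ τ * (1 + 1 / y) := by
  have hy0 : (0 : ℝ) < y := by
    have : 0 < y := by omega
    exact_mod_cast this
  have hyz : (y : ℝ) ≤ z := by exact_mod_cast hz
  have hz0 : (0 : ℝ) < z := lt_of_lt_of_le hy0 hyz
  have h1 : 1 / (z : ℝ) ≤ 1 / y := one_div_le_one_div_of_le hy0 hyz
  have h1' : 0 < 1 / (z : ℝ) := by positivity
  have hW := W_pos hy τ z
  have hz1 : 1 / (z : ℝ) ≤ 1 := by
    rw [div_le_one hz0]
    have : (1 : ℝ) ≤ y := by
      have : 1 ≤ y := by omega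
      exact_mod_cast this
    linarith
  rcases W_step hy τ z with ⟨h2, -⟩ | ⟨-, h3, h2⟩ | ⟨-, h3, h2⟩
  · rw [h2]; exact h
  · rw [h2]
    constructor
    · have : W y τ z ≤ W y τ z * (1 + 1 / z) := by nlinarith
      linarith [h.1]
    · exact mul_le_mul h3.le (by linarith) (by linarith) hτ.le
  · rw [h2]
    constructor
    · exact mul_le_mul h3 (by linarith) (by
        have : 1 / (y : ℝ) ≤ 1 := by
          rw [div_le_one hy0]
          have : 1 ≤ y := by omega
          exact_mod_cast this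
        linarith) hW.le
    · have : W y τ z * (1 - 1 / z) ≤ W y τ z := by nlinarith
      linarith [h.2]

/-- closeness holds somewhere -/
lemma close_ex {y : ℕ} (hy : 2 ≤ y) {τ : ℝ} (hτ : 0 < τ) :
    ∃ z, y ≤ z ∧ τ * (1 - 1 / y) ≤ W y τ z ∧ W y τ z ≤ τ * (1 + 1 / y) := by
  have hy0 : (0 : ℝ) < y := by
    have : 0 < y := by omega
    exact_mod_cast this
  have hy1 : 0 < 1 / (y : ℝ) := by positivity
  rcases lt_or_ge (W y τ y) τ with h | h
  · -- first time above
    classical
    have hex : ∃ z, y ≤ z ∧ τ ≤ W y τ z := up hy τ y le_rfl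
    obtain ⟨hz1, hz2⟩ := Nat.find_spec hex
    obtain ⟨z, hz⟩ : ∃ z, z = Nat.find hex := ⟨_, rfl⟩
    rw [← hz] at hz1 hz2
    have hzy : z ≠ y := by
      intro h'
      rw [h'] at hz2
      linarith
    obtain ⟨w, rfl⟩ : ∃ w, z = w + 1 := ⟨z - 1, by omega⟩
    have hw : ¬ (y ≤ w ∧ τ ≤ W y τ w) := Nat.find_min hex (by omega)
    have hw2 : W y τ w < τ := by
      by_contra h'
      exact hw ⟨by omega, not_lt.1 h'⟩
    have hyw : (y : ℝ) ≤ w := by
      have : y ≤ w := by omega
      exact_mod_cast this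
    have h1 : 1 / (w : ℝ) ≤ 1 / y := one_div_le_one_div_of_le hy0 hyw
    refine ⟨w + 1, hz1, ?_, ?_⟩
    · nlinarith
    · rcases W_step hy τ w with ⟨h2, -⟩ | ⟨-, h3, h2⟩ | ⟨-, h3, h2⟩
      · rw [h2] at hz2
        linarith
      · rw [h2]
        have : 0 ≤ 1 / (w : ℝ) := by positivity
        exact mul_le_mul h3.le (by linarith) (by linarith) hτ.le
      · linarith
  · classical
    have hex : ∃ z, y ≤ z ∧ W y τ z < τ := down hy τ hτ y le_rfl
    obtain ⟨hz1, hz2⟩ := Nat.find_spec hex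
    obtain ⟨z, hz⟩ : ∃ z, z = Nat.find hex := ⟨_, rfl⟩
    rw [← hz] at hz1 hz2
    have hzy : z ≠ y := by
      intro h'
      rw [h'] at hz2
      linarith
    obtain ⟨w, rfl⟩ : ∃ w, z = w + 1 := ⟨z - 1, by omega⟩
    have hw : ¬ (y ≤ w ∧ W y τ w < τ) := Nat.find_min hex (by omega)
    have hw2 : τ ≤ W y τ w := by
      by_contra h'
      exact hw ⟨by omega, not_le.1 h'⟩
    have hyw : (y : ℝ) ≤ w := by
      have : y ≤ w := by omega
      exact_mod_cast this
    have h1 : 1 / (w : ℝ) ≤ 1 / y := one_div_le_one_div_of_le hy0 hyw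
    refine ⟨w + 1, hz1, ?_, ?_⟩
    · rcases W_step hy τ w with ⟨h2, -⟩ | ⟨-, h3, h2⟩ | ⟨-, h3, h2⟩
      · rw [h2] at hz2
        linarith
      · linarith
      · rw [h2]
        exact mul_le_mul h3 (by linarith) (by
          have : 1 / (y : ℝ) ≤ 1 := by
            rw [div_le_one hy0]
            have : 1 ≤ y := by omega
            exact_mod_cast this
          linarith) (W_pos hy τ w).le
    · nlinarith

/-- the greedy product is the product over the primes -/
lemma prod_eq {y : ℕ} (hy : 2 ≤ y) (τ : ℝ) (z : ℕ) :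
    ∏ p ∈ PR 1 y z, (1 - (sg τ (W y τ (p - 1)) : ℝ) / ((p : ℝ) - 1)) = W y τ z := by
  classical
  induction z with
  | zero =>
    rw [W]
    unfold PR
    rw [Finset.Ioc_eq_empty (by omega), Finset.filter_empty, Finset.prod_empty]
  | succ z ih =>
    by_cases h : y < z + 1 ∧ (z + 1).Prime
    · have h1 : PR 1 y (z + 1) = insert (z + 1) (PR 1 y z) := by
        ext p
        unfold PR
        simp only [Finset.mem_insert, Finset.mem_filter, Finset.mem_Ioc]
        constructor
        · rintro ⟨⟨h1, h2⟩, h3, h4⟩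
          rcases Nat.lt_or_ge p (z + 1) with h5 | h5
          · right
            exact ⟨⟨h1, by omega⟩, h3, h4⟩
          · left
            omega
        · rintro (rfl | ⟨⟨h1, h2⟩, h3, h4⟩)
          · refine ⟨⟨h.1, le_rfl⟩, h.2, ?_⟩
            intro h5
            exact h.2.one_lt.ne' (Nat.dvd_one.1 h5)
          · exact ⟨⟨h1, by omega⟩, h3, h4⟩
      have h2 : z + 1 ∉ PR 1 y z := by
        unfold PR
        simp
      rw [h1, Finset.prod_insert h2, ih, W, if_pos h, Nat.add_sub_cancel, mul_comm]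
    · have h1 : PR 1 y (z + 1) = PR 1 y z := by
        ext p
        unfold PR
        simp only [Finset.mem_filter, Finset.mem_Ioc]
        constructor
        · rintro ⟨⟨h1, h2⟩, h3, h4⟩
          refine ⟨⟨h1, ?_⟩, h3, h4⟩
          by_contra h5
          have h6 : p = z + 1 := by omega
          subst h6
          exact h ⟨h1, h3⟩
        · rintro ⟨⟨h1, h2⟩, h3, h4⟩
          exact ⟨⟨h1, by omega⟩, h3, h4⟩
      rw [h1, ih, W, if_neg h]

/-- greedy choice of the signs -/
theorem main : Pool.Agent.N511.LL.F2 := by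
  classical
  intro ι _ η hη
  refine ⟨max 2 (⌈1 / η⌉₊), le_max_left _ _, fun y hy τ hτ => ?_⟩
  have hy2 : 2 ≤ y := (le_max_left _ _).trans hy
  have hy0 : (0 : ℝ) < y := by
    have : 0 < y := by omega
    exact_mod_cast this
  have hyη : 1 / (y : ℝ) ≤ η := by
    have h1 : 1 / η ≤ (y : ℝ) := (Nat.le_ceil _).trans
      (by exact_mod_cast (le_max_right _ _).trans hy)
    rw [div_le_iff₀ hη] at h1
    rw [div_le_iff₀ hy0]
    linarith
  choose zz hz1 hz2 using fun j => close_ex hy2 (hτ j)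
  have hper : ∀ j, ∀ z, zz j ≤ z → τ j * (1 - 1 / y) ≤ W y (τ j) z ∧
      W y (τ j) z ≤ τ j * (1 + 1 / y) := by
    intro j z hz
    induction z, hz using Nat.le_induction with
    | base => exact hz2 j
    | succ z hz ih => exact close_step hy2 (hτ j) ((hz1 j).trans hz) ih
  refine ⟨y + ∑ j, zz j, by omega, fun j p => sg (τ j) (W y (τ j) (p - 1)), ?_, ?_⟩
  · intro j p
    show sg (τ j) (W y (τ j) (p - 1)) = 1 ∨ sg (τ j) (W y (τ j) (p - 1)) = -1
    unfold sg
    split_ifs
    · right; rfl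
    · left; rfl
  · intro j
    rw [prod_eq hy2]
    have h1 : zz j ≤ y + ∑ j, zz j :=
      (Finset.single_le_sum (f := zz) (fun _ _ => Nat.zero_le _) (Finset.mem_univ j)).trans
        (by omega)
    obtain ⟨h2, h3⟩ := hper j _ h1
    have h4 : τ j * (1 / y) ≤ η * τ j := by
      rw [mul_comm η]
      exact mul_le_mul_of_nonneg_left hyη (hτ j).le
    rw [abs_le]
    constructor <;> linarith

end Pool.Agent.N511.LL.F2

/-- F2 -/
theorem Pool.Agent.N511.LL.f2 : Pool.Agent.N511.LL.F2 := Pool.Agent.N511.LL.F2.main
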