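import Pool.Agent.N511.LL.Stm
import Pool.Agent.N511.LL.D0

/-!
# The limit distribution function (G0)
-/

set_option autoImplicit false

namespace Pool.Agent.N511.LL

open Finset Filter Topology Classical

namespace G0x

theorem Gy_eq (y : ℕ) (t : ℝ) : Gy y t = Gb y (fun _ : Unit => (0 : ℤ)) (fun _ => -1) (fun _ => t) := by
  unfold Gy Gb
  congr 3
  refine Finset.filter_congr fun d _ => ?_
  unfold InBox
  have h := D0x.T_pos (d : ℤ) y
  constructor
  · intro h1 _
    rw [add_zero]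
    exact ⟨by linarith, h1⟩
  · intro h1
    have := (h1 ()).2
    rwa [add_zero] at this

theorem Gy_diff (y : ℕ) {t1 t2 : ℝ} (h : t1 ≤ t2) :
    Gy y t2 - Gy y t1 = (#((range (Q y)).filter (fun d : ℕ => t1 < T d y ∧ T d y ≤ t2)) : ℝ) / Q y := by
  unfold Gy
  rw [← sub_div]
  congr 1
  have h1 : (range (Q y)).filter (fun d : ℕ => T d y ≤ t2) =
      (range (Q y)).filter (fun d : ℕ => T d y ≤ t1) ∪
        (range (Q y)).filter (fun d : ℕ => t1 < T d y ∧ T d y ≤ t2) := by
    ext d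
    simp only [mem_filter, mem_union]
    constructor
    · rintro ⟨h2, h3⟩
      rcases le_or_gt (T d y) t1 with h4 | h4
      · exact Or.inl ⟨h2, h4⟩
      · exact Or.inr ⟨h2, h4, h3⟩
    · rintro (⟨h2, h3⟩ | ⟨h2, _, h3⟩)
      · exact ⟨h2, h3.trans h⟩
      · exact ⟨h2, h3⟩
  rw [h1, card_union_of_disjoint]
  · push_cast
    ring
  · rw [Finset.disjoint_left]
    intro d h2 h3
    rw [mem_filter] at h2 h3
    exact absurd h3.2.1 (not_lt.2 h2.2)

theorem Gy_mono (y : ℕ) : Monotone (Gy y) := by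
  intro t1 t2 h
  have h1 := Gy_diff y h
  have h2 : 0 ≤ (#((range (Q y)).filter (fun d : ℕ => t1 < T d y ∧ T d y ≤ t2)) : ℝ) / Q y := by positivity
  linarith

theorem Gy_nonpos (y : ℕ) {t : ℝ} (h : t ≤ 0) : Gy y t = 0 := by
  unfold Gy
  have h1 : (range (Q y)).filter (fun d : ℕ => T d y ≤ t) = ∅ := by
    rw [filter_eq_empty_iff]
    intro d _ h2
    linarith [D0x.T_pos (d : ℤ) y]
  rw [h1]
  simp

theorem Gy_small (y : ℕ) : ∃ c : ℝ, 0 < c ∧ ∀ t < c, Gy y t = 0 := by
  have hne : (range (Q y)).Nonempty := ⟨0, mem_range.2 (D0x.Q_pos y)⟩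
  obtain ⟨d0, _, hd⟩ := (range (Q y)).exists_min_image (fun d : ℕ => T d y) hne
  refine ⟨T d0 y, D0x.T_pos _ _, fun t ht => ?_⟩
  unfold Gy
  have h1 : (range (Q y)).filter (fun d : ℕ => T d y ≤ t) = ∅ := by
    rw [filter_eq_empty_iff]
    intro d h2 h3
    exact absurd (hd d h2) (not_le.2 (lt_of_le_of_lt h3 ht))
  rw [h1]
  simp

theorem Gy_large (y : ℕ) : ∃ c : ℝ, ∀ t, c ≤ t → Gy y t = 1 := by
  have hne : (range (Q y)).Nonempty := ⟨0, mem_range.2 (D0x.Q_pos y)⟩
  obtain ⟨d0, _, hd⟩ := (range (Q y)).exists_max_image (fun d : ℕ => T d y) hne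
  refine ⟨T d0 y, fun t ht => ?_⟩
  unfold Gy
  have h1 : (range (Q y)).filter (fun d : ℕ => T d y ≤ t) = range (Q y) := by
    rw [filter_eq_self]
    intro d h2
    exact (hd d h2).trans ht
  rw [h1, card_range]
  have : (Q y : ℝ) ≠ 0 := by
    have := D0x.Q_pos y
    positivity
  exact div_self this

end G0x

theorem g0 (hA : A0) (hB : B2) (hC : C0) (hD : D0) (hF : F0) : G0 := by
  obtain ⟨ρ, hρ⟩ := hD (ι := Unit) (fun _ => (0 : ℤ))
  have hG : IsG (fun t => ρ (fun _ => -1) (fun _ => t)) := by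
    intro ε hε
    obtain ⟨y0, hy0⟩ := hρ ε hε
    refine ⟨y0, fun y hy t => ?_⟩
    rw [G0x.Gy_eq]
    exact hy0 y hy _ _
  set G : ℝ → ℝ := fun t => ρ (fun _ => -1) (fun _ => t) with hGd
  -- inequalities pass to the limit
  have hlim : ∀ (t1 t2 c : ℝ) (y0 : ℕ), (∀ y, y0 ≤ y → Gy y t2 - Gy y t1 ≤ c) → G t2 - G t1 ≤ c := by
    intro t1 t2 c y0 h
    refine le_of_forall_pos_le_add fun ε hε => ?_
    obtain ⟨y1, hy1⟩ := hG (ε / 2) (by linarith)
    have h1 := hy1 (max y0 y1) (le_max_right _ _) t1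
    have h2 := hy1 (max y0 y1) (le_max_right _ _) t2
    have h3 := h (max y0 y1) (le_max_left _ _)
    rw [abs_le] at h1 h2
    linarith [h1.1, h1.2, h2.1, h2.2]
  have hmono : Monotone G := by
    intro t1 t2 h
    have := hlim t2 t1 0 0 (fun y _ => by linarith [G0x.Gy_mono y h])
    linarith
  have hneg : ∀ t ≤ 0, G t = 0 := by
    intro t ht
    have h1 : |G t| ≤ 0 := by
      refine le_of_forall_pos_le_add fun ε hε => ?_
      obtain ⟨y1, hy1⟩ := hG ε hε
      have := hy1 y1 le_rfl t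
      rw [G0x.Gy_nonpos y1 ht, zero_sub, abs_neg] at this
      linarith
    exact abs_nonpos_iff.1 h1
  have hnn : ∀ t, 0 ≤ G t := by
    intro t
    have h1 := hmono (min_le_left t 0)
    rw [hneg _ (min_le_right t 0)] at h1
    exact h1
  have hsmall : ∀ ε : ℝ, 0 < ε → ∃ c : ℝ, 0 < c ∧ ∀ t < c, G t ≤ ε := by
    intro ε hε
    obtain ⟨y1, hy1⟩ := hG ε hε
    obtain ⟨c, hc, h⟩ := G0x.Gy_small y1
    refine ⟨c, hc, fun t ht => ?_⟩
    have := hy1 y1 le_rfl t
    rw [h t ht, zero_sub, abs_neg] at this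
    exact (le_abs_self _).trans this
  have hlarge : Tendsto G atTop (𝓝 1) := by
    rw [Metric.tendsto_atTop]
    intro ε hε
    obtain ⟨y1, hy1⟩ := hG (ε / 2) (by linarith)
    obtain ⟨c, h⟩ := G0x.Gy_large y1
    refine ⟨c, fun t ht => ?_⟩
    have := hy1 y1 le_rfl t
    rw [h t ht, abs_sub_comm] at this
    rw [Real.dist_eq]
    linarith
  have hcont : Continuous G := by
    rw [continuous_iff_continuousAt]
    intro t0
    rw [Metric.continuousAt_iff]
    intro ε hε
    rcases le_or_gt t0 0 with ht0 | ht0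
    · obtain ⟨c, hc, h⟩ := hsmall (ε / 2) (by linarith)
      refine ⟨c - t0, by linarith, fun {t} ht => ?_⟩
      rw [Real.dist_eq] at ht ⊢
      rw [hneg t0 ht0, sub_zero, abs_of_nonneg (hnn t)]
      have h1 : t < c := by
        have := (abs_lt.1 ht).2
        linarith
      linarith [h t h1]
    · obtain ⟨y0, δ, hδ, hδ1, h⟩ := hA (ε / 2) (by linarith)
      set t1 : ℝ := t0 * (1 - δ / 4) with ht1
      have ht1p : 0 < t1 := mul_pos ht0 (by linarith)
      have h12 : t0 * (1 + δ / 2) ≤ t1 * (1 + δ) := by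
        rw [ht1]
        have : (1 + δ / 2) ≤ (1 - δ / 4) * (1 + δ) := by nlinarith
        calc t0 * (1 + δ / 2) ≤ t0 * ((1 - δ / 4) * (1 + δ)) := mul_le_mul_of_nonneg_left this ht0.le
          _ = _ := by ring
      have hkey : G (t1 * (1 + δ)) - G t1 ≤ ε / 2 := by
        refine hlim t1 (t1 * (1 + δ)) (ε / 2) y0 fun y hy => ?_
        rw [G0x.Gy_diff y (by nlinarith)]
        have hQ : (0 : ℝ) < Q y := by exact_mod_cast D0x.Q_pos y
        rw [div_le_iff₀ hQ]
        have h2 := h y hy 0 t1 ht1p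
        simp only [add_zero] at h2
        exact h2
      refine ⟨t0 * (δ / 4), by positivity, fun {t} ht => ?_⟩
      rw [Real.dist_eq] at ht ⊢
      rw [abs_lt] at ht
      have h3 : t1 ≤ t := by
        rw [ht1]
        nlinarith [ht.1]
      have h4 : t ≤ t1 * (1 + δ) := by nlinarith [ht.2]
      have h5 : t1 ≤ t0 := by
        rw [ht1]
        nlinarith
      have h6 : t0 ≤ t1 * (1 + δ) := by nlinarith
      have m1 := hmono h3
      have m2 := hmono h4
      have m3 := hmono h5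
      have m4 := hmono h6
      rw [abs_lt]
      constructor <;> linarith
  have hstrict : StrictMonoOn G (Set.Ici 0) := by
    intro t1 ht1 t2 _ h12
    have ht1' : 0 ≤ t1 := ht1
    obtain ⟨c, hc, y0, h⟩ := hF (ι := Unit) (fun _ => (0 : ℤ)) (fun _ _ _ => rfl) (fun _ => t1) (fun _ => t2)
      (fun _ => h12) (fun _ => lt_of_le_of_lt ht1' h12)
    have h1 : G t1 - G t2 ≤ -c := by
      refine hlim t2 t1 (-c) y0 fun y hy => ?_
      have h2 := G0x.Gy_diff y h12.le
      have h3 := h y hy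
      have h4 : Gb y (fun _ : Unit => (0 : ℤ)) (fun _ => t1) (fun _ => t2) =
          (#((range (Q y)).filter (fun d : ℕ => t1 < T d y ∧ T d y ≤ t2)) : ℝ) / Q y := by
        unfold Gb
        congr 3
        refine Finset.filter_congr fun d _ => ?_
        unfold InBox
        constructor
        · intro h5
          have := h5 ()
          rwa [add_zero] at this
        · intro h5 _
          rwa [add_zero]
      rw [h4] at h3
      linarith
    linarith
  refine ⟨G, hG, hcont, hneg, hstrict, hlarge, fun ρ' hρ' t => ?_⟩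
  have h1 : |G t - ρ' (fun _ => -1) (fun _ => t)| ≤ 0 := by
    refine le_of_forall_pos_le_add fun ε hε => ?_
    obtain ⟨y1, hy1⟩ := hG (ε / 2) (by linarith)
    obtain ⟨y2, hy2⟩ := hρ' (ε / 2) (by linarith)
    have e1 := hy1 (max y1 y2) (le_max_left _ _) t
    have e2 := hy2 (max y1 y2) (le_max_right _ _) (fun _ => -1) (fun _ => t)
    rw [← G0x.Gy_eq] at e2
    rw [abs_le] at e1 e2 ⊢
    constructor <;> linarith [e1.1, e1.2, e2.1, e2.2]
  have h2 := abs_nonpos_iff.1 h1
  linarith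

end Pool.Agent.N511.LL
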