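import Pool.Agent.N511.LL.Stm

/-!
# LL/H13: lower bounds of both tails (helper401)
-/

set_option autoImplicit false

namespace Pool.Agent.N511.LL.H13

open Finset Filter Topology Classical
open Pool.Agent.N511.LL

theorem mem_PP {y p : ℕ} : p ∈ PP y ↔ (3 ≤ p ∧ p ≤ y) ∧ p.Prime := by
  unfold PP
  rw [mem_filter, mem_Icc]

theorem jac_vals (d : ℤ) (p : ℕ) : jacobiSym d p = 0 ∨ jacobiSym d p = 1 ∨ jacobiSym d p = -1 :=
  jacobiSym.trichotomy d p

theorem loc_pos (d : ℤ) {p : ℕ} (hp : 3 ≤ p) : 0 < loc d p := by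
  unfold loc
  have hp' : (3 : ℝ) ≤ p := by exact_mod_cast hp
  have h0 : (0 : ℝ) < (p : ℝ) - 1 := by linarith
  have h1 : (jacobiSym d p : ℝ) ≤ 1 := by
    rcases jac_vals d p with h | h | h <;> rw [h] <;> norm_num
  have h2 : (jacobiSym d p : ℝ) / ((p : ℝ) - 1) < 1 := by
    rw [div_lt_one h0]; linarith
  linarith

theorem T_pos (d : ℤ) (y : ℕ) : 0 < T d y :=
  Finset.prod_pos fun _ hp => loc_pos d (mem_PP.1 hp).1.1

theorem Q_pos (y : ℕ) : 0 < Q y :=
  Finset.prod_pos fun _ hp => (mem_PP.1 hp).2.pos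

theorem loc_add (d : ℤ) {q p : ℕ} (h : p ∣ q) (j : ℕ) : loc (d + q * j) p = loc d p := by
  unfold loc
  have h1 : jacobiSym (d + q * j) p = jacobiSym d p := by
    apply jacobiSym.mod_left'
    obtain ⟨c, rfl⟩ := h
    push_cast
    rw [mul_assoc, Int.add_mul_emod_self_left]
  rw [h1]

/-- the primes up to `y` -/
theorem PP_split {y1 y : ℕ} (h1 : 2 ≤ y1) (h2 : y1 ≤ y) :
    PP y = PP y1 ∪ PR (Q y1) y1 y ∧ Disjoint (PP y1) (PR (Q y1) y1 y) := by
  constructor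
  · ext p
    rw [mem_union, mem_PP, mem_PP]
    unfold PR
    rw [mem_filter, mem_Ioc]
    constructor
    · rintro ⟨⟨h3, h4⟩, hp⟩
      by_cases h5 : p ≤ y1
      · exact Or.inl ⟨⟨h3, h5⟩, hp⟩
      · refine Or.inr ⟨⟨by omega, h4⟩, hp, fun hd => ?_⟩
        unfold Q at hd
        rw [hp.prime.dvd_finsetProd_iff] at hd
        obtain ⟨q, hq, hpq⟩ := hd
        rw [mem_PP] at hq
        have := Nat.le_of_dvd hq.2.pos hpq
        omega
    · rintro (⟨⟨h3, h4⟩, hp⟩ | ⟨⟨h3, h4⟩, hp, _⟩)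
      · exact ⟨⟨h3, h4.trans h2⟩, hp⟩
      · exact ⟨⟨by omega, h4⟩, hp⟩
  · rw [Finset.disjoint_left]
    intro p hp hp'
    rw [mem_PP] at hp
    unfold PR at hp'
    rw [mem_filter, mem_Ioc] at hp'
    omega

theorem T_split {y1 y : ℕ} (h1 : 2 ≤ y1) (h2 : y1 ≤ y) (d : ℤ) (j : ℕ) :
    T (d + Q y1 * j) y = T d y1 * ∏ p ∈ PR (Q y1) y1 y, loc (d + Q y1 * j) p := by
  obtain ⟨h3, h4⟩ := PP_split h1 h2
  unfold T
  rw [h3, Finset.prod_union h4]
  congr 1
  refine Finset.prod_congr rfl fun p hp => ?_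
  exact loc_add d (Finset.dvd_prod_of_mem _ hp) j

/-- the number of residues and nonresidues -/
theorem card_e {p : ℕ} (hp : p.Prime) (h3 : 3 ≤ p) {e : ℤ} (he : e = 1 ∨ e = -1) :
    ∑ r ∈ range p, (if jacobiSym (r : ℤ) p = e then (1 : ℝ) else 0) = ((p : ℝ) - 1) / 2 := by
  have : Fact p.Prime := ⟨hp⟩
  have hchar : ringChar (ZMod p) ≠ 2 := by
    rw [ZMod.ringChar_zmod_n]; omega
  have hbij : ∀ g : ZMod p → ℤ, ∑ r ∈ range p, g (r : ZMod p) = ∑ a : ZMod p, g a := by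
    intro g
    refine Finset.sum_nbij' (fun r => (r : ZMod p)) ZMod.val ?_ ?_ ?_ ?_ ?_
    · intro _ _; exact mem_univ _
    · intro a _; exact mem_range.2 (ZMod.val_lt a)
    · intro r hr; exact ZMod.val_cast_of_lt (mem_range.1 hr)
    · intro a _; exact ZMod.natCast_zmod_val a
    · intro _ _; rfl
  have hjac : ∀ r : ℕ, jacobiSym (r : ℤ) p = quadraticChar (ZMod p) (r : ZMod p) := by
    intro r
    rw [← jacobiSym.legendreSym.to_jacobiSym]
    unfold legendreSym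
    push_cast
    rfl
  have hs1 : ∑ r ∈ range p, jacobiSym (r : ℤ) p = 0 := by
    simp_rw [hjac]
    rw [hbij fun a => quadraticChar (ZMod p) a]
    exact quadraticChar_sum_zero hchar
  have hs2 : ∑ r ∈ range p, (jacobiSym (r : ℤ) p) ^ 2 = (p : ℤ) - 1 := by
    simp_rw [hjac]
    rw [hbij fun a => (quadraticChar (ZMod p) a) ^ 2]
    have h4 : ∀ a : ZMod p, (quadraticChar (ZMod p) a) ^ 2 = 1 - if a = 0 then 1 else 0 := by
      intro a
      by_cases ha : a = 0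
      · rw [if_pos ha, ha]; simp
      · rw [if_neg ha, quadraticChar_sq_one ha]; ring
    simp_rw [h4]
    rw [Finset.sum_sub_distrib]
    simp [ZMod.card]
  have h5 : ∀ r : ℕ, (if jacobiSym (r : ℤ) p = e then (1 : ℝ) else 0) =
      (((jacobiSym (r : ℤ) p) ^ 2 : ℤ) + e * (jacobiSym (r : ℤ) p : ℤ) : ℝ) / 2 := by
    intro r
    rcases he with rfl | rfl <;> rcases jac_vals (r : ℤ) p with h | h | h <;> rw [h] <;> norm_num
  simp_rw [h5]
  rw [← Finset.sum_div, Finset.sum_add_distrib, ← Finset.mul_sum, ← Int.cast_sum,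
    ← Int.cast_sum, hs1, hs2]
  push_cast
  ring

/-- the residues modulo `Q y` with all symbols equal to `e` -/
noncomputable def Se (e : ℤ) (y : ℕ) : Finset ℕ :=
  (range (Q y)).filter fun d => ∀ p ∈ PP y, jacobiSym (d : ℤ) p = e

theorem card_Se (hR : CR0) {e : ℤ} (he : e = 1 ∨ e = -1) (y : ℕ) :
    (Q y : ℝ) / 3 ^ y ≤ (Se e y).card := by
  have h1 := hR (PP y) (fun p hp => (mem_PP.1 hp).2) fun _ s => if s = e then (1 : ℝ) else 0
  have h2 : ((Se e y).card : ℝ) = ∑ d ∈ range (∏ p ∈ PP y, p), ∏ p ∈ PP y,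
      (if jacobiSym (d : ℤ) p = e then (1 : ℝ) else 0) := by
    unfold Se
    rw [Finset.card_filter]
    push_cast
    refine Finset.sum_congr rfl fun d _ => ?_
    by_cases h : ∀ p ∈ PP y, jacobiSym (d : ℤ) p = e
    · rw [if_pos h, Finset.prod_eq_one]
      intro p hp
      rw [if_pos (h p hp)]
    · rw [if_neg h]
      push Not at h
      obtain ⟨p, hp, hne⟩ := h
      rw [Finset.prod_eq_zero hp (by rw [if_neg hne])]
  rw [h2, h1]
  have h3 : ∏ p ∈ PP y, ((p : ℝ) / 3) ≤ ∏ p ∈ PP y,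
      ∑ r ∈ range p, (if jacobiSym (r : ℤ) p = e then (1 : ℝ) else 0) := by
    refine Finset.prod_le_prod (fun p _ => by positivity) fun p hp => ?_
    rw [mem_PP] at hp
    rw [card_e hp.2 hp.1.1 he]
    have : (3 : ℝ) ≤ p := by exact_mod_cast hp.1.1
    linarith
  refine le_trans ?_ h3
  rw [Finset.prod_div_distrib, Finset.prod_const]
  unfold Q
  push_cast
  have h4 : (0 : ℝ) ≤ ∏ p ∈ PP y, (p : ℝ) := Finset.prod_nonneg fun _ _ => Nat.cast_nonneg _
  refine div_le_div_of_nonneg_left h4 (by positivity) ?_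
  refine pow_le_pow_right₀ (by norm_num) ?_
  have h5 : PP y ⊆ Icc 1 y := by
    intro p hp
    rw [mem_PP] at hp
    rw [mem_Icc]
    omega
  have := Finset.card_le_card h5
  rwa [Nat.card_Icc, Nat.add_sub_cancel] at this

/-- counting in classes -/
theorem count_classes (q M : ℕ) (hq : 0 < q) (S : Finset ℕ) (hS : S ⊆ range q) (R : ℕ → Prop) :
    ∑ d ∈ S, ((range M).filter fun j => R (d + q * j)).card ≤
      ((range (q * M)).filter R).card := by
  have hdisj : (S : Set ℕ).PairwiseDisjoint fun d =>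
      ((range M).filter fun j => R (d + q * j)).image fun j => d + q * j := by
    intro d hd d' hd' hne
    rw [Function.onFun, Finset.disjoint_left]
    intro x hx hx'
    rw [mem_image] at hx hx'
    obtain ⟨j, _, rfl⟩ := hx
    obtain ⟨j', _, h⟩ := hx'
    apply hne
    have h1 := mem_range.1 (hS hd)
    have h2 := mem_range.1 (hS hd')
    have h3 := congrArg (· % q) h
    simp only [Nat.add_mul_mod_self_left, Nat.mod_eq_of_lt h1, Nat.mod_eq_of_lt h2] at h3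
    exact h3.symm
  calc ∑ d ∈ S, ((range M).filter fun j => R (d + q * j)).card
      = ∑ d ∈ S, (((range M).filter fun j => R (d + q * j)).image fun j => d + q * j).card := by
        refine Finset.sum_congr rfl fun d _ => ?_
        rw [Finset.card_image_of_injective]
        intro j j' h
        have : q * j = q * j' := by
          simp only at h
          omega
        exact Nat.eq_of_mul_eq_mul_left hq this
    _ = (S.biUnion fun d => ((range M).filter fun j => R (d + q * j)).image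
          fun j => d + q * j).card := (Finset.card_biUnion hdisj).symm
    _ ≤ _ := by
        refine Finset.card_le_card fun x hx => ?_
        rw [mem_biUnion] at hx
        obtain ⟨d, hd, hx⟩ := hx
        rw [mem_image] at hx
        obtain ⟨j, hj, rfl⟩ := hx
        rw [mem_filter, mem_range] at hj ⊢
        refine ⟨?_, hj.2⟩
        have h1 := mem_range.1 (hS hd)
        have h2 : q * (j + 1) ≤ q * M := Nat.mul_le_mul_left q hj.1
        rw [mul_add, mul_one] at h2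
        omega

/-- the product over the primes up to `y` for the constant symbol `e` -/
noncomputable def Pe (e : ℤ) (y : ℕ) : ℝ := ∏ p ∈ PP y, (1 - (e : ℝ) / ((p : ℝ) - 1))

theorem Pe_pos {e : ℤ} (he : e = 1 ∨ e = -1) (y : ℕ) : 0 < Pe e y := by
  refine Finset.prod_pos fun p hp => ?_
  have hp' : (3 : ℝ) ≤ p := by exact_mod_cast (mem_PP.1 hp).1.1
  have h0 : (0 : ℝ) < (p : ℝ) - 1 := by linarith
  have h1 : (e : ℝ) ≤ 1 := by rcases he with rfl | rfl <;> norm_num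
  have h2 : (e : ℝ) / ((p : ℝ) - 1) < 1 := by rw [div_lt_one h0]; linarith
  linarith

theorem main (hB : B2) (hR : CR0) {e : ℤ} (he : e = 1 ∨ e = -1) {η : ℝ} (hη : 0 < η)
    (hη1 : η ≤ 1 / 2) : ∃ Y : ℕ, 2 ≤ Y ∧ ∀ y1, Y ≤ y1 → ∀ y, y1 ≤ y →
      ((Q y * y ^ 3 : ℕ) : ℝ) * (1 / 2 / 3 ^ y1) ≤
        (((range (Q y * y ^ 3)).filter fun d : ℕ =>
          |T d y - Pe e y1| ≤ η * Pe e y1).card : ℝ) := by
  obtain ⟨Y, hY, hYB⟩ := hB η hη
  refine ⟨Y, hY, fun y1 hy1 y hy => ?_⟩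
  have hy12 : 2 ≤ y1 := hY.trans hy1
  have hQd : Q y1 ∣ Q y := by
    unfold Q
    obtain ⟨h3, h4⟩ := PP_split hy12 hy
    rw [h3, Finset.prod_union h4]
    exact Dvd.intro _ rfl
  obtain ⟨c, hc⟩ := hQd
  have hc0 : 0 < c := by
    have := Q_pos y
    rw [hc] at this
    rcases Nat.eq_zero_or_pos c with h1 | h1
    · rw [h1, mul_zero] at this
      exact absurd this (lt_irrefl _)
    · exact h1
  have hM : Q y * y ^ 3 = Q y1 * (c * y ^ 3) := by rw [hc]; ring
  rw [hM]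
  have h1 := count_classes (Q y1) (c * y ^ 3) (Q_pos y1) (Se e y1)
    (fun d hd => (mem_filter.1 hd).1) (fun d : ℕ => |T d y - Pe e y1| ≤ η * Pe e y1)
  have h2 : ∀ d ∈ Se e y1, ((c * y ^ 3 : ℕ) : ℝ) / 2 ≤ (((range (c * y ^ 3)).filter
      fun j => |T ((d + Q y1 * j : ℕ) : ℤ) y - Pe e y1| ≤ η * Pe e y1).card : ℝ) := by
    intro d hd
    unfold Se at hd
    rw [mem_filter] at hd
    have h3 := hYB y1 hy1 y hy (c * y ^ 3) (Nat.le_mul_of_pos_left _ hc0) (Q y1) (d : ℤ)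
      (Q_pos y1)
    have h4 : T (d : ℤ) y1 = Pe e y1 := by
      unfold T Pe
      refine Finset.prod_congr rfl fun p hp => ?_
      unfold loc
      rw [hd.2 p hp]
    have h5 : (range (c * y ^ 3)).filter (fun j : ℕ => ¬ (η < |∏ p ∈ PR (Q y1) y1 y,
        loc ((d : ℤ) + Q y1 * j) p - 1|)) ⊆ (range (c * y ^ 3)).filter
        (fun j => |T ((d + Q y1 * j : ℕ) : ℤ) y - Pe e y1| ≤ η * Pe e y1) := by
      intro j hj
      rw [mem_filter] at hj ⊢
      refine ⟨hj.1, ?_⟩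
      have h6 := not_lt.1 hj.2
      have h7 := T_split hy12 hy (d : ℤ) j
      push_cast
      rw [h7, h4]
      have h8 : Pe e y1 * ∏ p ∈ PR (Q y1) y1 y, loc ((d : ℤ) + Q y1 * j) p - Pe e y1 =
          Pe e y1 * (∏ p ∈ PR (Q y1) y1 y, loc ((d : ℤ) + Q y1 * j) p - 1) := by ring
      rw [h8, abs_mul, abs_of_pos (Pe_pos he y1), mul_comm]
      exact mul_le_mul_of_nonneg_right h6 (Pe_pos he y1).le
    have h6 := Finset.card_le_card h5
    have h7 := Finset.card_filter_add_card_filter_not (s := range (c * y ^ 3))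
      (fun j : ℕ => η < |∏ p ∈ PR (Q y1) y1 y, loc ((d : ℤ) + Q y1 * j) p - 1|)
    rw [Finset.card_range] at h7
    have h8 : (((range (c * y ^ 3)).filter (fun j : ℕ => ¬ (η < |∏ p ∈ PR (Q y1) y1 y,
        loc ((d : ℤ) + Q y1 * j) p - 1|))).card : ℝ) ≤ (((range (c * y ^ 3)).filter
        (fun j => |T ((d + Q y1 * j : ℕ) : ℤ) y - Pe e y1| ≤ η * Pe e y1)).card : ℝ) := by
      exact_mod_cast h6
    have h9 : (((range (c * y ^ 3)).filter (fun j : ℕ => η < |∏ p ∈ PR (Q y1) y1 y,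
        loc ((d : ℤ) + Q y1 * j) p - 1|)).card : ℝ) + (((range (c * y ^ 3)).filter
        (fun j : ℕ => ¬ (η < |∏ p ∈ PR (Q y1) y1 y,
        loc ((d : ℤ) + Q y1 * j) p - 1|))).card : ℝ) = ((c * y ^ 3 : ℕ) : ℝ) := by
      exact_mod_cast h7
    have h10 : η * ((c * y ^ 3 : ℕ) : ℝ) ≤ ((c * y ^ 3 : ℕ) : ℝ) / 2 := by
      have : (0 : ℝ) ≤ ((c * y ^ 3 : ℕ) : ℝ) := Nat.cast_nonneg _
      nlinarith
    linarith
  have h3 : ((Se e y1).card : ℝ) * (((c * y ^ 3 : ℕ) : ℝ) / 2) ≤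
      (((range (Q y1 * (c * y ^ 3))).filter fun d : ℕ =>
        |T d y - Pe e y1| ≤ η * Pe e y1).card : ℝ) := by
    calc ((Se e y1).card : ℝ) * (((c * y ^ 3 : ℕ) : ℝ) / 2)
        = ∑ d ∈ Se e y1, (((c * y ^ 3 : ℕ) : ℝ) / 2) := by
          rw [Finset.sum_const, nsmul_eq_mul]
      _ ≤ ∑ d ∈ Se e y1, (((range (c * y ^ 3)).filter
          fun j => |T ((d + Q y1 * j : ℕ) : ℤ) y - Pe e y1| ≤ η * Pe e y1).card : ℝ) :=
          Finset.sum_le_sum h2
      _ ≤ _ := by exact_mod_cast h1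
  refine le_trans ?_ h3
  have h4 := card_Se hR he y1
  have h5 : (0 : ℝ) ≤ ((c * y ^ 3 : ℕ) : ℝ) / 2 := by positivity
  calc ((Q y1 * (c * y ^ 3) : ℕ) : ℝ) * (1 / 2 / 3 ^ y1)
      = (Q y1 : ℝ) / 3 ^ y1 * (((c * y ^ 3 : ℕ) : ℝ) / 2) := by push_cast; ring
    _ ≤ _ := mul_le_mul_of_nonneg_right h4 h5

/-- counting up to a multiple of the period -/
theorem cnt (hC : C0) (y : ℕ) (u : ℝ) :
    (((range (Q y * y ^ 3)).filter (fun d : ℕ => T d y ≤ u)).card : ℝ) =
      ((Q y * y ^ 3 : ℕ) : ℝ) * Gy y u := by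
  have h1 := (hC (ι := Unit) y (fun _ => 0) (fun _ => -1) (fun _ => u) 1 (Q y * y ^ 3) 0
    (Nat.coprime_one_left _)).2 (Dvd.intro _ rfl)
  have hbox : ∀ d : ℤ, InBox y (fun _ : Unit => (0 : ℤ)) (fun _ => (-1 : ℝ)) (fun _ => u) d ↔
      T d y ≤ u := by
    intro d
    unfold InBox
    constructor
    · intro h
      have := (h ()).2
      rwa [add_zero] at this
    · intro h _
      rw [add_zero]
      exact ⟨by linarith [T_pos d y], h⟩
  have h2 : Gb y (fun _ : Unit => (0 : ℤ)) (fun _ => (-1 : ℝ)) (fun _ => u) = Gy y u := by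
    unfold Gb Gy
    simp_rw [hbox]
  rw [h2] at h1
  rw [← h1]
  congr 2
  refine Finset.filter_congr fun i _ => ?_
  rw [hbox]
  have : ((0 : ℤ) + ((1 : ℕ) : ℤ) * (i : ℤ)) = (i : ℤ) := by push_cast; ring
  rw [this]

theorem Y1_tendsto {a : ℝ} (ha : 0 < a) :
    Tendsto (fun t : ℝ => ⌊Real.exp (a * t)⌋₊) atTop atTop :=
  tendsto_nat_floor_atTop.comp (Real.tendsto_exp_atTop.comp (tendsto_id.const_mul_atTop ha))

theorem Y1_log {a : ℝ} (ha : 0 < a) :
    Tendsto (fun t : ℝ => Real.log (⌊Real.exp (a * t)⌋₊ : ℝ) / t) atTop (𝓝 a) := by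
  have h0 : Tendsto (fun t : ℝ => a - Real.log 2 / t) atTop (𝓝 a) := by
    have := (tendsto_const_nhds (x := a) (f := (atTop : Filter ℝ))).sub
      (tendsto_const_nhds (x := Real.log 2) |>.div_atTop tendsto_id)
    simpa using this
  refine tendsto_of_tendsto_of_tendsto_of_le_of_le' h0 tendsto_const_nhds ?_ ?_
  · filter_upwards [eventually_gt_atTop 0] with t ht
    have h1 : 1 ≤ Real.exp (a * t) := Real.one_le_exp (by positivity)
    have h2 : (1 : ℝ) ≤ (⌊Real.exp (a * t)⌋₊ : ℝ) := by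
      exact_mod_cast Nat.one_le_floor_iff _ |>.2 h1
    have h3 := Nat.lt_floor_add_one (Real.exp (a * t))
    have h4 : Real.exp (a * t) ≤ 2 * (⌊Real.exp (a * t)⌋₊ : ℝ) := by linarith
    have h5 := Real.log_le_log (Real.exp_pos _) h4
    rw [Real.log_exp, Real.log_mul two_ne_zero (by linarith)] at h5
    rw [le_div_iff₀ ht, sub_mul, div_mul_cancel₀ _ ht.ne']
    linarith
  · filter_upwards [eventually_gt_atTop 0] with t ht
    have h1 : 1 ≤ Real.exp (a * t) := Real.one_le_exp (by positivity)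
    have h2 : (1 : ℝ) ≤ (⌊Real.exp (a * t)⌋₊ : ℝ) := by
      exact_mod_cast Nat.one_le_floor_iff _ |>.2 h1
    have h3 := Nat.floor_le (Real.exp_pos (a * t)).le
    have h5 := Real.log_le_log (by linarith) h3
    rw [Real.log_exp] at h5
    rw [div_le_iff₀ ht]
    exact h5

/-- the size of the proportion -/
theorem size {c δ t : ℝ} (hc : 0 < c) (hδ : 0 < δ) (ht : 4 / δ ≤ t) :
    Real.exp (-Real.exp ((c + δ) * t)) ≤ 1 / 2 / 3 ^ ⌊Real.exp ((c + δ / 2) * t)⌋₊ := by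
  have ht0 : 0 < t := lt_of_lt_of_le (by positivity) ht
  have h1 := Nat.floor_le (Real.exp_pos ((c + δ / 2) * t)).le
  set n := ⌊Real.exp ((c + δ / 2) * t)⌋₊ with hn
  have h2 : Real.exp ((c + δ) * t) = Real.exp ((c + δ / 2) * t) * Real.exp (δ * t / 2) := by
    rw [← Real.exp_add]
    congr 1
    ring
  have h3 : (3 : ℝ) ≤ Real.exp (δ * t / 2) := by
    rw [div_le_iff₀ hδ] at ht
    have := Real.add_one_le_exp (δ * t / 2)
    linarith
  have h4 : 1 ≤ Real.exp ((c + δ / 2) * t) := Real.one_le_exp (by positivity)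
  have h5 : 3 * Real.exp ((c + δ / 2) * t) ≤ Real.exp ((c + δ) * t) := by
    rw [h2]
    nlinarith [Real.exp_pos ((c + δ / 2) * t)]
  have h6 : (1 : ℝ) / 2 / 3 ^ n = Real.exp (-(Real.log 2 + n * Real.log 3)) := by
    rw [Real.exp_neg, Real.exp_add, Real.exp_log two_pos, Real.exp_nat_mul,
      Real.exp_log (by norm_num)]
    field_simp
  rw [h6]
  apply Real.exp_le_exp.2
  have h7 : Real.log 2 ≤ 1 := by
    have := Real.log_two_lt_d9
    linarith
  have h8 : Real.log 3 ≤ 2 := by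
    have := Real.log_le_sub_one_of_pos (show (0 : ℝ) < 3 by norm_num)
    linarith
  have h9 : (n : ℝ) * Real.log 3 ≤ Real.exp ((c + δ / 2) * t) * 2 := by
    have : 0 ≤ Real.log 3 := Real.log_nonneg (by norm_num)
    nlinarith [Real.exp_pos ((c + δ / 2) * t)]
  linarith

theorem h1 (hB : B2) (hC : C0) (hM : M0) (hR : CR0) : H1 := by
  intro δ hδ
  have heg : 0 < eg := Real.exp_pos _
  obtain ⟨c, hc⟩ : ∃ c : ℝ, c = 2 / eg := ⟨_, rfl⟩
  have hc0 : 0 < c := by rw [hc]; positivity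
  rw [← hc]
  obtain ⟨a, ha⟩ : ∃ a : ℝ, a = c + δ / 2 := ⟨_, rfl⟩
  have ha0 : 0 < a := by rw [ha]; positivity
  obtain ⟨r, hr⟩ : ∃ r : ℝ, r = a / c := ⟨_, rfl⟩
  have hr1 : 1 < r := by
    rw [hr, one_lt_div hc0, ha]; linarith
  obtain ⟨η, hη⟩ : ∃ η : ℝ, η = min (1 / 2) ((r - 1) / (2 * r)) := ⟨_, rfl⟩
  have hr0 : 0 < r := by linarith
  have hη0 : 0 < η := by
    rw [hη]
    exact lt_min (by norm_num) (div_pos (by linarith) (by linarith))
  have hη1 : η ≤ 1 / 2 := by rw [hη]; exact min_le_left _ _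
  have hη2 : r * η ≤ (r - 1) / 2 := by
    have h : η ≤ (r - 1) / (2 * r) := by rw [hη]; exact min_le_right _ _
    rw [le_div_iff₀ (by linarith)] at h
    linarith
  obtain ⟨Y, hY, hYm⟩ := main hB hR (e := -1) (Or.inr rfl) hη0 hη1
  have hlim : Tendsto (fun t : ℝ => Pe (-1) ⌊Real.exp (a * t)⌋₊ / t * (1 - η)) atTop
      (𝓝 (r * (1 - η))) := by
    have h2 : Tendsto (fun y : ℕ => Pe (-1) y / Real.log y) atTop (𝓝 (eg / 2)) := by
      refine hM.1.congr fun y => ?_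
      congr 1
      unfold Pe
      refine Finset.prod_congr rfl fun p _ => ?_
      push_cast
      ring
    have h3 := (h2.comp (Y1_tendsto ha0)).mul (Y1_log ha0)
    have h4 : eg / 2 * a = r := by
      rw [hr, hc]; field_simp
    rw [h4] at h3
    refine (h3.mul_const (1 - η)).congr' ?_
    filter_upwards [(Y1_tendsto ha0).eventually_ge_atTop 2, eventually_gt_atTop 0] with t ht1 ht2
    have h5 : 0 < Real.log (⌊Real.exp (a * t)⌋₊ : ℝ) :=
      Real.log_pos (by exact_mod_cast (by omega : 1 < ⌊Real.exp (a * t)⌋₊))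
    simp only [Function.comp]
    field_simp
  have hgt : 1 < r * (1 - η) := by linarith
  obtain ⟨t0, ht0⟩ := eventually_atTop.1 ((hlim.eventually_const_lt hgt).and
    (((Y1_tendsto ha0).eventually_ge_atTop Y).and
      ((eventually_ge_atTop (4 / δ)).and (eventually_gt_atTop 0))))
  refine ⟨t0, fun t ht => ?_⟩
  obtain ⟨e1, e2, e3, e4⟩ := ht0 t ht
  refine ⟨⌊Real.exp (a * t)⌋₊, fun y hy => ?_⟩
  have h2 := hYm _ e2 y hy
  have h3 := cnt hC y t
  have hy2 : 2 ≤ y := hY.trans (e2.trans hy)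
  have hMpos : (0 : ℝ) < ((Q y * y ^ 3 : ℕ) : ℝ) := by
    have := Q_pos y
    exact_mod_cast Nat.mul_pos this (by positivity)
  have h4 : (((range (Q y * y ^ 3)).filter fun d : ℕ => |T d y - Pe (-1) ⌊Real.exp (a * t)⌋₊| ≤
      η * Pe (-1) ⌊Real.exp (a * t)⌋₊).card : ℝ) ≤
      (((range (Q y * y ^ 3)).filter (fun d : ℕ => ¬ T d y ≤ t)).card : ℝ) := by
    have h5 : ((range (Q y * y ^ 3)).filter fun d : ℕ =>
        |T d y - Pe (-1) ⌊Real.exp (a * t)⌋₊| ≤ η * Pe (-1) ⌊Real.exp (a * t)⌋₊) ⊆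
        (range (Q y * y ^ 3)).filter (fun d : ℕ => ¬ T d y ≤ t) := by
      intro d hd
      rw [mem_filter] at hd ⊢
      refine ⟨hd.1, fun h6 => ?_⟩
      have h7 := (abs_le.1 hd.2).1
      rw [div_mul_eq_mul_div, lt_div_iff₀ e4] at e1
      linarith
    exact_mod_cast Finset.card_le_card h5
  have h5 := Finset.card_filter_add_card_filter_not (s := range (Q y * y ^ 3))
    (fun d : ℕ => T d y ≤ t)
  rw [Finset.card_range] at h5
  have h6 : (((range (Q y * y ^ 3)).filter (fun d : ℕ => T d y ≤ t)).card : ℝ) +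
      (((range (Q y * y ^ 3)).filter (fun d : ℕ => ¬ T d y ≤ t)).card : ℝ) =
      ((Q y * y ^ 3 : ℕ) : ℝ) := by exact_mod_cast h5
  have h7 : ((Q y * y ^ 3 : ℕ) : ℝ) * (1 / 2 / 3 ^ ⌊Real.exp (a * t)⌋₊) ≤
      ((Q y * y ^ 3 : ℕ) : ℝ) * (1 - Gy y t) := by
    rw [mul_sub, mul_one, ← h3]
    linarith
  have h8 := le_of_mul_le_mul_left h7 hMpos
  have h9 := size hc0 hδ e3
  rw [← ha] at h9
  exact h9.trans h8

theorem h3 (hB : B2) (hC : C0) (hR : CR0) : H3 := by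
  intro C2 hC2 hV δ hδ
  have heg : 0 < eg := Real.exp_pos _
  obtain ⟨c, hc⟩ : ∃ c : ℝ, c = 2 * C2 / eg := ⟨_, rfl⟩
  have hc0 : 0 < c := by rw [hc]; positivity
  rw [← hc] at hV ⊢
  obtain ⟨a, ha⟩ : ∃ a : ℝ, a = c + δ / 2 := ⟨_, rfl⟩
  have ha0 : 0 < a := by rw [ha]; positivity
  obtain ⟨r, hr⟩ : ∃ r : ℝ, r = c / a := ⟨_, rfl⟩
  have hr1 : r < 1 := by
    rw [hr, div_lt_one ha0, ha]; linarith
  have hr0 : 0 < r := by rw [hr]; positivity
  obtain ⟨η, hη⟩ : ∃ η : ℝ, η = min (1 / 2) ((1 - r) / (2 * r)) := ⟨_, rfl⟩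
  have hη0 : 0 < η := by
    rw [hη]
    exact lt_min (by norm_num) (div_pos (by linarith) (by linarith))
  have hη1 : η ≤ 1 / 2 := by rw [hη]; exact min_le_left _ _
  have hη2 : r * η ≤ (1 - r) / 2 := by
    have h : η ≤ (1 - r) / (2 * r) := by rw [hη]; exact min_le_right _ _
    rw [le_div_iff₀ (by linarith)] at h
    linarith
  obtain ⟨Y, hY, hYm⟩ := main hB hR (e := 1) (Or.inl rfl) hη0 hη1
  have hlim : Tendsto (fun t : ℝ => t * Pe 1 ⌊Real.exp (a * t)⌋₊ * (1 + η)) atTop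
      (𝓝 (r * (1 + η))) := by
    have h2 : Tendsto (fun y : ℕ => Real.log y * Pe 1 y) atTop (𝓝 c) := by
      refine hV.congr fun y => ?_
      congr 1
      unfold Pe
      refine Finset.prod_congr rfl fun p _ => ?_
      push_cast
      ring
    have h3 := (h2.comp (Y1_tendsto ha0)).div (Y1_log ha0) ha0.ne'
    rw [← hr] at h3
    refine (h3.mul_const (1 + η)).congr' ?_
    filter_upwards [(Y1_tendsto ha0).eventually_ge_atTop 2, eventually_gt_atTop 0] with t ht1 ht2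
    have h5 : 0 < Real.log (⌊Real.exp (a * t)⌋₊ : ℝ) :=
      Real.log_pos (by exact_mod_cast (by omega : 1 < ⌊Real.exp (a * t)⌋₊))
    simp only [Function.comp, Pi.div_apply]
    field_simp
  have hlt : r * (1 + η) < 1 := by linarith
  obtain ⟨t0, ht0⟩ := eventually_atTop.1 ((hlim.eventually_lt_const hlt).and
    (((Y1_tendsto ha0).eventually_ge_atTop Y).and
      ((eventually_ge_atTop (4 / δ)).and (eventually_gt_atTop 0))))
  refine ⟨t0, fun t ht => ?_⟩
  obtain ⟨e1, e2, e3, e4⟩ := ht0 t ht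
  refine ⟨⌊Real.exp (a * t)⌋₊, fun y hy => ?_⟩
  have h2 := hYm _ e2 y hy
  have h3 := cnt hC y (1 / t)
  have hy2 : 2 ≤ y := hY.trans (e2.trans hy)
  have hMpos : (0 : ℝ) < ((Q y * y ^ 3 : ℕ) : ℝ) := by
    have := Q_pos y
    exact_mod_cast Nat.mul_pos this (by positivity)
  have h4 : (((range (Q y * y ^ 3)).filter fun d : ℕ => |T d y - Pe 1 ⌊Real.exp (a * t)⌋₊| ≤
      η * Pe 1 ⌊Real.exp (a * t)⌋₊).card : ℝ) ≤
      (((range (Q y * y ^ 3)).filter (fun d : ℕ => T d y ≤ 1 / t)).card : ℝ) := by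
    have h5 : ((range (Q y * y ^ 3)).filter fun d : ℕ =>
        |T d y - Pe 1 ⌊Real.exp (a * t)⌋₊| ≤ η * Pe 1 ⌊Real.exp (a * t)⌋₊) ⊆
        (range (Q y * y ^ 3)).filter (fun d : ℕ => T d y ≤ 1 / t) := by
      intro d hd
      rw [mem_filter] at hd ⊢
      refine ⟨hd.1, ?_⟩
      have h7 := (abs_le.1 hd.2).2
      rw [le_div_iff₀ e4]
      nlinarith
    exact_mod_cast Finset.card_le_card h5
  have h7 : ((Q y * y ^ 3 : ℕ) : ℝ) * (1 / 2 / 3 ^ ⌊Real.exp (a * t)⌋₊) ≤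
      ((Q y * y ^ 3 : ℕ) : ℝ) * Gy y (1 / t) := by
    rw [← h3]
    linarith
  have h8 := le_of_mul_le_mul_left h7 hMpos
  have h9 := size hc0 hδ e3
  rw [← ha] at h9
  exact h9.trans h8

end Pool.Agent.N511.LL.H13
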