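import Mathlib

/-!
# Limit laws for the prime counts of `n² + a` and `x² + x + A` in thin families: statements

Project LL of helper511. `T d y` is the truncated singular series, `Gb` the proportion of the
residue classes for which it lies in a box.
-/

set_option autoImplicit false

namespace Pool.Agent.N511.LL

open Finset Filter Topology
open Classical in
section

/-- the odd primes `p ≤ y` -/
def PP (y : ℕ) : Finset ℕ := (Icc 3 y).filter Nat.Prime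

/-- the local factor `1 - (d | p) / (p - 1)` -/
noncomputable def loc (d : ℤ) (p : ℕ) : ℝ := 1 - (jacobiSym d p : ℝ) / ((p : ℝ) - 1)

/-- `T d y = ∏_{3 ≤ p ≤ y} (1 - (d | p) / (p - 1))` -/
noncomputable def T (d : ℤ) (y : ℕ) : ℝ := ∏ p ∈ PP y, loc d p

/-- `Q y = ∏_{3 ≤ p ≤ y} p` -/
def Q (y : ℕ) : ℕ := ∏ p ∈ PP y, p

/-- `T (d + s j) y` lies in `(α j, β j]` for all `j` -/
def InBox {ι : Type} (y : ℕ) (s : ι → ℤ) (α β : ι → ℝ) (d : ℤ) : Prop :=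
  ∀ j, α j < T (d + s j) y ∧ T (d + s j) y ≤ β j

/-- the proportion of the residue classes `d` modulo `Q y` such that `T (d + s j) y` is in
`(α j, β j]` for all `j` -/
noncomputable def Gb {ι : Type} (y : ℕ) (s : ι → ℤ) (α β : ι → ℝ) : ℝ :=
  (#((range (Q y)).filter (fun d : ℕ => InBox y s α β d)) : ℝ) / Q y

/-- the primes `y < p ≤ z` not dividing `κ` (all odd if `2 ≤ y`) -/
def PR (κ y z : ℕ) : Finset ℕ := (Ioc y z).filter (fun p => p.Prime ∧ ¬ p ∣ κ)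

/-- A0 (anti-concentration) -/
def A0 : Prop := ∀ ε : ℝ, 0 < ε → ∃ y0 : ℕ, ∃ δ : ℝ, 0 < δ ∧ δ ≤ 1 ∧ ∀ y : ℕ, y0 ≤ y → ∀ s : ℤ, ∀ t : ℝ, 0 < t →
    (#((range (Q y)).filter (fun d : ℕ => t < T (d + s) y ∧ T (d + s) y ≤ t * (1 + δ))) : ℝ) ≤ ε * Q y

/-- B1 (second moment) -/
def B1 : Prop := ∀ (y z M κ : ℕ) (b : ℤ), 2 ≤ y → 1 ≤ κ →
    ∑ i ∈ range M, (∑ p ∈ PR κ y z, (jacobiSym (b + κ * i) p : ℝ) / p) ^ 2 ≤ (M : ℝ) / y + (z : ℝ) ^ 2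

/-- B2 (the tail of the product is near `1` for almost all members of a progression) -/
def B2 : Prop := ∀ η : ℝ, 0 < η → ∃ y0 : ℕ, 2 ≤ y0 ∧ ∀ y : ℕ, y0 ≤ y → ∀ z : ℕ, y ≤ z → ∀ M : ℕ, z ^ 3 ≤ M →
    ∀ (κ : ℕ) (b : ℤ), 1 ≤ κ →
    (#((range M).filter (fun i : ℕ => η < |∏ p ∈ PR κ y z, loc (b + κ * i) p - 1|)) : ℝ) ≤ η * M

/-- C0 (periodicity) -/
def C0 : Prop := ∀ {ι : Type} (y : ℕ) (s : ι → ℤ) (α β : ι → ℝ) (κ M : ℕ) (b : ℤ), Nat.Coprime κ (Q y) →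
    |(#((range M).filter (fun i : ℕ => InBox y s α β (b + κ * i))) : ℝ) - M * Gb y s α β| ≤ Q y ∧
    (Q y ∣ M → (#((range M).filter (fun i : ℕ => InBox y s α β (b + κ * i))) : ℝ) = M * Gb y s α β)

/-- `ρ` is the limit of `Gb y s`, uniformly -/
def IsLaw {ι : Type} (s : ι → ℤ) (ρ : (ι → ℝ) → (ι → ℝ) → ℝ) : Prop :=
  ∀ ε : ℝ, 0 < ε → ∃ y0 : ℕ, ∀ y : ℕ, y0 ≤ y → ∀ α β : ι → ℝ, |Gb y s α β - ρ α β| ≤ ε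

/-- D0 (existence of the limit law) -/
def D0 : Prop := ∀ {ι : Type} [Fintype ι] (s : ι → ℤ), ∃ ρ, IsLaw s ρ

/-- E0 (transfer to quantities `X`, `Y` near the truncated products) -/
def E0 : Prop := ∀ {ι : Type} [Fintype ι] (s : ι → ℤ) (ρ : (ι → ℝ) → (ι → ℝ) → ℝ), IsLaw s ρ →
    ∀ ε : ℝ, 0 < ε → ∃ η : ℝ, 0 < η ∧ ∃ y0 : ℕ, ∀ y : ℕ, y0 ≤ y → ∃ M0 : ℕ, ∀ M : ℕ, M0 ≤ M →
    ∀ (κ : ℕ) (b : ℤ) (X Y : ι → ℕ → ℝ), Nat.Coprime κ (Q y) →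
    (∀ j, (#((range M).filter (fun i : ℕ => η * T (b + κ * i + s j) y < |X j i - T (b + κ * i + s j) y| ∨
      η * T (b + κ * i + s j) y < |Y j i - T (b + κ * i + s j) y|)) : ℝ) ≤ η * M) →
    ∀ α β : ι → ℝ,
      |(#((range M).filter (fun i : ℕ => ∀ j, α j < X j i ∧ Y j i ≤ β j)) : ℝ) - M * ρ α β| ≤ ε * M

/-- F1 (patterns of quadratic symbols) -/
def F1 : Prop := ∀ {ι : Type} [Fintype ι] (s : ι → ℤ), Function.Injective s → ∃ p0 : ℕ, ∀ p : ℕ, p0 ≤ p → p.Prime →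
    ∀ e : ι → ℤ, (∀ j, e j = 1 ∨ e j = -1) → ∃ d : ℤ, ∀ j, jacobiSym (d + s j) p = e j

/-- F2 (greedy choice of the signs) -/
def F2 : Prop := ∀ {ι : Type} [Fintype ι] (η : ℝ), 0 < η → ∃ y0 : ℕ, 2 ≤ y0 ∧ ∀ y : ℕ, y0 ≤ y → ∀ τ : ι → ℝ, (∀ j, 0 < τ j) →
    ∃ z : ℕ, y ≤ z ∧ ∃ e : ι → ℕ → ℤ, (∀ j p, e j p = 1 ∨ e j p = -1) ∧
      ∀ j, |∏ p ∈ PR 1 y z, (1 - (e j p : ℝ) / ((p : ℝ) - 1)) - τ j| ≤ η * τ j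

/-- F0 (full support) -/
def F0 : Prop := ∀ {ι : Type} [Fintype ι] (s : ι → ℤ), Function.Injective s → ∀ α β : ι → ℝ,
    (∀ j, α j < β j) → (∀ j, 0 < β j) → ∃ c : ℝ, 0 < c ∧ ∃ y0 : ℕ, ∀ y : ℕ, y0 ≤ y → c ≤ Gb y s α β

/-- the distribution function of the truncated product -/
noncomputable def Gy (y : ℕ) (t : ℝ) : ℝ := (#((range (Q y)).filter (fun d : ℕ => T d y ≤ t)) : ℝ) / Q y

/-- `G` is the uniform limit of `Gy` -/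
def IsG (G : ℝ → ℝ) : Prop := ∀ ε : ℝ, 0 < ε → ∃ y0 : ℕ, ∀ y : ℕ, y0 ≤ y → ∀ t : ℝ, |Gy y t - G t| ≤ ε

/-- G0 (the limit distribution function) -/
def G0 : Prop := ∃ G : ℝ → ℝ, IsG G ∧ Continuous G ∧ (∀ t ≤ 0, G t = 0) ∧ StrictMonoOn G (Set.Ici 0) ∧
    Tendsto G atTop (𝓝 1) ∧ (∀ ρ, IsLaw (fun _ : Unit => (0 : ℤ)) ρ → ∀ t, G t = ρ (fun _ => -1) (fun _ => t))

/-- the constant `e^γ`, for Mertens' theorem -/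
noncomputable def eg : ℝ := Real.exp Real.eulerMascheroniConstant

/-- M0 (Mertens' theorem in the two forms needed) -/
def M0 : Prop := Tendsto (fun y : ℕ => (∏ p ∈ PP y, (1 + 1 / ((p : ℝ) - 1))) / Real.log y) atTop (𝓝 (eg / 2)) ∧
    ∃ C2 : ℝ, 0 < C2 ∧ Tendsto (fun y : ℕ => ∏ p ∈ PP y, (1 - 1 / ((p : ℝ) - 1) ^ 2)) atTop (𝓝 C2) ∧
      Tendsto (fun y : ℕ => Real.log y * ∏ p ∈ PP y, (1 - 1 / ((p : ℝ) - 1))) atTop (𝓝 (2 * C2 / eg))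

/-- CR0 (Chinese remainder theorem) -/
def CR0 : Prop := ∀ (S : Finset ℕ), (∀ p ∈ S, p.Prime) → ∀ f : ℕ → ℤ → ℝ,
    ∑ d ∈ range (∏ p ∈ S, p), ∏ p ∈ S, f p (jacobiSym (d : ℤ) p) = ∏ p ∈ S, ∑ r ∈ range p, f p (jacobiSym (r : ℤ) p)

/-- H1: lower bound of the upper tail -/
def H1 : Prop := ∀ δ : ℝ, 0 < δ → ∃ t0 : ℝ, ∀ t : ℝ, t0 ≤ t → ∃ y0 : ℕ, ∀ y : ℕ, y0 ≤ y →
    Real.exp (-Real.exp ((2 / eg + δ) * t)) ≤ 1 - Gy y t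

/-- H2: upper bound of the upper tail -/
def H2 : Prop := ∀ δ : ℝ, 0 < δ → ∃ t0 : ℝ, ∀ t : ℝ, t0 ≤ t → ∀ y : ℕ,
    1 - Gy y t ≤ Real.exp (-Real.exp ((2 / eg - δ) * t))

/-- H3: lower bound of the lower tail -/
def H3 : Prop := ∀ C2 : ℝ, 0 < C2 →
    Tendsto (fun y : ℕ => Real.log y * ∏ p ∈ PP y, (1 - 1 / ((p : ℝ) - 1))) atTop (𝓝 (2 * C2 / eg)) →
    ∀ δ : ℝ, 0 < δ → ∃ t0 : ℝ, ∀ t : ℝ, t0 ≤ t → ∃ y0 : ℕ, ∀ y : ℕ, y0 ≤ y →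
    Real.exp (-Real.exp ((2 * C2 / eg + δ) * t)) ≤ Gy y (1 / t)

/-- H4: upper bound of the lower tail -/
def H4 : Prop := ∀ C2 : ℝ, 0 < C2 →
    Tendsto (fun y : ℕ => Real.log y * ∏ p ∈ PP y, (1 - 1 / ((p : ℝ) - 1))) atTop (𝓝 (2 * C2 / eg)) →
    ∀ δ : ℝ, 0 < δ → ∃ t0 : ℝ, ∀ t : ℝ, t0 ≤ t → ∀ y : ℕ,
    Gy y (1 / t) ≤ Real.exp (-Real.exp ((2 * C2 / eg - δ) * t))

/-- I0 (the prime counts in terms of the truncated products), for `m² + c` (`b = 0`) and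
`m² + m + c`, `c` odd (`b = 1`) -/
def I0 : Prop := ∀ b : ℕ, (b = 0 ∨ b = 1) → ∀ ε0 η : ℝ, 0 < ε0 → 0 < η → ∃ y0 : ℕ, ∀ y : ℕ, y0 ≤ y → ∃ x0 : ℕ,
    ∀ x : ℕ, x0 ≤ x → ∀ C : ℕ, (x : ℝ) ^ (5 / 6 + ε0) ≤ C → C ≤ x →
    ∃ Ex ⊆ Icc 1 C, (#Ex : ℝ) ≤ η * C ∧ ∀ c ∈ Icc 1 C, c ∉ Ex → (b = 1 → Odd c) → 
      (∃ h : ℝ, Tendsto (fun z => T ((b : ℤ) ^ 2 - 4 * c) z) atTop (𝓝 h) ∧
        |h - T ((b : ℤ) ^ 2 - 4 * c) y| ≤ η * T ((b : ℤ) ^ 2 - 4 * c) y) ∧ ∀ v : ℕ, v ≤ x →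
      |(#((Icc 1 v).filter (fun m : ℕ => (m ^ 2 + b * m + c).Prime)) : ℝ) -
        (1 + b) * T ((b : ℤ) ^ 2 - 4 * c) y * (v / (2 * Real.log x))| ≤
          η * (T ((b : ℤ) ^ 2 - 4 * c) y * (x / Real.log x))

/-- `P_a(N)`: the number of `1 ≤ n ≤ N` with `n² + a` prime -/
def P (a N : ℕ) : ℕ := #((Icc 1 N).filter (fun n : ℕ => (n ^ 2 + a).Prime))

/-- the product of `h_a` over the odd primes up to `X` -/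
noncomputable def hprod (a X : ℕ) : ℝ :=
  ∏ p ∈ (Icc 3 X).filter Nat.Prime, (1 - (jacobiSym (-(a : ℤ)) p : ℝ) / ((p : ℝ) - 1))

/-- J: the limit law for the primes `n² + a` -/
def J0 : Prop := ∃ (G : ℝ → ℝ) (C2 : ℝ), Continuous G ∧ (∀ t ≤ 0, G t = 0) ∧ StrictMonoOn G (Set.Ici 0) ∧
    Tendsto G atTop (𝓝 1) ∧
    Tendsto (fun y : ℕ => ∏ p ∈ (Icc 3 y).filter Nat.Prime, (1 - 1 / ((p : ℝ) - 1) ^ 2)) atTop (𝓝 C2) ∧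
    Tendsto (fun t : ℝ => Real.log (-Real.log (1 - G t)) / t) atTop
      (𝓝 (2 * Real.exp (-Real.eulerMascheroniConstant))) ∧
    Tendsto (fun t : ℝ => Real.log (-Real.log (G (1 / t))) / t) atTop
      (𝓝 (2 * C2 * Real.exp (-Real.eulerMascheroniConstant))) ∧
    (∀ t : ℝ, Tendsto (fun X : ℕ => (#((Icc 1 X).filter (fun a : ℕ =>
      ∃ h : ℝ, Tendsto (hprod a) atTop (𝓝 h) ∧ h ≤ t)) : ℝ) / X) atTop (𝓝 (G t))) ∧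
    ∀ ε η : ℝ, 0 < ε → 0 < η → ∃ N0 : ℕ, ∀ N : ℕ, N0 ≤ N → ∀ A : ℕ, (N : ℝ) ^ (5 / 6 + ε) ≤ A → A ≤ N → ∀ t : ℝ,
      |(#((Icc 1 A).filter (fun a : ℕ => (P a N : ℝ) ≤ t * (1 / 2 * ∫ u in (2 : ℝ)..N, 1 / Real.log u))) : ℝ) / A - G t|
        ≤ η

/-- `P_A(n)`: the number of `0 ≤ x ≤ n` with `x² + x + A` prime -/
def PA (A n : ℕ) : ℕ := #((range (n + 1)).filter (fun x : ℕ => (x ^ 2 + x + A).Prime))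

/-- `L_A(n)` -/
noncomputable def LA (A n : ℕ) : ℝ := 2 * ∫ x in (0 : ℝ)..n, 1 / Real.log (x ^ 2 + x + A)

/-- the partial products of `C(Δ)`, `Δ = 1 - 4 A` -/
noncomputable def CA (A y : ℕ) : ℝ :=
  ∏ p ∈ (Icc 3 y).filter Nat.Prime, (1 - (jacobiSym (1 - 4 * (A : ℤ)) p : ℝ) / ((p : ℝ) - 1))

/-- K: the joint law for `x² + x + (A + 2 s_j)` -/
def K0 : Prop := ∀ (k : ℕ) (s : Fin k → ℕ), Function.Injective s → ∀ α β : Fin k → ℝ, (∀ j, α j < β j) →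
    (∀ j, 0 < β j) → ∃ ρ : ℝ, 0 < ρ ∧
    Tendsto (fun y : ℕ => (#((range (∏ p ∈ (Icc 3 y).filter Nat.Prime, p)).filter (fun A : ℕ =>
      ∀ j, α j < CA (A + 2 * s j) y ∧ CA (A + 2 * s j) y ≤ β j)) : ℝ) / (∏ p ∈ (Icc 3 y).filter Nat.Prime, p : ℕ))
      atTop (𝓝 ρ) ∧
    ∀ ε κ η : ℝ, 0 < ε → 0 < κ → κ ≤ 1 → 0 < η → ∃ N0 : ℕ, ∀ N : ℕ, N0 ≤ N → ∀ C : ℕ,
      (N : ℝ) ^ (5 / 6 + ε) ≤ C → C ≤ N →
      |(#((Icc 3 C).filter (fun A : ℕ => Odd A ∧ ∀ j, ∀ n : ℕ, κ * N ≤ n → n ≤ N →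
        α j * LA (A + 2 * s j) n < PA (A + 2 * s j) n ∧ (PA (A + 2 * s j) n : ℝ) ≤ β j * LA (A + 2 * s j) n)) : ℝ) -
        ρ * (C / 2)| ≤ η * C

end

end Pool.Agent.N511.LL
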