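import Mathlib
import Pool.Agent.N511.LL.Stm

/-!
# LL/H24 (helper42): upper bounds of both tails by moments
-/

set_option autoImplicit false

namespace Pool.Agent.N511.LL.H24

open Finset Filter Topology Pool.Agent.N511.LL

/-! ### the choice of the exponent -/

lemma common {W : ℕ → ℝ} {c A : ℝ} (hc : 0 < c)
    (hW : Tendsto (fun y : ℕ => W y / Real.log y) atTop (𝓝 (1 / c))) (hW0 : ∀ y, 0 ≤ W y)
    {F : ℕ → ℝ → ℝ}
    (hF : ∀ t : ℝ, 0 < t → ∀ y B k : ℕ, 2 ≤ B → 1 ≤ k →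
      F y t ≤ (W (B * k) * Real.exp (A / B) / t) ^ k) :
    ∀ δ : ℝ, 0 < δ → ∃ t0 : ℝ, ∀ t : ℝ, t0 ≤ t → ∀ y : ℕ,
      F y t ≤ Real.exp (-Real.exp ((c - δ) * t)) := by
  intro δ hδ
  obtain ⟨d, hd⟩ : ∃ d, d = min δ c := ⟨_, rfl⟩
  have hd0 : 0 < d := by rw [hd]; exact lt_min hδ hc
  have hdδ : d ≤ δ := by rw [hd]; exact min_le_left _ _
  have hdc : d ≤ c := by rw [hd]; exact min_le_right _ _
  obtain ⟨a, ha⟩ : ∃ a, a = c - d / 2 := ⟨_, rfl⟩
  have ha0 : 0 < a := by rw [ha]; linarith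
  have hac : a / c < 1 := by
    rw [div_lt_one hc, ha]
    linarith
  -- choice of `B`
  have hB : ∀ᶠ B : ℕ in atTop, Real.exp (A / B) * (a / c) < 1 := by
    have h1 : Tendsto (fun B : ℕ => Real.exp (A / B) * (a / c)) atTop (𝓝 (Real.exp 0 * (a / c))) :=
      ((Real.continuous_exp.tendsto 0).comp (tendsto_const_div_atTop_nhds_zero_nat A)).mul_const _
    rw [Real.exp_zero, one_mul] at h1
    exact h1.eventually (gt_mem_nhds hac)
  obtain ⟨B, hB1, hB2⟩ := (hB.and (eventually_ge_atTop 2)).exists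
  obtain ⟨L, hL⟩ : ∃ L, L = Real.exp (A / B) * (a / c) := ⟨_, rfl⟩
  rw [← hL] at hB1
  have hL0 : 0 < L := by rw [hL]; positivity
  obtain ⟨ρ, hρ⟩ : ∃ ρ, ρ = (L + 1) / 2 := ⟨_, rfl⟩
  have hρL : L < ρ := by rw [hρ]; linarith
  have hρ1 : ρ < 1 := by rw [hρ]; linarith
  have hρ0 : 0 < ρ := by linarith
  have hBR : (2:ℝ) ≤ B := by exact_mod_cast hB2
  -- the exponent
  have hexp : Tendsto (fun t : ℝ => Real.exp (a * t)) atTop atTop :=
    Real.tendsto_exp_atTop.comp (tendsto_id.const_mul_atTop ha0)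
  have hk : Tendsto (fun t : ℝ => ⌊Real.exp (a * t)⌋₊) atTop atTop :=
    tendsto_nat_floor_atTop.comp hexp
  have hK : Tendsto (fun t : ℝ => B * ⌊Real.exp (a * t)⌋₊) atTop atTop := by
    refine tendsto_atTop_mono (fun t => ?_) hk
    exact Nat.le_mul_of_pos_left _ (by omega)
  have hg : Tendsto (fun t : ℝ => W (B * ⌊Real.exp (a * t)⌋₊) /
      Real.log ((B * ⌊Real.exp (a * t)⌋₊ : ℕ) : ℝ) * (Real.log B / t + a) * Real.exp (A / B))
      atTop (𝓝 (1 / c * (0 + a) * Real.exp (A / B))) := by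
    refine Tendsto.mul_const _ (Tendsto.mul (hW.comp hK) (Tendsto.add_const _ ?_))
    exact tendsto_const_nhds.div_atTop tendsto_id
  have e1 : 1 / c * (0 + a) * Real.exp (A / B) = L := by rw [hL]; ring
  rw [e1] at hg
  have hlρ : 0 < Real.log (1 / ρ) := Real.log_pos (by rw [lt_div_iff₀ hρ0]; linarith)
  have hexp2 : Tendsto (fun t : ℝ => Real.exp (d / 2 * t)) atTop atTop :=
    Real.tendsto_exp_atTop.comp (tendsto_id.const_mul_atTop (by positivity))
  have hev : ∀ᶠ t : ℝ in atTop, 1 ≤ t ∧ 2 ≤ Real.exp (a * t) ∧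
      W (B * ⌊Real.exp (a * t)⌋₊) / Real.log ((B * ⌊Real.exp (a * t)⌋₊ : ℕ) : ℝ) *
        (Real.log B / t + a) * Real.exp (A / B) < ρ ∧
      2 / Real.log (1 / ρ) ≤ Real.exp (d / 2 * t) :=
    (eventually_ge_atTop 1).and ((hexp.eventually_ge_atTop 2).and
      ((hg.eventually (gt_mem_nhds hρL)).and (hexp2.eventually_ge_atTop _)))
  obtain ⟨t0, ht0⟩ := eventually_atTop.1 hev
  refine ⟨t0, fun t ht y => ?_⟩
  obtain ⟨h1, h2, h3, h4⟩ := ht0 t ht
  obtain ⟨k, hkd⟩ : ∃ k, k = ⌊Real.exp (a * t)⌋₊ := ⟨_, rfl⟩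
  rw [← hkd] at h3
  have ht1 : 0 < t := by linarith
  have hkle : (k:ℝ) ≤ Real.exp (a * t) := by rw [hkd]; exact Nat.floor_le (Real.exp_pos _).le
  have hkge : Real.exp (a * t) - 1 ≤ k := by
    rw [hkd]
    have := Nat.lt_floor_add_one (Real.exp (a * t))
    linarith
  have hk1 : 1 ≤ k := by
    have : (1:ℝ) ≤ k := by linarith
    exact_mod_cast this
  have hk1R : (1:ℝ) ≤ k := by exact_mod_cast hk1
  refine (hF t ht1 y B k hB2 hk1).trans ?_
  -- the base
  have hlog : Real.log ((B * k : ℕ) : ℝ) ≤ Real.log B + a * t := by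
    push_cast
    rw [Real.log_mul (by positivity) (by positivity)]
    have : Real.log k ≤ a * t := by
      rw [← Real.log_exp (a * t)]
      exact Real.log_le_log (by positivity) hkle
    linarith
  have hlog0 : 0 < Real.log ((B * k : ℕ) : ℝ) := by
    apply Real.log_pos
    push_cast
    nlinarith
  have hbase : W (B * k) * Real.exp (A / B) / t ≤ ρ := by
    refine le_trans ?_ h3.le
    have h5 : 0 ≤ W (B * k) / Real.log ((B * k : ℕ) : ℝ) := div_nonneg (hW0 _) hlog0.le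
    have h6 : W (B * k) = W (B * k) / Real.log ((B * k : ℕ) : ℝ) * Real.log ((B * k : ℕ) : ℝ) := by
      field_simp
    have h7 : W (B * k) ≤ W (B * k) / Real.log ((B * k : ℕ) : ℝ) * (Real.log B + a * t) := by
      conv_lhs => rw [h6]
      exact mul_le_mul_of_nonneg_left hlog h5
    rw [div_le_iff₀ ht1]
    have h8 : W (B * k) / Real.log ((B * k : ℕ) : ℝ) * (Real.log B / t + a) * Real.exp (A / B) * t =
        W (B * k) / Real.log ((B * k : ℕ) : ℝ) * (Real.log B + a * t) * Real.exp (A / B) := by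
      field_simp
    rw [h8]
    exact mul_le_mul_of_nonneg_right h7 (Real.exp_pos _).le
  have hbase0 : 0 ≤ W (B * k) * Real.exp (A / B) / t :=
    div_nonneg (mul_nonneg (hW0 _) (Real.exp_pos _).le) ht1.le
  refine (pow_le_pow_left₀ hbase0 hbase k).trans ?_
  have e2 : ρ ^ k = Real.exp (-(k * Real.log (1 / ρ))) := by
    rw [one_div, Real.log_inv, mul_neg, neg_neg, ← Real.log_pow, Real.exp_log (by positivity)]
  rw [e2]
  apply Real.exp_le_exp.2
  apply neg_le_neg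
  have h9 : Real.exp ((c - δ) * t) ≤ Real.exp ((c - d) * t) := by
    apply Real.exp_le_exp.2
    exact mul_le_mul_of_nonneg_right (by linarith) ht1.le
  refine h9.trans ?_
  have e3 : Real.exp (a * t) = Real.exp ((c - d) * t) * Real.exp (d / 2 * t) := by
    rw [← Real.exp_add, ha]
    congr 1
    ring
  have h10 : Real.exp (a * t) / 2 ≤ k := by linarith
  have h11 : 2 ≤ Real.exp (d / 2 * t) * Real.log (1 / ρ) := by
    rwa [div_le_iff₀ hlρ] at h4
  calc Real.exp ((c - d) * t) = Real.exp ((c - d) * t) * 2 / 2 := by ring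
    _ ≤ Real.exp ((c - d) * t) * (Real.exp (d / 2 * t) * Real.log (1 / ρ)) / 2 := by
        have := mul_le_mul_of_nonneg_left h11 (Real.exp_pos ((c - d) * t)).le
        linarith
    _ = Real.exp (a * t) / 2 * Real.log (1 / ρ) := by rw [e3]; ring
    _ ≤ k * Real.log (1 / ρ) := mul_le_mul_of_nonneg_right h10 hlρ.le

/-! ### quadratic symbols modulo one prime -/

lemma sum_jac {p : ℕ} (hp : p.Prime) (hp3 : 3 ≤ p) : ∑ r ∈ range p, (jacobiSym (r : ℤ) p : ℝ) = 0 := by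
  have : Fact p.Prime := ⟨hp⟩
  have h1 : ∑ r ∈ range p, jacobiSym (r : ℤ) p = 0 := by
    have h2 : ∀ r : ℕ, jacobiSym (r : ℤ) p = quadraticChar (ZMod p) (r : ZMod p) := by
      intro r
      rw [← jacobiSym.legendreSym.to_jacobiSym]
      simp [legendreSym]
    have h3 : ∑ r ∈ range p, quadraticChar (ZMod p) (r : ZMod p) =
        ∑ x : ZMod p, quadraticChar (ZMod p) x := by
      refine Finset.sum_nbij' (fun r => (r : ZMod p)) (fun x => x.val) ?_ ?_ ?_ ?_ ?_
      · intro r _; exact Finset.mem_univ _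
      · intro x _; exact Finset.mem_range.2 (ZMod.val_lt x)
      · intro r hr
        exact ZMod.val_cast_of_lt (Finset.mem_range.1 hr)
      · intro x _
        exact ZMod.natCast_zmod_val x
      · intro r _; rfl
    rw [Finset.sum_congr rfl fun r _ => h2 r, h3]
    apply quadraticChar_sum_zero
    rw [ZMod.ringChar_zmod_n]
    omega
  exact_mod_cast h1

lemma jac_cases (r : ℤ) (p : ℕ) : (jacobiSym r p : ℝ) = -1 ∨ (jacobiSym r p : ℝ) = 0 ∨ (jacobiSym r p : ℝ) = 1 := by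
  rcases jacobiSym.trichotomy r p with h | h | h
  · right; left; rw [h]; simp
  · right; right; rw [h]; simp
  · left; rw [h]; simp

lemma sum_jac2 (p : ℕ) : ∑ r ∈ range p, (jacobiSym (r : ℤ) p : ℝ) ^ 2 ≤ p := by
  calc ∑ r ∈ range p, (jacobiSym (r : ℤ) p : ℝ) ^ 2 ≤ ∑ r ∈ range p, (1:ℝ) := by
        refine Finset.sum_le_sum fun r _ => ?_
        rcases jac_cases r p with h | h | h <;> rw [h] <;> norm_num
    _ = p := by simp

/-- averages of `exp (α x + β x ^ 2)` -/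
lemma sum_exp {p : ℕ} (hp : p.Prime) (hp3 : 3 ≤ p) {α β : ℝ} (hβ : 0 ≤ β) (h1 : |α| + β ≤ 1) :
    ∑ r ∈ range p, Real.exp (α * (jacobiSym (r : ℤ) p : ℝ) + β * (jacobiSym (r : ℤ) p : ℝ) ^ 2) ≤
      p * Real.exp (β + (|α| + β) ^ 2) := by
  have hb : ∀ r : ℕ, Real.exp (α * (jacobiSym (r : ℤ) p : ℝ) + β * (jacobiSym (r : ℤ) p : ℝ) ^ 2) ≤
      1 + α * (jacobiSym (r : ℤ) p : ℝ) + (β + (|α| + β) ^ 2) * 1 := by
    intro r
    obtain ⟨x, hx⟩ : ∃ x : ℝ, x = (jacobiSym (r : ℤ) p : ℝ) := ⟨_, rfl⟩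
    have hc := jac_cases (r : ℤ) p
    rw [← hx] at hc ⊢
    have hx1 : |x| ≤ 1 := by rcases hc with h | h | h <;> rw [h] <;> norm_num
    have hx2 : x ^ 2 ≤ 1 := by rcases hc with h | h | h <;> rw [h] <;> norm_num
    have hz : |α * x + β * x ^ 2| ≤ |α| + β := by
      refine (abs_add_le _ _).trans ?_
      rw [abs_mul, abs_mul, abs_of_nonneg hβ, abs_of_nonneg (sq_nonneg x)]
      have := mul_le_mul_of_nonneg_left hx1 (abs_nonneg α)
      have := mul_le_mul_of_nonneg_left hx2 hβ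
      linarith
    have h2 := (abs_le.1 (Real.abs_exp_sub_one_sub_id_le (hz.trans h1))).2
    have h3 : (α * x + β * x ^ 2) ^ 2 ≤ (|α| + β) ^ 2 := by
      rw [← sq_abs (α * x + β * x ^ 2)]
      exact pow_le_pow_left₀ (abs_nonneg _) hz 2
    have := mul_le_mul_of_nonneg_left hx2 hβ
    linarith
  refine (Finset.sum_le_sum fun r _ => hb r).trans ?_
  rw [Finset.sum_add_distrib, Finset.sum_add_distrib, ← Finset.mul_sum, sum_jac hp hp3, ← Finset.mul_sum]
  simp only [Finset.sum_const, Finset.card_range, nsmul_eq_mul, mul_one, mul_zero, add_zero]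
  have h4 := Real.add_one_le_exp (β + (|α| + β) ^ 2)
  have hp0 : (0:ℝ) ≤ p := Nat.cast_nonneg p
  nlinarith [mul_le_mul_of_nonneg_left h4 hp0]

/-! ### sums over primes -/

lemma sum_sq {K : ℕ} (hK : 1 ≤ K) (y : ℕ) :
    ∑ n ∈ Ioc K y, (1 / ((n : ℝ) - 1)) ^ 2 ≤ (2:ℝ) / K := by
  have hK0 : (0:ℝ) < K := by exact_mod_cast hK
  rcases le_total y K with h | h
  · rw [Finset.Ioc_eq_empty (by omega), Finset.sum_empty]
    positivity
  · have key : ∀ y : ℕ, K ≤ y → ∑ n ∈ Ioc K y, (1 / ((n : ℝ) - 1)) ^ 2 ≤ (2:ℝ) / K - 2 / y := by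
      intro y hy
      induction y, hy using Nat.le_induction with
      | base => simp
      | succ y hy ih =>
        rw [← Finset.insert_Ioc_right_eq_Ioc_add_one (by omega), Finset.sum_insert (by simp)]
        have hy0 : (0:ℝ) < y := by
          have : 0 < y := by omega
          exact_mod_cast this
        have hy1 : (1:ℝ) ≤ y := by
          have : 1 ≤ y := by omega
          exact_mod_cast this
        push_cast
        have h1 : (1 / ((y:ℝ) + 1 - 1)) ^ 2 ≤ 2 / y - 2 / (y + 1) := by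
          rw [add_sub_cancel_right, div_pow, one_pow, div_sub_div _ _ hy0.ne' (by positivity),
            div_le_div_iff₀ (by positivity) (by positivity)]
          nlinarith
        linarith
    refine (key y h).trans ?_
    have : (0:ℝ) ≤ 2 / y := by positivity
    linarith

/-- the moments -/
lemma moment (hR : CR0) {g : ℕ → ℤ → ℝ} {w : ℕ → ℝ} {A0 : ℝ} (hA0 : 0 ≤ A0)
    (hg0 : ∀ p : ℕ, p.Prime → 3 ≤ p → ∀ r : ℤ, 0 ≤ g p (jacobiSym r p))
    (hgw : ∀ p : ℕ, p.Prime → 3 ≤ p → ∀ r : ℤ, g p (jacobiSym r p) ≤ w p)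
    (hw1 : ∀ p : ℕ, p.Prime → 3 ≤ p → 1 ≤ w p)
    (hg : ∀ p : ℕ, p.Prime → 3 ≤ p → ∀ k : ℕ, 1 ≤ k → 2 * k + 1 ≤ p →
      ∑ r ∈ range p, g p (jacobiSym (r : ℤ) p) ^ k ≤ p * Real.exp (A0 * (k * (1 / ((p:ℝ) - 1))) ^ 2))
    (y B k : ℕ) (hB : 2 ≤ B) (hk : 1 ≤ k) :
    ∑ d ∈ range (Q y), (∏ p ∈ PP y, g p (jacobiSym (d : ℤ) p)) ^ k ≤
      Q y * ((∏ p ∈ PP (B * k), w p) * Real.exp (2 * A0 / B)) ^ k := by
  have hPP : ∀ y p, p ∈ PP y → p.Prime ∧ 3 ≤ p ∧ p ≤ y := by
    intro y p hp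
    unfold PP at hp
    rw [Finset.mem_filter, Finset.mem_Icc] at hp
    exact ⟨hp.2, hp.1.1, hp.1.2⟩
  have h1 := hR (PP y) (fun p hp => (hPP y p hp).1) (fun p x => g p x ^ k)
  have e1 : ∑ d ∈ range (Q y), (∏ p ∈ PP y, g p (jacobiSym (d : ℤ) p)) ^ k =
      ∏ p ∈ PP y, ∑ r ∈ range p, g p (jacobiSym (r : ℤ) p) ^ k := by
    rw [← h1]
    unfold Q
    refine Finset.sum_congr rfl fun d _ => ?_
    rw [Finset.prod_pow]
  rw [e1]
  have hK : 1 ≤ B * k := Nat.mul_pos (by omega) (by omega)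
  have hbd : ∀ p ∈ PP y, ∑ r ∈ range p, g p (jacobiSym (r : ℤ) p) ^ k ≤
      p * (if p ≤ B * k then w p ^ k else Real.exp (A0 * (k * (1 / ((p:ℝ) - 1))) ^ 2)) := by
    intro p hp
    obtain ⟨hpp, hp3, hpy⟩ := hPP y p hp
    split_ifs with hc
    · calc ∑ r ∈ range p, g p (jacobiSym (r : ℤ) p) ^ k ≤ ∑ r ∈ range p, w p ^ k :=
            Finset.sum_le_sum fun r _ => pow_le_pow_left₀ (hg0 p hpp hp3 r) (hgw p hpp hp3 r) k
        _ = p * w p ^ k := by simp
    · apply hg p hpp hp3 k hk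
      have : 2 * k ≤ B * k := Nat.mul_le_mul_right k hB
      omega
  refine (Finset.prod_le_prod (fun p hp => ?_) hbd).trans ?_
  · obtain ⟨hpp, hp3, hpy⟩ := hPP y p hp
    exact Finset.sum_nonneg fun r _ => pow_nonneg (hg0 p hpp hp3 r) k
  rw [Finset.prod_mul_distrib, Finset.prod_ite]
  have e2 : ∏ p ∈ PP y, (p:ℝ) = Q y := by
    unfold Q
    push_cast
    rfl
  rw [e2]
  apply mul_le_mul_of_nonneg_left _ (Nat.cast_nonneg _)
  rw [mul_pow]
  have hsub : (PP y).filter (fun p => p ≤ B * k) ⊆ PP (B * k) := by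
    intro p hp
    rw [Finset.mem_filter] at hp
    obtain ⟨hpp, hp3, hpy⟩ := hPP y p hp.1
    unfold PP
    rw [Finset.mem_filter, Finset.mem_Icc]
    exact ⟨⟨hp3, hp.2⟩, hpp⟩
  apply mul_le_mul
  · rw [Finset.prod_pow]
    apply pow_le_pow_left₀
    · refine Finset.prod_nonneg fun p hp => ?_
      obtain ⟨hpp, hp3, hpy⟩ := hPP y p (Finset.mem_filter.1 hp).1
      linarith [hw1 p hpp hp3]
    · rw [← Finset.prod_sdiff hsub]
      refine le_mul_of_one_le_left ?_ ?_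
      · refine Finset.prod_nonneg fun p hp => ?_
        obtain ⟨hpp, hp3, hpy⟩ := hPP y p (Finset.mem_filter.1 hp).1
        linarith [hw1 p hpp hp3]
      · calc (1:ℝ) = ∏ p ∈ PP (B * k) \ (PP y).filter (fun p => p ≤ B * k), (1:ℝ) := by simp
          _ ≤ _ := Finset.prod_le_prod (fun _ _ => zero_le_one) fun p hp => by
              obtain ⟨hpp, hp3, hpy⟩ := hPP (B * k) p (Finset.mem_sdiff.1 hp).1
              exact hw1 p hpp hp3
  · rw [← Real.exp_sum, ← Real.exp_nat_mul]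
    apply Real.exp_le_exp.2
    have e3 : ∑ p ∈ (PP y).filter (fun p => ¬ p ≤ B * k), A0 * (k * (1 / ((p:ℝ) - 1))) ^ 2 =
        A0 * k ^ 2 * ∑ p ∈ (PP y).filter (fun p => ¬ p ≤ B * k), (1 / ((p:ℝ) - 1)) ^ 2 := by
      rw [Finset.mul_sum]
      refine Finset.sum_congr rfl fun p _ => ?_
      ring
    rw [e3]
    have h2 : ∑ p ∈ (PP y).filter (fun p => ¬ p ≤ B * k), (1 / ((p:ℝ) - 1)) ^ 2 ≤ 2 / ((B * k : ℕ) : ℝ) := by
      refine le_trans (Finset.sum_le_sum_of_subset_of_nonneg ?_ fun _ _ _ => sq_nonneg _) (sum_sq hK y)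
      intro p hp
      rw [Finset.mem_filter] at hp
      obtain ⟨hpp, hp3, hpy⟩ := hPP y p hp.1
      rw [Finset.mem_Ioc]
      exact ⟨by omega, hpy⟩
    have hk0 : (0:ℝ) < k := by exact_mod_cast hk
    have hB0 : (0:ℝ) < B := by
      have : 0 < B := by omega
      exact_mod_cast this
    calc A0 * (k:ℝ) ^ 2 * ∑ p ∈ (PP y).filter (fun p => ¬ p ≤ B * k), (1 / ((p:ℝ) - 1)) ^ 2
        ≤ A0 * (k:ℝ) ^ 2 * (2 / ((B * k : ℕ) : ℝ)) := mul_le_mul_of_nonneg_left h2 (by positivity)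
      _ = k * (2 * A0 / B) := by
          push_cast
          field_simp
  · positivity
  · refine pow_nonneg (Finset.prod_nonneg fun p hp => ?_) k
    obtain ⟨hpp, hp3, hpy⟩ := hPP (B * k) p hp
    linarith [hw1 p hpp hp3]

/-- Markov's inequality -/
lemma markov {n k : ℕ} {X : ℕ → ℝ} (hX : ∀ d, 0 ≤ X d) {t : ℝ} (ht : 0 < t) (P : ℕ → Prop) [DecidablePred P]
    (hP : ∀ d, P d → t ≤ X d) :
    (#((range n).filter P) : ℝ) * t ^ k ≤ ∑ d ∈ range n, X d ^ k := by
  calc (#((range n).filter P) : ℝ) * t ^ k = ∑ d ∈ (range n).filter P, t ^ k := by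
        rw [Finset.sum_const, nsmul_eq_mul]
    _ ≤ ∑ d ∈ (range n).filter P, X d ^ k := by
        refine Finset.sum_le_sum fun d hd => ?_
        exact pow_le_pow_left₀ ht.le (hP d (Finset.mem_filter.1 hd).2) k
    _ ≤ _ := Finset.sum_le_sum_of_subset_of_nonneg (Finset.filter_subset _ _)
        fun d _ _ => pow_nonneg (hX d) k

lemma Q_pos (y : ℕ) : 0 < Q y := by
  unfold Q
  refine Finset.prod_pos fun p hp => ?_
  unfold PP at hp
  exact (Finset.mem_filter.1 hp).2.pos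

lemma u_bd {p : ℕ} (hp3 : 3 ≤ p) : 0 < 1 / ((p:ℝ) - 1) ∧ 1 / ((p:ℝ) - 1) ≤ 1 / 2 := by
  have h : (3:ℝ) ≤ p := by exact_mod_cast hp3
  constructor
  · apply div_pos one_pos; linarith
  · apply one_div_le_one_div_of_le (by norm_num); linarith

lemma loc_eq (d : ℤ) (p : ℕ) : loc d p = 1 - (jacobiSym d p : ℝ) * (1 / ((p:ℝ) - 1)) := by
  unfold loc
  ring

lemma loc_pos {p : ℕ} (hp3 : 3 ≤ p) (d : ℤ) : 0 < loc d p := by
  obtain ⟨h1, h2⟩ := u_bd hp3
  rw [loc_eq]
  rcases jac_cases d p with h | h | h <;> rw [h] <;> linarith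

/-- H2: upper bound of the upper tail -/
theorem h2 (hR : CR0) (hM : M0) : H2 := by
  classical
  have heg : 0 < eg := Real.exp_pos _
  have hW : Tendsto (fun y : ℕ => (∏ p ∈ PP y, (1 + 1 / ((p : ℝ) - 1))) / Real.log y) atTop
      (𝓝 (1 / (2 / eg))) := by
    have := hM.1
    rwa [one_div_div]
  have hPP : ∀ y p, p ∈ PP y → p.Prime ∧ 3 ≤ p ∧ p ≤ y := by
    intro y p hp
    unfold PP at hp
    rw [Finset.mem_filter, Finset.mem_Icc] at hp
    exact ⟨hp.2, hp.1.1, hp.1.2⟩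
  have key := common (A := 2 * 1) (F := fun y t => 1 - Gy y t) (by positivity : 0 < 2 / eg) hW
    (fun y => Finset.prod_nonneg fun p hp => by
      have := (u_bd (hPP y p hp).2.1).1
      linarith) ?_
  · exact key
  intro t ht y B k hB hk
  have hmom := moment hR (g := fun p x => 1 - (x:ℝ) * (1 / ((p:ℝ) - 1))) (w := fun p => 1 + 1 / ((p:ℝ) - 1))
    (A0 := 1) zero_le_one ?_ ?_ ?_ ?_ y B k hB hk
  · have e1 : ∀ d : ℕ, ∏ p ∈ PP y, (1 - (jacobiSym (d:ℤ) p : ℝ) * (1 / ((p:ℝ) - 1))) = T d y := by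
      intro d
      unfold T
      exact Finset.prod_congr rfl fun p _ => (loc_eq d p).symm
    simp only [e1] at hmom
    have hT0 : ∀ d : ℕ, 0 ≤ T d y := fun d => Finset.prod_nonneg fun p hp => (loc_pos (hPP y p hp).2.1 d).le
    have hmk := markov (n := Q y) (k := k) hT0 ht (fun d : ℕ => ¬ T d y ≤ t) (fun d hd => (not_le.1 hd).le)
    have hQ : (0:ℝ) < Q y := by exact_mod_cast Q_pos y
    have hcard : (#((range (Q y)).filter (fun d : ℕ => T d y ≤ t)) : ℝ) +
        (#((range (Q y)).filter (fun d : ℕ => ¬ T d y ≤ t)) : ℝ) = Q y := by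
      have := Finset.card_filter_add_card_filter_not (s := range (Q y)) (fun d : ℕ => T d y ≤ t)
      rw [Finset.card_range] at this
      exact_mod_cast this
    have e2 : 1 - Gy y t = (#((range (Q y)).filter (fun d : ℕ => ¬ T d y ≤ t)) : ℝ) / Q y := by
      unfold Gy
      rw [eq_div_iff hQ.ne', sub_mul, one_mul, div_mul_cancel₀ _ hQ.ne']
      have : (#((range (Q y)).filter (fun d : ℕ => T d y ≤ t)) : ℝ) =
        Q y - (#((range (Q y)).filter (fun d : ℕ => ¬ T d y ≤ t)) : ℝ) := by linarith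
      convert sub_sub_cancel _ _ using 2
      convert this using 3
    rw [e2, div_pow, div_le_div_iff₀ hQ (by positivity)]
    refine hmk.trans (hmom.trans (le_of_eq ?_))
    rw [mul_comm]
  · intro p hp hp3 r
    have := loc_pos hp3 r
    rw [loc_eq] at this
    exact this.le
  · intro p hp hp3 r
    obtain ⟨h1, h2⟩ := u_bd hp3
    rcases jac_cases r p with h | h | h <;> simp only [h] <;> linarith
  · intro p hp hp3
    have := (u_bd hp3).1
    linarith
  · intro p hp hp3 k hk hkp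
    obtain ⟨h1, h2⟩ := u_bd hp3
    obtain ⟨u, hu⟩ : ∃ u : ℝ, u = 1 / ((p:ℝ) - 1) := ⟨_, rfl⟩
    rw [← hu] at h1 h2 ⊢
    have hku : (k:ℝ) * u ≤ 1 / 2 := by
      have h3 : (2 * k + 1 : ℝ) ≤ p := by exact_mod_cast hkp
      have h4 : (0:ℝ) < p - 1 := by
        have : (3:ℝ) ≤ p := by exact_mod_cast hp3
        linarith
      rw [hu, mul_one_div, div_le_iff₀ h4]
      linarith
    have hk0 : (0:ℝ) ≤ k := Nat.cast_nonneg k
    have h5 := sum_exp hp hp3 (α := -(k * u)) (β := 0) le_rfl (by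
      rw [abs_neg, abs_of_nonneg (by positivity)]; linarith)
    refine le_trans (Finset.sum_le_sum fun r _ => ?_) (h5.trans (le_of_eq ?_))
    · have h6 : 0 ≤ 1 - (jacobiSym (r:ℤ) p : ℝ) * u := by
        have := loc_pos hp3 (r:ℤ)
        rw [loc_eq, ← hu] at this
        exact this.le
      have h7 : 1 - (jacobiSym (r:ℤ) p : ℝ) * u ≤ Real.exp (-((jacobiSym (r:ℤ) p : ℝ) * u)) := by
        have := Real.add_one_le_exp (-((jacobiSym (r:ℤ) p : ℝ) * u))
        linarith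
      refine (pow_le_pow_left₀ h6 h7 k).trans (le_of_eq ?_)
      rw [← Real.exp_nat_mul]
      congr 1
      ring
    · rw [abs_neg, abs_of_nonneg (by positivity)]
      congr 2
      ring

/-- H4: upper bound of the lower tail -/
theorem h4 (hR : CR0) (_hM : M0) : H4 := by
  classical
  intro C2 hC2 hlim
  have heg : 0 < eg := Real.exp_pos _
  have hc : 0 < 2 * C2 / eg := by positivity
  have hPP : ∀ y p, p ∈ PP y → p.Prime ∧ 3 ≤ p ∧ p ≤ y := by
    intro y p hp
    unfold PP at hp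
    rw [Finset.mem_filter, Finset.mem_Icc] at hp
    exact ⟨hp.2, hp.1.1, hp.1.2⟩
  have hW : Tendsto (fun y : ℕ => (∏ p ∈ PP y, (1 - 1 / ((p : ℝ) - 1))⁻¹) / Real.log y) atTop
      (𝓝 (1 / (2 * C2 / eg))) := by
    have h1 := hlim.inv₀ hc.ne'
    rw [← one_div] at h1
    refine h1.congr fun y => ?_
    rw [Finset.prod_inv_distrib, mul_inv, div_eq_mul_inv, mul_comm]
  have key := common (A := 2 * 6) (F := fun y t => Gy y (1 / t)) hc hW
    (fun y => Finset.prod_nonneg fun p hp => by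
      have := (u_bd (hPP y p hp).2.1).2
      exact inv_nonneg.2 (by linarith)) ?_
  · exact key
  intro t ht y B k hB hk
  have hmom := moment hR (g := fun p x => (1 - (x:ℝ) * (1 / ((p:ℝ) - 1)))⁻¹)
    (w := fun p => (1 - 1 / ((p:ℝ) - 1))⁻¹) (A0 := 6) (by norm_num) ?_ ?_ ?_ ?_ y B k hB hk
  · have e1 : ∀ d : ℕ, ∏ p ∈ PP y, (1 - (jacobiSym (d:ℤ) p : ℝ) * (1 / ((p:ℝ) - 1)))⁻¹ = (T d y)⁻¹ := by
      intro d
      unfold T
      rw [Finset.prod_inv_distrib]
      congr 1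
      exact Finset.prod_congr rfl fun p _ => (loc_eq d p).symm
    simp only [e1] at hmom
    have hT0 : ∀ d : ℕ, 0 < T d y := fun d => Finset.prod_pos fun p hp => loc_pos (hPP y p hp).2.1 d
    have hmk := markov (n := Q y) (k := k) (fun d => (inv_pos.2 (hT0 d)).le) ht
      (fun d : ℕ => T d y ≤ 1 / t) (fun d hd => by
        rw [le_inv_comm₀ ht (hT0 d), ← one_div]
        exact hd)
    have hQ : (0:ℝ) < Q y := by exact_mod_cast Q_pos y
    have e2 : Gy y (1 / t) = (#((range (Q y)).filter (fun d : ℕ => T d y ≤ 1 / t)) : ℝ) / Q y := by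
      unfold Gy
      congr
    rw [e2, div_pow, div_le_div_iff₀ hQ (by positivity)]
    refine hmk.trans (hmom.trans (le_of_eq ?_))
    rw [mul_comm]
  · intro p hp hp3 r
    have := loc_pos hp3 r
    rw [loc_eq] at this
    exact inv_nonneg.2 this.le
  · intro p hp hp3 r
    obtain ⟨h1, h2⟩ := u_bd hp3
    apply inv_anti₀ (by linarith)
    rcases jac_cases r p with h | h | h <;> rw [h] <;> linarith
  · intro p hp hp3
    obtain ⟨h1, h2⟩ := u_bd hp3
    rw [one_le_inv₀ (by linarith)]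
    linarith
  · intro p hp hp3 k hk hkp
    obtain ⟨h1, h2⟩ := u_bd hp3
    obtain ⟨u, hu⟩ : ∃ u : ℝ, u = 1 / ((p:ℝ) - 1) := ⟨_, rfl⟩
    rw [← hu] at h1 h2 ⊢
    have hku : (k:ℝ) * u ≤ 1 / 2 := by
      have h3 : (2 * k + 1 : ℝ) ≤ p := by exact_mod_cast hkp
      have h4 : (0:ℝ) < p - 1 := by
        have : (3:ℝ) ≤ p := by exact_mod_cast hp3
        linarith
      rw [hu, mul_one_div, div_le_iff₀ h4]
      linarith
    have hk0 : (0:ℝ) ≤ k := Nat.cast_nonneg k
    have hk1 : (1:ℝ) ≤ k := by exact_mod_cast hk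
    have hku0 : 0 ≤ (k:ℝ) * u := by positivity
    have hb1 : 2 * (k:ℝ) * u ^ 2 ≤ k * u := by nlinarith
    have h5 := sum_exp hp hp3 (α := k * u) (β := 2 * k * u ^ 2) (by positivity) (by
      rw [abs_of_nonneg hku0]; linarith)
    refine le_trans (Finset.sum_le_sum fun r _ => ?_) (h5.trans ?_)
    · obtain ⟨x, hx⟩ : ∃ x : ℝ, x = (jacobiSym (r : ℤ) p : ℝ) := ⟨_, rfl⟩
      have hcs := jac_cases (r : ℤ) p
      have h6 : 0 < 1 - (jacobiSym (r:ℤ) p : ℝ) * u := by
        have := loc_pos hp3 (r:ℤ)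
        rw [loc_eq, ← hu] at this
        exact this
      rw [← hx] at hcs h6 ⊢
      have h7 : (1 - x * u)⁻¹ ≤ Real.exp (x * u + 2 * (x * u) ^ 2) := by
        have hz : |x * u| ≤ 1 / 2 := by
          rw [abs_mul, abs_of_pos h1]
          have : |x| ≤ 1 := by rcases hcs with h | h | h <;> rw [h] <;> norm_num
          nlinarith
        have h8 := Real.abs_log_sub_add_sum_range_le (x := x * u) (by linarith) 1
        rw [Finset.sum_range_one] at h8
        norm_num at h8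
        have h9 : |x * u| ^ 2 / (1 - |x * u|) ≤ 2 * (x * u) ^ 2 := by
          rw [div_le_iff₀ (by linarith), sq_abs]
          nlinarith [sq_nonneg (x * u)]
        have h9' : (x * u) ^ 2 / (1 - |x * u|) ≤ 2 * (x * u) ^ 2 := by rwa [sq_abs] at h9
        have h10 : -(x * u + 2 * (x * u) ^ 2) ≤ Real.log (1 - x * u) := by
          have h11 := (abs_le.1 h8).1
          have h12 : |x| * |u| = |x * u| := (abs_mul x u).symm
          first
            | linarith
            | (rw [h12] at h11; linarith)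
        rw [← Real.exp_log (inv_pos.2 h6), Real.log_inv]
        apply Real.exp_le_exp.2
        linarith
      refine (pow_le_pow_left₀ (inv_pos.2 h6).le h7 k).trans (le_of_eq ?_)
      rw [← Real.exp_nat_mul]
      congr 1
      ring
    · apply mul_le_mul_of_nonneg_left _ (Nat.cast_nonneg p)
      apply Real.exp_le_exp.2
      rw [abs_of_nonneg hku0]
      have h13 : 2 * (k:ℝ) * u ^ 2 ≤ 2 * (k * u) ^ 2 := by
        have : (k:ℝ) ≤ k ^ 2 := by nlinarith
        nlinarith [sq_nonneg u]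
      have h14 : (k * u + 2 * (k:ℝ) * u ^ 2) ^ 2 ≤ (2 * (k * u)) ^ 2 :=
        pow_le_pow_left₀ (by positivity) (by linarith) 2
      nlinarith

end Pool.Agent.N511.LL.H24
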