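import Pool.Agent.N511.LL.Stm
import Pool.Agent.N792.T7S

/-!
# The prime counts of `m² + c` and `m² + m + c` in terms of the truncated products (helper755)

From the Hardy-Littlewood formula for almost all `c` of helper792.
-/

set_option autoImplicit false

namespace Pool.Agent.N511.LL

open Finset Filter Topology
open Pool.Agent.N792 (Admissible eps gcdProd partialC fv t7s x8 li_asym)

namespace I0aux

theorem T_eq (b : ℤ) (c : ℤ) (z : ℕ) : partialC 1 b c z = T (b ^ 2 - 4 * c) z := by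
  unfold partialC T PP loc
  have hs : (Icc 3 z).filter (fun p : ℕ => p.Prime ∧ ¬ (p : ℤ) ∣ 1) = (Icc 3 z).filter Nat.Prime := by
    apply filter_congr
    intro p hp
    rw [mem_Icc] at hp
    constructor
    · exact fun h => h.1
    · intro h
      refine ⟨h, fun h4 => ?_⟩
      have h5 : (p : ℤ).natAbs ∣ 1 := by
        have := Int.natAbs_dvd_natAbs.2 h4
        simpa using this
      rw [Int.natAbs_natCast] at h5
      have := Nat.le_of_dvd one_pos h5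
      omega
  rw [hs]
  refine prod_congr rfl fun p _ => ?_
  rw [mul_one]

theorem T_split (d : ℤ) {y w : ℕ} (hy : 2 ≤ y) (hyw : y ≤ w) :
    T d w = T d y * ∏ p ∈ PR 4 y w, loc d p := by
  have hu : PP w = PP y ∪ PR 4 y w := by
    ext p
    unfold PP PR
    rw [mem_union, mem_filter, mem_filter, mem_filter, mem_Icc, mem_Icc, mem_Ioc]
    constructor
    · rintro ⟨⟨h1, h2⟩, h3⟩
      by_cases h4 : p ≤ y
      · exact Or.inl ⟨⟨h1, h4⟩, h3⟩
      · refine Or.inr ⟨⟨by omega, h2⟩, h3, fun h5 => ?_⟩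
        have h6 : p ∣ 2 := h3.dvd_of_dvd_pow (show p ∣ 2 ^ 2 by norm_num; exact h5)
        have := Nat.le_of_dvd (by norm_num) h6
        omega
    · rintro (⟨⟨h1, h2⟩, h3⟩ | ⟨⟨h1, h2⟩, h3, h4⟩)
      · exact ⟨⟨h1, h2.trans hyw⟩, h3⟩
      · exact ⟨⟨by omega, h2⟩, h3⟩
  have hd : Disjoint (PP y) (PR 4 y w) := by
    rw [disjoint_left]
    intro p h1 h2
    unfold PP at h1
    unfold PR at h2
    rw [mem_filter, mem_Icc] at h1
    rw [mem_filter, mem_Ioc] at h2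
    omega
  unfold T
  rw [hu, prod_union hd]

theorem eps_val (b : ℕ) (hb : b = 0 ∨ b = 1) : eps 1 (b : ℤ) = 1 + b := by
  rcases hb with rfl | rfl
  · unfold eps
    norm_num
  · unfold eps
    norm_num

theorem gcd_val (b : ℤ) : gcdProd 1 b = 1 := by
  unfold gcdProd
  simp

theorem adm (b : ℕ) (hb : b = 0 ∨ b = 1) (c : ℕ) (hc : 1 ≤ c) (ho : b = 1 → Odd c) :
    Admissible 1 (b : ℤ) (c : ℤ) := by
  refine ⟨one_pos, fun d hd _ _ => isUnit_of_dvd_one hd, ?_, ?_⟩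
  · rintro ⟨h, h'⟩
    rcases hb with rfl | rfl
    · norm_num at h
    · obtain ⟨k, hk⟩ := ho rfl
      omega
  · rintro ⟨r, hr⟩
    have h1 : (1 : ℤ) ≤ c := by exact_mod_cast hc
    have h2 := mul_self_nonneg r
    rcases hb with rfl | rfl
    · push_cast at hr
      nlinarith
    · push_cast at hr
      nlinarith

theorem real_step {t P S L η1 : ℝ} (ht : 0 < t) (hη : 0 < η1) (hη1 : η1 ≤ 1 / 20)
    (hP : |P - 1| ≤ η1) (hS : |S - t * P| ≤ t * P / L) (hL : 1 / η1 ≤ L) : |S - t| ≤ 3 * η1 * t := by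
  obtain ⟨h1, h2⟩ := abs_le.1 hP
  have hP0 : 0 < P := by linarith
  have hL0 : 0 < L := lt_of_lt_of_le (by positivity) hL
  have h3 : t * P / L ≤ η1 * (t * P) := by
    rw [div_le_iff₀ hL0]
    have h4 : 1 ≤ η1 * L := by
      rw [div_le_iff₀ hη] at hL
      linarith
    have h5 : 0 < t * P := by positivity
    nlinarith
  have h4 : t * P ≤ 2 * t := by nlinarith
  have h5 : |t * P - t| ≤ η1 * t := by
    have e : t * P - t = (P - 1) * t := by ring
    rw [e, abs_mul, abs_of_pos ht]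
    exact mul_le_mul_of_nonneg_right hP ht.le
  have h6 : S - t = (S - t * P) + (t * P - t) := by ring
  rw [h6]
  refine (abs_add_le _ _).trans ?_
  nlinarith

theorem real_fin {t S Sg π v L X x η1 e : ℝ} (ht : 0 < t) (hη : 0 < η1) (hη1 : η1 ≤ 1 / 20)
    (he1 : 1 ≤ e) (he2 : e ≤ 2) (hL : 0 < L) (_hX : X = x / L) (hX0 : 0 ≤ X) (hv0 : 0 ≤ v)
    (hv : v / (2 * L) ≤ X / 2)
    (hS : |S - t| ≤ 3 * η1 * t) (k1 : |π - e * S * Sg| ≤ η1 * (e * S * X))
    (k2 : |Sg - v / (2 * L)| ≤ η1 * X) :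
    |π - e * t * (v / (2 * L))| ≤ 20 * η1 * (t * X) := by
  obtain ⟨s1, s2⟩ := abs_le.1 hS
  have hS0 : 0 ≤ S := by nlinarith
  have hS2 : S ≤ 2 * t := by nlinarith
  have hV0 : 0 ≤ v / (2 * L) := by positivity
  have e1 : π - e * t * (v / (2 * L)) = (π - e * S * Sg) + e * S * (Sg - v / (2 * L)) +
      e * (S - t) * (v / (2 * L)) := by ring
  rw [e1]
  refine (abs_add_le _ _).trans ?_
  have a1 := abs_add_le (π - e * S * Sg) (e * S * (Sg - v / (2 * L)))
  have a2 : |e * S * (Sg - v / (2 * L))| ≤ 4 * t * (η1 * X) := by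
    rw [abs_mul, abs_of_nonneg (by positivity : 0 ≤ e * S)]
    apply mul_le_mul _ k2 (abs_nonneg _) (by positivity)
    calc e * S ≤ 2 * (2 * t) := mul_le_mul he2 hS2 hS0 (by norm_num)
      _ = 4 * t := by ring
  have a3 : |e * (S - t) * (v / (2 * L))| ≤ 2 * (3 * η1 * t) * (X / 2) := by
    rw [abs_mul, abs_mul, abs_of_nonneg (by linarith : (0 : ℝ) ≤ e), abs_of_nonneg hV0]
    apply mul_le_mul _ hv hV0 (by positivity)
    exact mul_le_mul he2 hS (abs_nonneg _) (by norm_num)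
  have a4 : η1 * (e * S * X) ≤ η1 * (4 * t * X) := by
    apply mul_le_mul_of_nonneg_left _ hη.le
    apply mul_le_mul_of_nonneg_right _ hX0
    calc e * S ≤ 2 * (2 * t) := mul_le_mul he2 hS2 hS0 (by norm_num)
      _ = 4 * t := by ring
  have a5 : 0 ≤ η1 * (t * X) := by positivity
  nlinarith

end I0aux

open I0aux

/-- **the prime counts in terms of the truncated products** -/
theorem i0 (hB : B2) : I0 := by
  classical
  intro b hb ε0 η hε0 hη
  obtain ⟨η1, hη1⟩ : ∃ η1 : ℝ, η1 = min (η / 20) (1 / 20) := ⟨_, rfl⟩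
  have hη10 : 0 < η1 := by rw [hη1]; positivity
  have hη1a : η1 ≤ η / 20 := by rw [hη1]; exact min_le_left _ _
  have hη1b : η1 ≤ 1 / 20 := by rw [hη1]; exact min_le_right _ _
  obtain ⟨y0, hy02, hy0⟩ := hB η1 hη10
  refine ⟨y0, fun y hy => ?_⟩
  obtain ⟨x1, hx1⟩ := t7s 1 one_pos (b : ℤ) ε0 hε0 η1 hη10
  obtain ⟨x2, hx2⟩ := x8 1 one_pos (b : ℤ) 1 13
  obtain ⟨x3, hx3⟩ := li_asym 1 one_pos (b : ℤ) η1 hη10
  obtain ⟨x4, hx4⟩ := eventually_atTop.1 (Pool.Agent.N792.Shp.log_ge (2 + 1 / η1 + y))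
  obtain ⟨x5, hx5⟩ := eventually_atTop.1 (Pool.Agent.N792.Shp.log_pow_le 13 1 (1 / 5) (by norm_num))
  refine ⟨x1 + x2 + x3 + x4 + x5 + 2, fun x hx C hC1 hC2 => ?_⟩
  have b4 := hx4 x (by omega)
  have b5 := hx5 x (by omega)
  rw [one_mul] at b5
  obtain ⟨L, hL⟩ : ∃ L : ℝ, L = Real.log x := ⟨_, rfl⟩
  have hx0 : (0 : ℝ) < x := by exact_mod_cast (by omega : 0 < x)
  have hx1r : (1 : ℝ) ≤ x := by exact_mod_cast (by omega : 1 ≤ x)
  rw [← hL] at b4 b5
  have hinv : 0 < 1 / η1 := by positivity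
  have hyr : (0 : ℝ) ≤ y := Nat.cast_nonneg y
  have hL2 : 2 ≤ L := by linarith
  have hLη : 1 / η1 ≤ L := by linarith
  have hLy : (y : ℝ) ≤ L := by linarith
  have hL0 : 0 < L := by linarith
  -- the parameter `w`
  obtain ⟨w, hw⟩ : ∃ w : ℕ, w = ⌈L ^ 12⌉₊ := ⟨_, rfl⟩
  have hw1 : L ^ 12 ≤ w := by rw [hw]; exact Nat.le_ceil _
  have hL12 : 1 ≤ L ^ 12 := one_le_pow₀ (by linarith)
  have hw2 : (w : ℝ) ≤ L ^ 13 := by
    have h1 : (w : ℝ) < L ^ 12 + 1 := by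
      rw [hw]
      exact Nat.ceil_lt_add_one (by positivity)
    have h2 : L ^ 13 = L * L ^ 12 := by ring
    rw [h2]
    nlinarith
  have hw3 : (w : ℝ) ≤ (x : ℝ) ^ (1 / 5 : ℝ) := hw2.trans b5
  have hyw : y ≤ w := by
    have h1 : (y : ℝ) ≤ w := by
      have h2 : L ≤ L ^ 12 := le_self_pow₀ (by linarith) (by norm_num)
      linarith
    exact_mod_cast h1
  have hy2 : 2 ≤ y := hy02.trans hy
  have hw2' : 2 ≤ w := hy2.trans hyw
  have hwC : w ^ 3 ≤ C := by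
    have h1 : ((w : ℝ)) ^ 3 ≤ C := by
      calc (w : ℝ) ^ 3 ≤ ((x : ℝ) ^ (1 / 5 : ℝ)) ^ 3 := pow_le_pow_left₀ (by positivity) hw3 3
        _ = (x : ℝ) ^ (3 / 5 : ℝ) := by
            rw [← Real.rpow_natCast, ← Real.rpow_mul hx0.le]
            norm_num
        _ ≤ (x : ℝ) ^ (5 / 6 + ε0) := Real.rpow_le_rpow_of_exponent_le hx1r (by linarith)
        _ ≤ C := hC1
    exact_mod_cast h1
  have hC12 : (x : ℝ) ^ (1 / 2 : ℝ) ≤ C :=
    (Real.rpow_le_rpow_of_exponent_le hx1r (by linarith)).trans hC1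
  have hC0 : (0 : ℝ) < C := lt_of_lt_of_le (Real.rpow_pos_of_pos hx0 _) hC12
  obtain ⟨E1, hE1a, hE1b, hE1c⟩ := hx1 x (by omega) C hC1 hC2
  obtain ⟨E2, hE2a, hE2b, hE2c⟩ := hx2 x (by omega) C hC12 hC2 w w (by rw [← hL]; exact hw1)
    (by rw [← hL]; exact hw2) le_rfl hw3
  rw [← hL, pow_one] at hE2b
  have hB3 := hy0 y hy w hyw C hwC 4 ((b : ℤ) ^ 2 - 4 * C) (by norm_num)
  obtain ⟨B, hBd⟩ : ∃ B : Finset ℕ, B = (range C).filter (fun i : ℕ => η1 < |∏ p ∈ PR 4 y w,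
    loc (((b : ℤ) ^ 2 - 4 * C) + ((4 : ℕ) : ℤ) * i) p - 1|) := ⟨_, rfl⟩
  have hB4 : (#B : ℝ) ≤ η1 * C := by
    rw [hBd]
    exact hB3
  obtain ⟨E3, hE3⟩ : ∃ E3 : Finset ℕ, E3 = B.image (fun i => C - i) := ⟨_, rfl⟩
  have hE3b : (#E3 : ℝ) ≤ η1 * C := by
    refine le_trans ?_ hB4
    rw [hE3]
    exact_mod_cast card_image_le
  refine ⟨(E1 ∪ E2 ∪ E3) ∩ Icc 1 C, inter_subset_right, ?_, ?_⟩
  · have h1 : (#((E1 ∪ E2 ∪ E3) ∩ Icc 1 C) : ℝ) ≤ #E1 + #E2 + #E3 := by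
      have h2 := (card_le_card (inter_subset_left (s₁ := E1 ∪ E2 ∪ E3) (s₂ := Icc 1 C))).trans
        ((card_union_le (E1 ∪ E2) E3).trans (Nat.add_le_add_right (card_union_le E1 E2) _))
      exact_mod_cast h2
    have h2 : (C : ℝ) / L ≤ η1 * C := by
      rw [div_le_iff₀ hL0]
      have h4 : 1 ≤ η1 * L := by
        rw [div_le_iff₀ hη10] at hLη
        linarith
      nlinarith
    nlinarith
  · intro c hc hcE ho
    rw [mem_inter, mem_union, mem_union, not_and'] at hcE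
    have hcE' := hcE hc
    rw [not_or, not_or] at hcE'
    obtain ⟨⟨g1, g2⟩, g3⟩ := hcE'
    have hcI := mem_Icc.1 hc
    have hadm := adm b hb c hcI.1 ho
    obtain ⟨S, hS0, hSt, hb1⟩ := hE1c c hc g1 hadm
    obtain ⟨-, hX8⟩ := hE2c c hc g2
    obtain ⟨S', hS0', hSt', hb2⟩ := hX8 hadm
    have hSS : S' = S := tendsto_nhds_unique hSt' hSt
    rw [hSS, Pool.Agent.N792.SingTail.V_ratio hadm hw2' (by exact_mod_cast (by omega : 1 ≤ w)), gcd_val,
      eps_val b hb, ← hL, pow_one, mul_one, mul_one, T_eq] at hb2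
    obtain ⟨D, hD⟩ : ∃ D : ℤ, D = (b : ℤ) ^ 2 - 4 * c := ⟨_, rfl⟩
    rw [← hD] at hb2 ⊢
    have ht : 0 < T D y := by
      rw [hD, ← T_eq]
      exact Pool.Agent.N792.SingTail.partialC_pos _ _ _ _
    have hP : |∏ p ∈ PR 4 y w, loc D p - 1| ≤ η1 := by
      by_contra h1
      push Not at h1
      apply g3
      rw [hE3, mem_image]
      refine ⟨C - c, ?_, by omega⟩
      rw [hBd, mem_filter, mem_range]
      refine ⟨by omega, ?_⟩
      have e : ((b : ℤ) ^ 2 - 4 * C) + ((4 : ℕ) : ℤ) * ((C - c : ℕ) : ℤ) = D := by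
        rw [hD, Nat.cast_sub hcI.2]
        push_cast
        ring
      rw [e]
      exact h1
    have hbr : (0 : ℝ) ≤ b := Nat.cast_nonneg b
    have hb2' : (b : ℝ) ≤ 1 := by
      rcases hb with rfl | rfl <;> norm_num
    have hSw : |S - T D y * ∏ p ∈ PR 4 y w, loc D p| ≤ T D y * (∏ p ∈ PR 4 y w, loc D p) / L := by
      rw [← T_split D hy2 hyw]
      have h1 : (1 + (b : ℝ)) * S - (1 + b) * T D w = (1 + b) * (S - T D w) := by ring
      rw [h1, abs_mul, abs_of_pos (by linarith : (0 : ℝ) < 1 + b), mul_div_assoc] at hb2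
      exact le_of_mul_le_mul_left hb2 (by linarith)
    have hSt1 := real_step ht hη10 hη1b hP hSw hLη
    have hSfun : Tendsto (fun z => T D z) atTop (𝓝 S) := by
      refine hSt.congr fun z => ?_
      rw [hD, T_eq]
    refine ⟨⟨S, hSfun, hSt1.trans ?_⟩, fun v hv => ?_⟩
    · apply mul_le_mul_of_nonneg_right _ ht.le
      linarith
    · have k1 := hb1 0 v (Nat.zero_le _) hv
      have k2 := hx3 x (by omega) c (mem_Icc.2 ⟨hcI.1, hcI.2.trans hC2⟩) 0 v (Nat.zero_le _) hv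
      have hPi : (#((Ioc 0 v).filter (fun m : ℕ => (fv 1 (b : ℤ) (c : ℤ) m).toNat.Prime)) : ℝ) =
          (#((Icc 1 v).filter (fun m : ℕ => (m ^ 2 + b * m + c).Prime)) : ℝ) := by
        congr 2
        ext m
        have e1 : (fv 1 (b : ℤ) (c : ℤ) m).toNat = m ^ 2 + b * m + c := by
          unfold fv
          have e2 : 1 * (m : ℤ) ^ 2 + (b : ℤ) * m + c = ((m ^ 2 + b * m + c : ℕ) : ℤ) := by
            push_cast
            ring
          rw [e2, Int.toNat_natCast]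
        simp only [mem_filter, mem_Ioc, mem_Icc, e1]
        constructor
        · rintro ⟨⟨h1, h2⟩, h3⟩
          exact ⟨⟨by omega, h2⟩, h3⟩
        · rintro ⟨⟨h1, h2⟩, h3⟩
          exact ⟨⟨by omega, h2⟩, h3⟩
      rw [hPi, gcd_val, eps_val b hb, mul_one, ← hL] at k1
      rw [← hL, Nat.cast_zero, sub_zero] at k2
      obtain ⟨Sg, hSg⟩ : ∃ Sg : ℝ, Sg = ∑ m ∈ Ioc 0 v,
        1 / Real.log (((1 : ℤ) : ℝ) * m ^ 2 + ((b : ℤ) : ℝ) * m + (c : ℝ)) := ⟨_, rfl⟩
      rw [← hSg] at k1 k2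
      have hvx : (v : ℝ) ≤ x := by exact_mod_cast hv
      have e3 : (1 + (b : ℝ)) * S * (x : ℝ) / L = (1 + b) * S * (x / L) := by ring
      rw [e3] at k1
      have hfin := real_fin (X := (x : ℝ) / L) (e := 1 + (b : ℝ)) ht hη10 hη1b (by linarith)
        (by linarith) hL0 rfl (by positivity) (Nat.cast_nonneg v) (by
          rw [div_div, mul_comm L 2]
          exact div_le_div_of_nonneg_right hvx (by positivity)) hSt1 k1 k2
      rw [← hL]
      refine hfin.trans ?_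
      apply mul_le_mul_of_nonneg_right (by linarith)
      positivity

end Pool.Agent.N511.LL
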