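import Pool.Agent.N511.LL.Stm

/-!
# LL/J0: the limit law for the primes `n² + a`, assembly (helper279)
-/

set_option autoImplicit false
set_option linter.unusedVariables false

namespace Pool.Agent.N511.LL

open Finset Filter Topology

namespace J0aux

theorem loc_pos {d : ℤ} {p : ℕ} (hp : 3 ≤ p) : 0 < loc d p := by
  unfold loc
  have h1 : (3 : ℝ) ≤ p := by exact_mod_cast hp
  have h2 : (0 : ℝ) < (p : ℝ) - 1 := by linarith
  have h3 : (jacobiSym d p : ℝ) ≤ 1 := by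
    rcases jacobiSym.trichotomy d p with h | h | h <;> rw [h] <;> norm_num
  have h4 : (jacobiSym d p : ℝ) / ((p : ℝ) - 1) ≤ 1 / 2 := by
    rw [div_le_iff₀ h2]
    linarith
  linarith

theorem mem_PP {y p : ℕ} : p ∈ PP y ↔ (3 ≤ p ∧ p ≤ y) ∧ p.Prime := by
  unfold PP
  rw [Finset.mem_filter, Finset.mem_Icc]

theorem T_pos (d : ℤ) (y : ℕ) : 0 < T d y := by
  unfold T
  exact Finset.prod_pos fun p hp => loc_pos (mem_PP.1 hp).1.1

theorem cop (y : ℕ) : Nat.Coprime 4 (Q y) := by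
  unfold Q
  apply Nat.Coprime.prod_right
  intro p hp
  have h1 := mem_PP.1 hp
  have h2 : Nat.Coprime (2 ^ 2) p :=
    Nat.Coprime.pow_left 2 ((Nat.coprime_primes Nat.prime_two h1.2).2 (by omega))
  exact h2

theorem hprod_eq (a z : ℕ) : hprod a z = T (((0 : ℕ) : ℤ) ^ 2 - 4 * (a : ℤ)) z := by
  unfold hprod T
  refine Finset.prod_congr rfl fun p hp => ?_
  have h1 := mem_PP.1 hp
  unfold loc
  have h2 : (((0 : ℕ) : ℤ) ^ 2 - 4 * (a : ℤ)) = (2 : ℤ) ^ 2 * (-(a : ℤ)) := by push_cast; ring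
  have h3 : jacobiSym (2 ^ 2) p = 1 := by
    apply jacobiSym.sq_one'
    have h4 : Nat.Coprime 2 p := (Nat.coprime_primes Nat.prime_two h1.2).2 (by omega)
    exact_mod_cast h4
  rw [h2, jacobiSym.mul_left, h3, one_mul]

theorem card_refl (A : ℕ) (p q : ℕ → Prop) [DecidablePred p] [DecidablePred q]
    (h : ∀ i < A, (p i ↔ q (A - i))) : #((range A).filter p) = #((Icc 1 A).filter q) := by
  apply Finset.card_bij' (fun i _ => A - i) (fun a _ => A - a)
  · intro i hi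
    rw [Finset.mem_filter, Finset.mem_range] at hi
    rw [Finset.mem_filter, Finset.mem_Icc]
    exact ⟨⟨by omega, by omega⟩, (h i hi.1).1 hi.2⟩
  · intro a ha
    rw [Finset.mem_filter, Finset.mem_Icc] at ha
    rw [Finset.mem_filter, Finset.mem_range]
    have h1 : A - (A - a) = a := by omega
    refine ⟨by omega, (h (A - a) (by omega)).2 ?_⟩
    rw [h1]
    exact ha.2
  · intro i hi
    rw [Finset.mem_filter, Finset.mem_range] at hi
    omega
  · intro a ha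
    rw [Finset.mem_filter, Finset.mem_Icc] at ha
    omega

open Classical in
theorem lawU (hE : E0) {ρ : (Unit → ℝ) → (Unit → ℝ) → ℝ}
    (hρ : IsLaw (fun _ : Unit => (0 : ℤ)) ρ) {ε : ℝ} (hε : 0 < ε) :
    ∃ η : ℝ, 0 < η ∧ ∃ y0 : ℕ, ∀ y : ℕ, y0 ≤ y → ∃ M0 : ℕ, ∀ A : ℕ, M0 ≤ A →
      ∀ (Z : ℕ → ℝ) (Ex : Finset ℕ),
      (∀ a ∈ Icc 1 A, a ∉ Ex → |Z a - T (((0 : ℕ) : ℤ) ^ 2 - 4 * (a : ℤ)) y| ≤
        η * T (((0 : ℕ) : ℤ) ^ 2 - 4 * (a : ℤ)) y) → (#Ex : ℝ) ≤ η * A →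
      (∀ a ∈ Icc 1 A, -1 < Z a) → ∀ t : ℝ,
      |(#((Icc 1 A).filter fun a => Z a ≤ t) : ℝ) - A * ρ (fun _ => -1) (fun _ => t)| ≤
        ε * A := by
  obtain ⟨η, hη, y0, hy0⟩ := hE (fun _ : Unit => (0 : ℤ)) ρ hρ ε hε
  refine ⟨η, hη, y0, fun y hy => ?_⟩
  obtain ⟨M0, hM0⟩ := hy0 y hy
  refine ⟨M0, fun A hA Z Ex hZ hEx hZ1 t => ?_⟩
  have hcast : ∀ i < A, (-4 * (A : ℤ) + ((4 : ℕ) : ℤ) * (i : ℤ) + 0) =
      ((0 : ℕ) : ℤ) ^ 2 - 4 * ((A - i : ℕ) : ℤ) := by
    intro i hi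
    rw [Nat.cast_sub hi.le]
    push_cast
    ring
  have h1 := hM0 A hA 4 (-4 * (A : ℤ)) (fun _ i => Z (A - i)) (fun _ i => Z (A - i)) (cop y) ?_
    (fun _ => -1) (fun _ => t)
  · have h2 : #((range A).filter fun i => ∀ j : Unit, (fun _ : Unit => (-1 : ℝ)) j <
        (fun (_ : Unit) (i : ℕ) => Z (A - i)) j i ∧
        (fun (_ : Unit) (i : ℕ) => Z (A - i)) j i ≤ (fun _ : Unit => t) j) =
        #((Icc 1 A).filter fun a => Z a ≤ t) := by
      apply card_refl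
      intro i hi
      constructor
      · intro h
        exact (h ()).2
      · intro h _
        exact ⟨hZ1 _ (Finset.mem_Icc.2 ⟨by omega, by omega⟩), h⟩
    rw [← h2]
    exact h1
  · intro _
    refine le_trans ?_ hEx
    have h2 : #((range A).filter fun i => A - i ∈ Ex) = #((Icc 1 A).filter fun a => a ∈ Ex) :=
      card_refl A _ _ fun i _ => Iff.rfl
    have h3 : #((Icc 1 A).filter fun a => a ∈ Ex) ≤ #Ex :=
      Finset.card_le_card fun a ha => (Finset.mem_filter.1 ha).2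
    rw [← h2] at h3
    refine le_trans ?_ (Nat.cast_le.2 h3)
    apply Nat.cast_le.2
    apply Finset.card_le_card
    intro i hi
    rw [Finset.mem_filter] at hi ⊢
    refine ⟨hi.1, ?_⟩
    by_contra hne
    have hiA := Finset.mem_range.1 hi.1
    have h4 := hZ (A - i) (Finset.mem_Icc.2 ⟨by omega, by omega⟩) hne
    rw [← hcast i hiA] at h4
    rcases hi.2 with h5 | h5
    · exact absurd h4 (not_le.2 h5)
    · exact absurd h4 (not_le.2 h5)

theorem tail {F : ℝ → ℝ} {c : ℝ} (h : ∀ δ : ℝ, 0 < δ → ∃ t0 : ℝ, ∀ t : ℝ, t0 ≤ t →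
    Real.exp (-Real.exp ((c + δ) * t)) ≤ F t ∧ F t ≤ Real.exp (-Real.exp ((c - δ) * t))) :
    Tendsto (fun t : ℝ => Real.log (-Real.log (F t)) / t) atTop (𝓝 c) := by
  rw [Metric.tendsto_atTop]
  intro ε hε
  obtain ⟨t0, ht0⟩ := h (ε / 2) (by linarith)
  refine ⟨max t0 1, fun t ht => ?_⟩
  obtain ⟨h1, h2⟩ := ht0 t (le_trans (le_max_left _ _) ht)
  have htp : 0 < t := lt_of_lt_of_le one_pos (le_trans (le_max_right _ _) ht)
  have hF : 0 < F t := lt_of_lt_of_le (Real.exp_pos _) h1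
  have h3 : -Real.exp ((c + ε / 2) * t) ≤ Real.log (F t) := by
    rw [← Real.log_exp (-Real.exp ((c + ε / 2) * t))]
    exact Real.log_le_log (Real.exp_pos _) h1
  have h4 : Real.log (F t) ≤ -Real.exp ((c - ε / 2) * t) := by
    rw [← Real.log_exp (-Real.exp ((c - ε / 2) * t))]
    exact Real.log_le_log hF h2
  have h5 : Real.exp ((c - ε / 2) * t) ≤ -Real.log (F t) := by linarith
  have h6 : -Real.log (F t) ≤ Real.exp ((c + ε / 2) * t) := by linarith
  have hp : 0 < -Real.log (F t) := lt_of_lt_of_le (Real.exp_pos _) h5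
  have h7 : (c - ε / 2) * t ≤ Real.log (-Real.log (F t)) := by
    rw [← Real.log_exp ((c - ε / 2) * t)]
    exact Real.log_le_log (Real.exp_pos _) h5
  have h8 : Real.log (-Real.log (F t)) ≤ (c + ε / 2) * t := by
    rw [← Real.log_exp ((c + ε / 2) * t)]
    exact Real.log_le_log hp h6
  have h9 : c - ε / 2 ≤ Real.log (-Real.log (F t)) / t := by
    rw [le_div_iff₀ htp]; exact h7
  have h10 : Real.log (-Real.log (F t)) / t ≤ c + ε / 2 := by
    rw [div_le_iff₀ htp]; exact h8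
  rw [Real.dist_eq, abs_lt]
  constructor <;> linarith

theorem tendsto_G {G : ℝ → ℝ} (hG : IsG G) (t : ℝ) :
    Tendsto (fun y : ℕ => Gy y t) atTop (𝓝 (G t)) := by
  rw [Metric.tendsto_atTop]
  intro ε hε
  obtain ⟨y0, hy0⟩ := hG (ε / 2) (by linarith)
  refine ⟨y0, fun y hy => ?_⟩
  rw [Real.dist_eq]
  have := hy0 y hy t
  linarith

theorem li_asymp : Tendsto (fun x : ℝ => (∫ u in (2 : ℝ)..x, 1 / Real.log u) / (x / Real.log x))
    atTop (𝓝 1) := by
  have h1 : Tendsto (fun x : ℝ => Real.log x / x) atTop (𝓝 0) := by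
    have := Real.isLittleO_log_id_atTop.tendsto_div_nhds_zero
    simpa using this
  have h2 : Tendsto (fun x : ℝ => (∫ u in (2 : ℝ)..x, 1 / Real.log u ^ 2) / (x / Real.log x))
      atTop (𝓝 0) := by
    apply Asymptotics.IsLittleO.tendsto_div_nhds_zero
    refine Chebyshev.integral_one_div_log_sq_isBigO.trans_isLittleO ?_
    refine Asymptotics.isLittleO_iff_tendsto' ?_ |>.mpr ?_
    · filter_upwards [eventually_gt_atTop 1] with x hx h0
      have hl : 0 < Real.log x := Real.log_pos hx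
      have : 0 < x / Real.log x := div_pos (by linarith) hl
      exact absurd h0 this.ne'
    · refine Tendsto.congr' (f₁ := fun x ↦ (Real.log x)⁻¹) ?_
        Real.tendsto_log_atTop.inv_tendsto_atTop
      filter_upwards [eventually_gt_atTop 1] with x hx
      have hl : 0 < Real.log x := Real.log_pos hx
      have hx0 : 0 < x := by linarith
      field_simp
  have h3 : Tendsto (fun x : ℝ => 1 - (2 / Real.log 2) * (Real.log x / x) +
      (∫ u in (2 : ℝ)..x, 1 / Real.log u ^ 2) / (x / Real.log x)) atTop (𝓝 1) := by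
    have := ((h1.const_mul (2 / Real.log 2)).const_sub 1).add h2
    simpa using this
  refine h3.congr' ?_
  filter_upwards [eventually_ge_atTop 2] with x hx
  have hne : ∀ u ∈ Set.uIcc 2 x, u ≠ 0 ∧ Real.log u ≠ 0 := by
    intro u hu
    rw [Set.uIcc_of_le hx] at hu
    exact ⟨by linarith [hu.1], (Real.log_pos (by linarith [hu.1])).ne'⟩
  have hc1 : ContinuousOn (fun u : ℝ => 1 / Real.log u) (Set.uIcc 2 x) := by
    intro u hu
    obtain ⟨hu0, hu1⟩ := hne u hu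
    exact (continuousAt_const.div (Real.continuousAt_log hu0) hu1).continuousWithinAt
  have hc2 : ContinuousOn (fun u : ℝ => 1 / Real.log u ^ 2) (Set.uIcc 2 x) := by
    intro u hu
    obtain ⟨hu0, hu1⟩ := hne u hu
    exact (continuousAt_const.div ((Real.continuousAt_log hu0).pow 2)
      (pow_ne_zero 2 hu1)).continuousWithinAt
  have hFTC : ∫ u in (2 : ℝ)..x, (1 / Real.log u - 1 / Real.log u ^ 2) =
      x / Real.log x - 2 / Real.log 2 := by
    apply intervalIntegral.integral_eq_sub_of_hasDerivAt (f := fun u => u / Real.log u)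
    · intro u hu
      obtain ⟨hu0, hu1⟩ := hne u hu
      have h4 := (hasDerivAt_id u).div (Real.hasDerivAt_log hu0) hu1
      refine h4.congr_deriv ?_
      simp only [id]
      field_simp
    · exact (hc1.sub hc2).intervalIntegrable
  rw [intervalIntegral.integral_sub hc1.intervalIntegrable hc2.intervalIntegrable] at hFTC
  have h5 : ∫ u in (2 : ℝ)..x, 1 / Real.log u =
      x / Real.log x - 2 / Real.log 2 + ∫ u in (2 : ℝ)..x, 1 / Real.log u ^ 2 := by linarith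
  rw [h5]
  have hl : 0 < Real.log x := Real.log_pos (by linarith)
  have hx0 : 0 < x := by linarith
  have hl2 : 0 < Real.log 2 := Real.log_pos (by norm_num)
  field_simp

theorem part_h (hE : E0) (hI : I0) {G : ℝ → ℝ} {ρ : (Unit → ℝ) → (Unit → ℝ) → ℝ}
    (hρ : IsLaw (fun _ : Unit => (0 : ℤ)) ρ) (hGρ : ∀ t, G t = ρ (fun _ => -1) (fun _ => t))
    (t : ℝ) {ε : ℝ} (hε : 0 < ε) :
    ∃ X0 : ℕ, ∀ X : ℕ, X0 ≤ X → |(Nat.card {a : ℕ // a ∈ Icc 1 X ∧
      ∃ h : ℝ, Tendsto (hprod a) atTop (𝓝 h) ∧ h ≤ t} : ℝ) / X - G t| ≤ ε := by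
  classical
  obtain ⟨η, hη, y0, hy0⟩ := lawU hE hρ hε
  obtain ⟨y1, hy1⟩ := hI 0 (Or.inl rfl) (1 / 6) η (by norm_num) hη
  obtain ⟨M0, hM0⟩ := hy0 (max y0 y1) (le_max_left _ _)
  obtain ⟨x0, hx0⟩ := hy1 (max y0 y1) (le_max_right _ _)
  refine ⟨max (max M0 x0) 1, fun X hX => ?_⟩
  have hXM : M0 ≤ X := le_trans (le_trans (le_max_left _ _) (le_max_left _ _)) hX
  have hXx : x0 ≤ X := le_trans (le_trans (le_max_right _ _) (le_max_left _ _)) hX
  have hX1 : 1 ≤ X := le_trans (le_max_right _ _) hX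
  have hXp : (0 : ℝ) < X := by exact_mod_cast hX1
  obtain ⟨Ex, hExs, hExc, hEx⟩ := hx0 X hXx X (by norm_num) le_rfl
  let Z : ℕ → ℝ := fun a =>
    if h : ∃ h : ℝ, Tendsto (hprod a) atTop (𝓝 h) then h.choose else |t| + 1
  have hZ1 : ∀ a (h : ℝ), Tendsto (hprod a) atTop (𝓝 h) → Z a = h := by
    intro a h hh
    have hex : ∃ h : ℝ, Tendsto (hprod a) atTop (𝓝 h) := ⟨h, hh⟩
    have h1 : Z a = hex.choose := dif_pos hex
    rw [h1]
    exact tendsto_nhds_unique hex.choose_spec hh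
  have hZ2 : ∀ a, (¬ ∃ h : ℝ, Tendsto (hprod a) atTop (𝓝 h)) → Z a = |t| + 1 :=
    fun a h => dif_neg h
  have hZm : ∀ a, -1 < Z a := by
    intro a
    by_cases h : ∃ h : ℝ, Tendsto (hprod a) atTop (𝓝 h)
    · obtain ⟨h, hh⟩ := h
      rw [hZ1 a h hh]
      have h2 : 0 ≤ h := by
        refine ge_of_tendsto' hh fun z => ?_
        rw [hprod_eq]
        exact (T_pos _ _).le
      linarith
    · rw [hZ2 a h]
      have := abs_nonneg t
      linarith
  have key := hM0 X hXM Z Ex ?_ hExc (fun a _ => hZm a) t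
  · have h3 : Nat.card {a : ℕ // a ∈ Icc 1 X ∧
        ∃ h : ℝ, Tendsto (hprod a) atTop (𝓝 h) ∧ h ≤ t} = #((Icc 1 X).filter fun a => Z a ≤ t) := by
      rw [← Fintype.card_coe, ← Nat.card_eq_fintype_card]
      apply Nat.card_congr
      apply Equiv.subtypeEquivRight
      intro a
      rw [Finset.mem_filter]
      refine and_congr_right fun _ => ?_
      constructor
      · rintro ⟨h, hh, hle⟩
        rw [hZ1 a h hh]
        exact hle
      · intro hle
        by_cases h : ∃ h : ℝ, Tendsto (hprod a) atTop (𝓝 h)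
        · obtain ⟨h, hh⟩ := h
          rw [hZ1 a h hh] at hle
          exact ⟨h, hh, hle⟩
        · rw [hZ2 a h] at hle
          have := le_abs_self t
          linarith
    rw [h3, hGρ]
    have h4 : (#((Icc 1 X).filter fun a => Z a ≤ t) : ℝ) / X - ρ (fun _ => -1) (fun _ => t) =
        ((#((Icc 1 X).filter fun a => Z a ≤ t) : ℝ) - X * ρ (fun _ => -1) (fun _ => t)) / X := by
      field_simp
    rw [h4, abs_div, abs_of_pos hXp, div_le_iff₀ hXp]
    exact key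
  · intro a ha hna
    obtain ⟨⟨h, hh, hle⟩, -⟩ := hEx a ha hna (by norm_num)
    have h5 : Tendsto (hprod a) atTop (𝓝 h) := by
      refine hh.congr fun z => ?_
      rw [hprod_eq]
    rw [hZ1 a h h5]
    exact hle

theorem part_P (hE : E0) (hI : I0) {G : ℝ → ℝ} {ρ : (Unit → ℝ) → (Unit → ℝ) → ℝ}
    (hρ : IsLaw (fun _ : Unit => (0 : ℤ)) ρ) (hGρ : ∀ t, G t = ρ (fun _ => -1) (fun _ => t))
    {ε η' : ℝ} (hε : 0 < ε) (hη' : 0 < η') :
    ∃ N0 : ℕ, ∀ N : ℕ, N0 ≤ N → ∀ A : ℕ, (N : ℝ) ^ (5 / 6 + ε) ≤ A → A ≤ N → ∀ t : ℝ,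
      |(Nat.card {a : ℕ // a ∈ Icc 1 A ∧
        (P a N : ℝ) ≤ t * (1 / 2 * ∫ u in (2 : ℝ)..N, 1 / Real.log u)} : ℝ) / A - G t| ≤ η' := by
  classical
  obtain ⟨η, hη, y0, hy0⟩ := lawU hE hρ hη'
  obtain ⟨κ, hκ0, hκ1, hκ2⟩ : ∃ κ : ℝ, 0 < κ ∧ κ ≤ η / 8 ∧ κ ≤ 1 / 4 :=
    ⟨min (η / 8) (1 / 4), lt_min (by linarith) (by norm_num), min_le_left _ _, min_le_right _ _⟩
  obtain ⟨y1, hy1⟩ := hI 0 (Or.inl rfl) ε κ hε hκ0
  obtain ⟨M0, hM0⟩ := hy0 (max y0 y1) (le_max_left _ _)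
  obtain ⟨x0, hx0⟩ := hy1 (max y0 y1) (le_max_right _ _)
  obtain ⟨y, hy⟩ : ∃ y, y = max y0 y1 := ⟨_, rfl⟩
  rw [← hy] at hM0 hx0
  -- the logarithmic integral
  have hli : Tendsto (fun N : ℕ => ((N : ℝ) / Real.log N) /
      (∫ u in (2 : ℝ)..N, 1 / Real.log u)) atTop (𝓝 1) := by
    have h1 := (li_asymp.comp (tendsto_natCast_atTop_atTop (R := ℝ))).inv₀ one_ne_zero
    rw [inv_one] at h1
    refine h1.congr fun N => ?_
    simp only [Function.comp]
    rw [inv_div]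
  have hev1 : ∀ᶠ N : ℕ in atTop, |((N : ℝ) / Real.log N) /
      (∫ u in (2 : ℝ)..N, 1 / Real.log u) - 1| < κ := by
    have := (Metric.tendsto_nhds.1 hli) κ hκ0
    simpa [Real.dist_eq] using this
  have hev2 : ∀ᶠ N : ℕ in atTop, (M0 : ℝ) + 1 ≤ (N : ℝ) ^ (5 / 6 + ε) :=
    ((tendsto_rpow_atTop (by positivity)).comp
      (tendsto_natCast_atTop_atTop (R := ℝ))).eventually_ge_atTop _
  obtain ⟨N1, hN1⟩ := eventually_atTop.1 (hev1.and hev2)
  refine ⟨max (max N1 x0) 3, fun N hN A hA1 hA2 t => ?_⟩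
  have hNN1 : N1 ≤ N := le_trans (le_trans (le_max_left _ _) (le_max_left _ _)) hN
  have hNx : x0 ≤ N := le_trans (le_trans (le_max_right _ _) (le_max_left _ _)) hN
  have hN3 : 3 ≤ N := le_trans (le_max_right _ _) hN
  obtain ⟨hr, hMA⟩ := hN1 N hNN1
  have hAM : (M0 : ℝ) + 1 ≤ A := le_trans hMA hA1
  have hM0A : M0 ≤ A := by
    have : (M0 : ℝ) ≤ A := by linarith
    exact_mod_cast this
  have hAp : (0 : ℝ) < A := by
    have : (0 : ℝ) ≤ M0 := Nat.cast_nonneg _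
    linarith
  obtain ⟨Ex, hExs, hExc, hEx⟩ := hx0 N hNx A hA1 hA2
  have hNr : (3 : ℝ) ≤ N := by exact_mod_cast hN3
  obtain ⟨L, hL⟩ : ∃ L : ℝ, L = ∫ u in (2 : ℝ)..N, 1 / Real.log u := ⟨_, rfl⟩
  obtain ⟨R, hR⟩ : ∃ R : ℝ, R = (N : ℝ) / Real.log N := ⟨_, rfl⟩
  rw [← hL] at hr ⊢
  rw [← hR] at hr
  have hlogN : 0 < Real.log N := Real.log_pos (by linarith)
  have hRp : 0 < R := by rw [hR]; exact div_pos (by linarith) hlogN
  have hrr := abs_lt.1 hr
  have hLp : 0 < L := by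
    have h1 : 0 < R / L := by linarith [hrr.1]
    rcases lt_trichotomy L 0 with h | h | h
    · exact absurd h1 (not_lt.2 (div_nonpos_of_nonneg_of_nonpos hRp.le h.le))
    · rw [h, div_zero] at h1; exact absurd h1 (lt_irrefl _)
    · exact h
  have key := hM0 A hM0A (fun a => (P a N : ℝ) / (1 / 2 * L)) Ex ?_ ?_ ?_ t
  · have h3 : Nat.card {a : ℕ // a ∈ Icc 1 A ∧ (P a N : ℝ) ≤ t * (1 / 2 * L)} =
        #((Icc 1 A).filter fun a => (P a N : ℝ) / (1 / 2 * L) ≤ t) := by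
      rw [← Fintype.card_coe, ← Nat.card_eq_fintype_card]
      apply Nat.card_congr
      apply Equiv.subtypeEquivRight
      intro a
      rw [Finset.mem_filter]
      refine and_congr_right fun _ => ?_
      rw [div_le_iff₀ (by linarith)]
    rw [h3, hGρ]
    have h4 : ∀ c r : ℝ, c / A - r = (c - A * r) / A := by
      intro c r
      field_simp
    rw [h4, abs_div, abs_of_pos hAp, div_le_iff₀ hAp]
    exact key
  · intro a ha hna
    obtain ⟨-, h5⟩ := hEx a ha hna (by norm_num)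
    have h6 := h5 N le_rfl
    have hTp := T_pos (((0 : ℕ) : ℤ) ^ 2 - 4 * (a : ℤ)) y
    have hPP : #((Icc 1 N).filter (fun m : ℕ => (m ^ 2 + 0 * m + a).Prime)) = P a N := by
      unfold P
      congr 1
      apply Finset.filter_congr
      intro m _
      rw [zero_mul, add_zero]
    obtain ⟨Ta, hTa⟩ : ∃ Ta, Ta = T (((0 : ℕ) : ℤ) ^ 2 - 4 * (a : ℤ)) y := ⟨_, rfl⟩
    rw [← hTa] at h6 hTp ⊢
    have h7 : |(P a N : ℝ) - Ta * R / 2| ≤ κ * (Ta * R) := by
      rw [← hPP, hR]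
      have h8 : ((1 : ℝ) + ((0 : ℕ) : ℝ)) * Ta * ((N : ℝ) / (2 * Real.log N)) =
          Ta * ((N : ℝ) / Real.log N) / 2 := by
        push_cast
        field_simp
        ring
      rw [← h8]
      exact h6
    have h9 : (P a N : ℝ) / (1 / 2 * L) - Ta =
        ((P a N : ℝ) - Ta * R / 2) * (2 / L) + Ta * (R / L - 1) := by
      field_simp
      ring
    rw [h9]
    have h10 : |((P a N : ℝ) - Ta * R / 2) * (2 / L)| ≤ κ * (Ta * R) * (2 / L) := by
      rw [abs_mul, abs_of_pos (by positivity : (0 : ℝ) < 2 / L)]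
      exact mul_le_mul_of_nonneg_right h7 (by positivity)
    have h11 : |Ta * (R / L - 1)| ≤ Ta * κ := by
      rw [abs_mul, abs_of_pos hTp]
      exact mul_le_mul_of_nonneg_left hr.le hTp.le
    have h12 : κ * (Ta * R) * (2 / L) = 2 * κ * Ta * (R / L) := by
      field_simp
    have h13 : R / L ≤ 2 := by linarith [hrr.2]
    have h14 : 2 * κ * Ta * (R / L) ≤ 2 * κ * Ta * 2 :=
      mul_le_mul_of_nonneg_left h13 (by positivity)
    have h15 : κ * Ta ≤ η / 8 * Ta := mul_le_mul_of_nonneg_right hκ1 hTp.le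
    have h16 := abs_add_le (((P a N : ℝ) - Ta * R / 2) * (2 / L)) (Ta * (R / L - 1))
    have h17 : 0 < η * Ta := mul_pos hη hTp
    nlinarith
  · have : κ * A ≤ η * A := mul_le_mul_of_nonneg_right (by linarith) hAp.le
    exact le_trans hExc this
  · intro a _
    have : 0 ≤ (P a N : ℝ) / (1 / 2 * L) := by positivity
    linarith

end J0aux

open J0aux

theorem j0 (hA : A0) (hC : C0) (hE : E0) (hD : D0) (hG : G0) (hM : M0) (h1 : H1) (h2 : H2)
    (h3 : H3) (h4 : H4) (hI : I0) : J0 := by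
  classical
  obtain ⟨G, hIsG, hGc, hG0, hGm, hG1, hGρ⟩ := hG
  obtain ⟨-, C2, hC2, hC2t, hC2m⟩ := hM
  obtain ⟨ρ, hρ⟩ := hD (fun _ : Unit => (0 : ℤ))
  have hGρ' := hGρ ρ hρ
  have heg : ∀ x : ℝ, x / eg = x * Real.exp (-Real.eulerMascheroniConstant) := by
    intro x
    rw [eg, Real.exp_neg, div_eq_mul_inv]
  refine ⟨G, C2, hGc, hG0, hGm, hG1, hC2t, ?_, ?_, ?_, ?_⟩
  · rw [← heg 2]
    apply tail
    intro δ hδ
    obtain ⟨t1, ht1⟩ := h1 δ hδ
    obtain ⟨t2, ht2⟩ := h2 δ hδ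
    refine ⟨max t1 t2, fun t ht => ⟨?_, ?_⟩⟩
    · obtain ⟨y0, hy0⟩ := ht1 t (le_trans (le_max_left _ _) ht)
      refine ge_of_tendsto ((tendsto_G hIsG t).const_sub 1) ?_
      exact eventually_atTop.2 ⟨y0, hy0⟩
    · exact le_of_tendsto' ((tendsto_G hIsG t).const_sub 1)
        (ht2 t (le_trans (le_max_right _ _) ht))
  · have h5 : 2 * C2 * Real.exp (-Real.eulerMascheroniConstant) = 2 * C2 / eg := by
      rw [heg]
    rw [h5]
    apply tail (F := fun t => G (1 / t))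
    intro δ hδ
    obtain ⟨t1, ht1⟩ := h3 C2 hC2 hC2m δ hδ
    obtain ⟨t2, ht2⟩ := h4 C2 hC2 hC2m δ hδ
    refine ⟨max t1 t2, fun t ht => ⟨?_, ?_⟩⟩
    · obtain ⟨y0, hy0⟩ := ht1 t (le_trans (le_max_left _ _) ht)
      refine ge_of_tendsto (tendsto_G hIsG (1 / t)) ?_
      exact eventually_atTop.2 ⟨y0, hy0⟩
    · exact le_of_tendsto' (tendsto_G hIsG (1 / t)) (ht2 t (le_trans (le_max_right _ _) ht))
  · intro t
    rw [Metric.tendsto_atTop]
    intro ε hε
    obtain ⟨X0, hX0⟩ := part_h hE hI hρ hGρ' t (half_pos hε)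
    refine ⟨X0, fun X hX => ?_⟩
    rw [Real.dist_eq]
    have h5 := hX0 X hX
    have h6 : Nat.card {a : ℕ // a ∈ Icc 1 X ∧
        ∃ h : ℝ, Tendsto (hprod a) atTop (𝓝 h) ∧ h ≤ t} = #((Icc 1 X).filter (fun a : ℕ =>
      ∃ h : ℝ, Tendsto (hprod a) atTop (𝓝 h) ∧ h ≤ t)) := by
      rw [← Fintype.card_coe, ← Nat.card_eq_fintype_card]
      apply Nat.card_congr
      apply Equiv.subtypeEquivRight
      intro a
      rw [Finset.mem_filter]
    rw [h6] at h5
    refine lt_of_le_of_lt ?_ (half_lt_self hε)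
    convert h5
  · intro ε η hε hη
    obtain ⟨N0, hN0⟩ := part_P hE hI hρ hGρ' hε hη
    refine ⟨N0, fun N hN A hA1 hA2 t => ?_⟩
    have h5 := hN0 N hN A hA1 hA2 t
    have h6 : Nat.card {a : ℕ // a ∈ Icc 1 A ∧
        (P a N : ℝ) ≤ t * (1 / 2 * ∫ u in (2 : ℝ)..N, 1 / Real.log u)} =
        #((Icc 1 A).filter (fun a : ℕ =>
          (P a N : ℝ) ≤ t * (1 / 2 * ∫ u in (2 : ℝ)..N, 1 / Real.log u))) := by
      rw [← Fintype.card_coe, ← Nat.card_eq_fintype_card]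
      apply Nat.card_congr
      apply Equiv.subtypeEquivRight
      intro a
      rw [Finset.mem_filter]
    rw [h6] at h5
    convert h5

end Pool.Agent.N511.LL
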