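import Pool.Agent.N511.LL.Stm

/-!
# LL/K0: final assembly for `x² + x + A`, joint law (helper712)
-/

set_option autoImplicit false

namespace Pool.Agent.N511.LL.KK

open Finset Filter Topology Classical
open Pool.Agent.N511.LL

/-! ### elementary facts on the truncated products -/

lemma loc_lb (d : ℤ) {p : ℕ} (hp : 3 ≤ p) : 1 / 2 ≤ loc d p := by
  unfold loc
  have h1 : (jacobiSym d p : ℝ) ≤ 1 := by
    rcases jacobiSym.trichotomy d p with h | h | h <;> rw [h] <;> norm_num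
  have h2 : (3:ℝ) ≤ p := by exact_mod_cast hp
  have h3 : (jacobiSym d p : ℝ) / ((p:ℝ) - 1) ≤ 1 / 2 := by
    rw [div_le_div_iff₀ (by linarith) (by norm_num)]
    linarith
  linarith

lemma T_lb (d : ℤ) (y : ℕ) : (1 / 2 : ℝ) ^ #(PP y) ≤ T d y := by
  unfold T
  rw [← prod_const]
  refine prod_le_prod (fun _ _ => by norm_num) fun p hp => loc_lb d ?_
  unfold PP at hp
  exact (mem_Icc.1 (mem_filter.1 hp).1).1

lemma T_pos (d : ℤ) (y : ℕ) : 0 < T d y := lt_of_lt_of_le (by positivity) (T_lb d y)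

lemma CA_eq (A y : ℕ) : CA A y = T (1 - 4 * (A:ℤ)) y := rfl

lemma cop (y r : ℕ) : Nat.Coprime (2 ^ r) (Q y) := by
  apply Nat.Coprime.pow_left
  unfold Q
  refine Nat.Coprime.prod_right fun p hp => ?_
  unfold PP at hp
  have h := mem_filter.1 hp
  have h3 := (mem_Icc.1 h.1).1
  exact (Nat.coprime_primes Nat.prime_two h.2).2 (by omega)

lemma Q_pos (y : ℕ) : 0 < Q y := by
  unfold Q
  refine Finset.prod_pos fun p hp => ?_
  unfold PP at hp
  exact (mem_filter.1 hp).2.pos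

lemma box_iff {k : ℕ} (s : Fin k → ℕ) (α β : Fin k → ℝ) (y A : ℕ) :
    InBox y (fun j => -8 * (s j : ℤ)) α β (1 - 4 * (A:ℤ)) ↔
      ∀ j, α j < CA (A + 2 * s j) y ∧ CA (A + 2 * s j) y ≤ β j := by
  unfold InBox
  refine forall_congr' fun j => ?_
  rw [CA_eq]
  have : (1 - 4 * ((A + 2 * s j : ℕ) : ℤ)) = 1 - 4 * (A:ℤ) + -8 * (s j : ℤ) := by push_cast; ring
  rw [this]

lemma refl_card (n : ℕ) (p q : ℕ → Prop) [DecidablePred p] [DecidablePred q] (h : ∀ i < n, (p i ↔ q (n - 1 - i))) :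
    #((range n).filter p) = #((range n).filter q) := by
  refine card_nbij' (fun i => n - 1 - i) (fun i => n - 1 - i) ?_ ?_ ?_ ?_
  · intro i hi
    simp only [coe_filter, mem_range, Set.mem_ofPred_eq] at hi ⊢
    exact ⟨by omega, (h i hi.1).1 hi.2⟩
  · intro i hi
    simp only [coe_filter, mem_range, Set.mem_ofPred_eq] at hi ⊢
    refine ⟨by omega, (h (n - 1 - i) (by omega)).2 ?_⟩
    have : n - 1 - (n - 1 - i) = i := by omega
    rw [this]; exact hi.2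
  · intro i hi
    simp only [coe_filter, mem_range, Set.mem_ofPred_eq] at hi
    show n - 1 - (n - 1 - i) = i
    omega
  · intro i hi
    simp only [coe_filter, mem_range, Set.mem_ofPred_eq] at hi
    show n - 1 - (n - 1 - i) = i
    omega

/-- the proportion of the residue classes -/
lemma prop_eq (hC : C0) {k : ℕ} (s : Fin k → ℕ) (α β : Fin k → ℝ) (y : ℕ) :
    (#((range (Q y)).filter (fun A : ℕ => ∀ j, α j < CA (A + 2 * s j) y ∧ CA (A + 2 * s j) y ≤ β j)) : ℝ) =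
      Q y * Gb y (fun j => -8 * (s j : ℤ)) α β := by
  have h := (@hC (Fin k) y (fun j => -8 * (s j : ℤ)) α β 4 (Q y) (1 - 4 * ((Q y:ℤ) - 1)) (cop y 2)).2 (dvd_refl _)
  rw [← h]
  congr 1
  refine refl_card (Q y) _ _ fun i hi => ?_
  rw [← box_iff]
  have : (1 - 4 * ((Q y:ℤ) - 1)) + ((4:ℕ):ℤ) * ((Q y - 1 - i : ℕ) : ℤ) = 1 - 4 * (i:ℤ) := by
    have e : ((Q y - 1 - i : ℕ) : ℤ) = (Q y : ℤ) - 1 - i := by omega
    rw [e]; push_cast; ring
  rw [this]

/-! ### the integral -/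

lemma int_bounds (x c n w θ L : ℝ) (hL : L = Real.log x) (hx : 1 < x) (hc3 : 3 ≤ c) (hcx : c ≤ x)
    (hnx : n ≤ x) (hw0 : 0 < w) (hwn : w ≤ n) (hθ0 : 0 < θ) (hθ : θ ≤ 1 / 2)
    (h4 : Real.log 4 ≤ θ * L) (hw : (1 - θ) * L ≤ Real.log w) :
    2 * ∫ t in (0:ℝ)..n, 1 / Real.log (t ^ 2 + t + c) ≤ 2 * w + n / ((1 - θ) * L) ∧
      n / ((1 + θ) * L) ≤ 2 * ∫ t in (0:ℝ)..n, 1 / Real.log (t ^ 2 + t + c) := by
  have hL0 : 0 < L := by rw [hL]; exact Real.log_pos hx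
  have hn0 : 0 ≤ n := by linarith
  have hlog : ∀ t : ℝ, 0 ≤ t → 1 ≤ Real.log (t ^ 2 + t + c) := by
    intro t ht
    rw [Real.le_log_iff_exp_le (by positivity)]
    have := Real.exp_one_lt_d9
    nlinarith [sq_nonneg t]
  have hcont : ContinuousOn (fun t : ℝ => 1 / Real.log (t ^ 2 + t + c)) (Set.Icc 0 n) := by
    refine ContinuousOn.div continuousOn_const (ContinuousOn.log (by fun_prop) fun t ht => ?_) fun t ht => ?_
    · have := ht.1; positivity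
    · have := hlog t ht.1; linarith
  have hII : ∀ a b : ℝ, 0 ≤ a → a ≤ b → b ≤ n →
      IntervalIntegrable (fun t : ℝ => 1 / Real.log (t ^ 2 + t + c)) MeasureTheory.volume a b := by
    intro a b ha hab hb
    refine (hcont.mono ?_).intervalIntegrable
    rw [Set.uIcc_of_le hab]
    exact Set.Icc_subset_Icc ha hb
  constructor
  · rw [← intervalIntegral.integral_add_adjacent_intervals (hII 0 w le_rfl hw0.le hwn) (hII w n hw0.le hwn le_rfl)]
    have h1 : ∫ t in (0:ℝ)..w, 1 / Real.log (t ^ 2 + t + c) ≤ ∫ t in (0:ℝ)..w, (1:ℝ) := by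
      refine intervalIntegral.integral_mono_on hw0.le (hII 0 w le_rfl hw0.le hwn) intervalIntegrable_const
        fun t ht => ?_
      have := hlog t ht.1
      rw [div_le_one (by linarith)]
      exact this
    have h2 : ∫ t in w..n, 1 / Real.log (t ^ 2 + t + c) ≤ ∫ t in w..n, 1 / (2 * ((1 - θ) * L)) := by
      refine intervalIntegral.integral_mono_on hwn (hII w n hw0.le hwn le_rfl) intervalIntegrable_const
        fun t ht => ?_
      have ht0 : 0 < t := lt_of_lt_of_le hw0 ht.1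
      have e1 : Real.log (t ^ 2) ≤ Real.log (t ^ 2 + t + c) := Real.log_le_log (by positivity) (by linarith)
      rw [Real.log_pow] at e1
      have e2 : Real.log w ≤ Real.log t := Real.log_le_log hw0 ht.1
      have e3 : 0 < (1 - θ) * L := by
        apply mul_pos _ hL0; linarith
      push_cast at e1
      exact one_div_le_one_div_of_le (by positivity) (by linarith)
    rw [intervalIntegral.integral_const, smul_eq_mul] at h1 h2
    have e3 : 0 < (1 - θ) * L := by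
      apply mul_pos _ hL0; linarith
    have h3 : (n - w) * (1 / (2 * ((1 - θ) * L))) ≤ n / ((1 - θ) * L) / 2 := by
      have : n / ((1 - θ) * L) / 2 = n * (1 / (2 * ((1 - θ) * L))) := by field_simp
      rw [this]
      exact mul_le_mul_of_nonneg_right (by linarith) (by positivity)
    linarith
  · have h2 : ∫ t in (0:ℝ)..n, 1 / ((2 + θ) * L) ≤ ∫ t in (0:ℝ)..n, 1 / Real.log (t ^ 2 + t + c) := by
      refine intervalIntegral.integral_mono_on hn0 intervalIntegrable_const (hII 0 n le_rfl hn0 le_rfl)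
        fun t ht => ?_
      have e1 := hlog t ht.1
      have htx : t ≤ x := ht.2.trans hnx
      have e2 : t ^ 2 + t + c ≤ 4 * x ^ 2 := by nlinarith [ht.1]
      have e3 : Real.log (t ^ 2 + t + c) ≤ Real.log (4 * x ^ 2) :=
        Real.log_le_log (by have := ht.1; positivity) e2
      rw [Real.log_mul (by norm_num) (by positivity), Real.log_pow] at e3
      push_cast at e3
      rw [← hL] at e3
      exact one_div_le_one_div_of_le (by linarith) (by linarith)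
    rw [intervalIntegral.integral_const, smul_eq_mul, sub_zero] at h2
    have h3 : n / ((1 + θ) * L) ≤ 2 * (n * (1 / ((2 + θ) * L))) := by
      have : 2 * (n * (1 / ((2 + θ) * L))) = n / ((1 + θ / 2) * L) := by field_simp
      rw [this]
      refine div_le_div_of_nonneg_left hn0 (by positivity) ?_
      refine mul_le_mul_of_nonneg_right ?_ hL0.le
      linarith
    linarith

lemma LA_est (S : ℕ) (κ θ : ℝ) (hκ : 0 < κ) (hθ : 0 < θ) :
    ∃ N0 : ℕ, ∀ N : ℕ, N0 ≤ N → ∀ c n : ℕ, 3 ≤ c → c ≤ N + 2 * S → κ * N ≤ n → n ≤ N →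
      |LA c n - n / Real.log ((N + 2 * S : ℕ) : ℝ)| ≤ θ * (n / Real.log ((N + 2 * S : ℕ) : ℝ)) := by
  obtain ⟨τ, hτ0, hτ1, hτ2⟩ : ∃ τ : ℝ, 0 < τ ∧ τ ≤ 1 / 2 ∧ 4 * τ ≤ θ :=
    ⟨min (1 / 2) (θ / 4), by positivity, min_le_left _ _, by have := min_le_right (1 / 2) (θ / 4); linarith⟩
  have h1 := (isLittleO_log_rpow_atTop hτ0).def (show 0 < τ * κ / 2 by positivity)
  have h2 : ∀ᶠ x : ℝ in atTop, Real.log 4 ≤ τ * Real.log x :=
    (Real.tendsto_log_atTop.const_mul_atTop hτ0).eventually_ge_atTop _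
  have h3 : Tendsto (fun N : ℕ => ((N + 2 * S : ℕ) : ℝ)) atTop atTop :=
    tendsto_natCast_atTop_atTop.comp (tendsto_add_atTop_nat (2 * S))
  obtain ⟨N0, hN0⟩ := eventually_atTop.1 ((h3.eventually h1).and ((h3.eventually h2).and
    (eventually_ge_atTop (2 * S + 3))))
  refine ⟨N0, fun N hN c n hc3 hcN hκn hnN => ?_⟩
  obtain ⟨a1, a2, a3⟩ := hN0 N hN
  set x : ℝ := ((N + 2 * S : ℕ) : ℝ) with hx
  have hxN : x ≤ 2 * N := by rw [hx]; exact_mod_cast (by omega : N + 2 * S ≤ 2 * N)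
  have hNx : (N:ℝ) ≤ x := by rw [hx]; exact_mod_cast (by omega : N ≤ N + 2 * S)
  have hN3 : (3:ℝ) ≤ N := by exact_mod_cast (by omega : 3 ≤ N)
  have hx1 : 1 < x := by linarith
  have hx0 : 0 < x := by linarith
  set L := Real.log x with hL
  have hL0 : 0 < L := Real.log_pos hx1
  have hτx : 0 < x ^ τ := Real.rpow_pos_of_pos hx0 _
  rw [Real.norm_of_nonneg hL0.le, Real.norm_of_nonneg hτx.le] at a1
  have hnr : (0:ℝ) ≤ n := Nat.cast_nonneg n
  -- the cut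
  set w := x ^ (1 - τ) with hw
  have hw0 : 0 < w := Real.rpow_pos_of_pos hx0 _
  have hwx : w * x ^ τ = x := by rw [hw, ← Real.rpow_add hx0]; simp
  have hwn : w * L ≤ τ * n := by
    have e1 : w * L ≤ w * (τ * κ / 2 * x ^ τ) := mul_le_mul_of_nonneg_left a1 hw0.le
    have e2 : w * (τ * κ / 2 * x ^ τ) = τ * κ / 2 * (w * x ^ τ) := by ring
    rw [e2, hwx] at e1
    have e3 : τ * κ / 2 * x ≤ τ * (κ * N) := by
      have : τ * κ / 2 * x ≤ τ * κ / 2 * (2 * N) := mul_le_mul_of_nonneg_left hxN (by positivity)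
      linarith
    have e4 : τ * (κ * N) ≤ τ * n := mul_le_mul_of_nonneg_left hκn hτ0.le
    linarith
  have hL1 : 1 ≤ L := by
    rw [hL, Real.le_log_iff_exp_le hx0]
    have := Real.exp_one_lt_d9
    linarith
  have hwn' : w ≤ n := by
    have e1 : w * 1 ≤ w * L := mul_le_mul_of_nonneg_left hL1 hw0.le
    nlinarith
  have hlw : (1 - τ) * L ≤ Real.log w := by rw [hw, Real.log_rpow hx0]
  obtain ⟨b1, b2⟩ := int_bounds x c n w τ L hL hx1 (by exact_mod_cast hc3) (by rw [hx]; exact_mod_cast hcN)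
    (by have : (n:ℝ) ≤ N := by exact_mod_cast hnN
        linarith) hw0 hwn' hτ0 hτ1 a2 hlw
  have hLA : LA c n = 2 * ∫ t in (0:ℝ)..n, 1 / Real.log (t ^ 2 + t + c) := rfl
  rw [hLA]
  set J := ∫ t in (0:ℝ)..n, 1 / Real.log (t ^ 2 + t + c) with hJ
  have c1 : w ≤ τ * (n / L) := by
    rw [mul_div_assoc', le_div_iff₀ hL0]; exact hwn
  have c2 : n / ((1 - τ) * L) ≤ (1 + 2 * τ) * (n / L) := by
    have e1 : 0 < 1 - τ := by linarith
    rw [mul_div_assoc', div_le_div_iff₀ (by positivity) hL0]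
    have e2 : 1 ≤ (1 + 2 * τ) * (1 - τ) := by nlinarith
    have e3 : (n:ℝ) * 1 ≤ n * ((1 + 2 * τ) * (1 - τ)) := mul_le_mul_of_nonneg_left e2 hnr
    nlinarith
  have c3 : (1 - τ) * (n / L) ≤ n / ((1 + τ) * L) := by
    rw [mul_div_assoc', div_le_div_iff₀ hL0 (by positivity)]
    have e2 : (1 - τ) * (1 + τ) ≤ 1 := by nlinarith [sq_nonneg τ]
    have e3 : (n:ℝ) * ((1 - τ) * (1 + τ)) ≤ n * 1 := mul_le_mul_of_nonneg_left e2 hnr
    nlinarith
  have c4 : 4 * τ * (n / L) ≤ θ * (n / L) := mul_le_mul_of_nonneg_right hτ2 (by positivity)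
  have c5 : 0 ≤ n / L := by positivity
  rw [abs_le]
  constructor
  · nlinarith
  · nlinarith

/-! ### the prime counts -/

lemma PA_diff (c n : ℕ) :
    |(PA c n : ℝ) - (#((Icc 1 n).filter fun m : ℕ => (m ^ 2 + 1 * m + c).Prime) : ℝ)| ≤ 1 := by
  have h : range (n + 1) = insert 0 (Icc 1 n) := by
    ext m; simp only [mem_range, mem_insert, mem_Icc]; omega
  unfold PA
  rw [h, filter_insert]
  simp only [one_mul]
  split_ifs with h0
  · rw [card_insert_of_notMem (by simp)]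
    push_cast
    rw [abs_of_nonneg (by linarith)]
    linarith
  · simp

/-- one value of `c`: the ratio is near `T` -/
lemma ratio_est {P0 LA0 T0 n x L κ ηI ηL ηE : ℝ} (hT : 0 < T0) (hn : 0 < n) (hL : 0 < L) (hκ : 0 < κ)
    (hηI : 0 ≤ ηI) (hηL : 0 ≤ ηL) (hηL2 : ηL ≤ 1 / 2)
    (hsum : 2 * (4 * ηI / κ + ηL) ≤ ηE) (hx : x * κ ≤ 2 * n)
    (h1 : |P0 - T0 * (n / L)| ≤ 2 * (ηI * (T0 * (x / L)))) (h2 : |LA0 - n / L| ≤ ηL * (n / L)) :
    |P0 / LA0 - T0| ≤ ηE * T0 ∧ 0 < LA0 := by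
  have hnL : 0 < n / L := by positivity
  have h3 : (1 / 2) * (n / L) ≤ LA0 := by
    have := (abs_le.1 h2).1
    have : ηL * (n / L) ≤ 1 / 2 * (n / L) := mul_le_mul_of_nonneg_right hηL2 hnL.le
    linarith
  have hLA : 0 < LA0 := lt_of_lt_of_le (by positivity) h3
  refine ⟨?_, hLA⟩
  have hx' : x / L ≤ 2 / κ * (n / L) := by
    have e : 2 / κ * (n / L) = (2 * n) / κ / L := by ring
    rw [e]
    refine div_le_div_of_nonneg_right ?_ hL.le
    rw [le_div_iff₀ hκ]; exact hx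
  have h4 : |P0 - T0 * (n / L)| ≤ (4 * ηI / κ) * (T0 * (n / L)) := by
    refine h1.trans ?_
    have e1 : ηI * (T0 * (x / L)) ≤ ηI * (T0 * (2 / κ * (n / L))) :=
      mul_le_mul_of_nonneg_left (mul_le_mul_of_nonneg_left hx' hT.le) hηI
    have e2 : ηI * (T0 * (2 / κ * (n / L))) = (2 * ηI / κ) * (T0 * (n / L)) := by ring
    have e3 : 2 * ((2 * ηI / κ) * (T0 * (n / L))) = (4 * ηI / κ) * (T0 * (n / L)) := by ring
    linarith
  have e : P0 / LA0 - T0 = (P0 - T0 * LA0) / LA0 := by field_simp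
  rw [e, abs_div, abs_of_pos hLA, div_le_iff₀ hLA]
  have h5 : |P0 - T0 * LA0| ≤ (4 * ηI / κ) * (T0 * (n / L)) + T0 * (ηL * (n / L)) := by
    have e1 : P0 - T0 * LA0 = (P0 - T0 * (n / L)) + -(T0 * (LA0 - n / L)) := by ring
    rw [e1]
    refine (abs_add_le _ _).trans (add_le_add h4 ?_)
    rw [abs_neg, abs_mul, abs_of_pos hT]
    exact mul_le_mul_of_nonneg_left h2 hT.le
  have h6 : (4 * ηI / κ) * (T0 * (n / L)) + T0 * (ηL * (n / L)) =
      (2 * (4 * ηI / κ + ηL)) * (T0 * ((1 / 2) * (n / L))) := by ring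
  have h7 : (2 * (4 * ηI / κ + ηL)) * (T0 * ((1 / 2) * (n / L))) ≤ ηE * (T0 * LA0) := by
    refine mul_le_mul hsum (mul_le_mul_of_nonneg_left h3 hT.le) (by positivity) ?_
    have : 0 ≤ 2 * (4 * ηI / κ + ηL) := by positivity
    linarith
  linarith

/-- `x^(5/6+ε/2) ≤ C` for `x = N + 2 S` -/
lemma len_ok (S : ℕ) (ε : ℝ) (hε : 0 < ε) : ∃ N0 : ℕ, ∀ N : ℕ, N0 ≤ N →
    ((N + 2 * S : ℕ) : ℝ) ^ (5 / 6 + ε / 2) ≤ (N:ℝ) ^ (5 / 6 + ε) := by
  have h1 : Tendsto (fun N : ℕ => (N:ℝ) ^ (ε / 2)) atTop atTop :=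
    (tendsto_rpow_atTop (by linarith)).comp tendsto_natCast_atTop_atTop
  obtain ⟨N0, hN0⟩ := eventually_atTop.1 ((h1.eventually_ge_atTop ((2:ℝ) ^ (5 / 6 + ε / 2))).and
    (eventually_ge_atTop (2 * S + 1)))
  refine ⟨N0, fun N hN => ?_⟩
  obtain ⟨a1, a2⟩ := hN0 N hN
  have hN1 : (0:ℝ) < N := by exact_mod_cast (by omega : 0 < N)
  have h2 : ((N + 2 * S : ℕ) : ℝ) ≤ 2 * N := by exact_mod_cast (by omega : N + 2 * S ≤ 2 * N)
  calc ((N + 2 * S : ℕ) : ℝ) ^ (5 / 6 + ε / 2) ≤ (2 * (N:ℝ)) ^ (5 / 6 + ε / 2) :=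
        Real.rpow_le_rpow (Nat.cast_nonneg _) h2 (by linarith)
    _ = 2 ^ (5 / 6 + ε / 2) * (N:ℝ) ^ (5 / 6 + ε / 2) := Real.mul_rpow (by norm_num) hN1.le
    _ ≤ (N:ℝ) ^ (ε / 2) * (N:ℝ) ^ (5 / 6 + ε / 2) := mul_le_mul_of_nonneg_right a1 (by positivity)
    _ = (N:ℝ) ^ (5 / 6 + ε) := by rw [← Real.rpow_add hN1]; congr 1; ring

lemma pow_large (ε : ℝ) (hε : 0 < ε) (K : ℝ) : ∃ N0 : ℕ, ∀ N : ℕ, N0 ≤ N → K ≤ (N:ℝ) ^ (5 / 6 + ε) := by
  have h1 : Tendsto (fun N : ℕ => (N:ℝ) ^ (5 / 6 + ε)) atTop atTop :=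
    (tendsto_rpow_atTop (by linarith)).comp tendsto_natCast_atTop_atTop
  exact eventually_atTop.1 (h1.eventually_ge_atTop K)

/-- the counts in terms of the truncated products -/
lemma core_est (hI : I0) (S : ℕ) (ε κ ηE : ℝ) (hε : 0 < ε) (hκ : 0 < κ) (hκ1 : κ ≤ 1) (hηE : 0 < ηE) :
    ∃ y0 : ℕ, ∀ y : ℕ, y0 ≤ y → ∃ N0 : ℕ, ∀ N : ℕ, N0 ≤ N → ∀ C : ℕ, (N:ℝ) ^ (5 / 6 + ε) ≤ C → C ≤ N →
      ∃ Ex : Finset ℕ, (#Ex : ℝ) ≤ ηE * ((C - 1) / 2 : ℕ) ∧ ∀ c : ℕ, 3 ≤ c → c ≤ C + 2 * S → Odd c →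
        ∀ n : ℕ, κ * N ≤ n → n ≤ N → 0 < LA c n ∧
          (c ∉ Ex → |(PA c n : ℝ) / LA c n - T (1 - 4 * (c:ℤ)) y| ≤ ηE * T (1 - 4 * (c:ℤ)) y) := by
  obtain ⟨ηL, hηL0, hηL1, hηL2⟩ : ∃ t : ℝ, 0 < t ∧ t ≤ 1 / 2 ∧ 4 * t ≤ ηE :=
    ⟨min (1 / 2) (ηE / 4), by positivity, min_le_left _ _, by have := min_le_right (1 / 2) (ηE / 4); linarith⟩
  obtain ⟨ηI, hηI0, hηI1⟩ : ∃ t : ℝ, 0 < t ∧ 16 * t ≤ κ * ηE := ⟨κ * ηE / 16, by positivity, by linarith⟩
  have hηIE : 8 * ηI ≤ ηE := by nlinarith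
  have hsum : 2 * (4 * ηI / κ + ηL) ≤ ηE := by
    have e1 : 4 * ηI / κ ≤ ηE / 4 := by
      rw [div_le_iff₀ hκ]; linarith
    linarith
  obtain ⟨y0, hy0⟩ := hI 1 (Or.inr rfl) (ε / 2) ηI (by linarith) hηI0
  obtain ⟨N1, hN1⟩ := LA_est S κ ηL hκ hηL0
  obtain ⟨N2, hN2⟩ := len_ok S ε hε
  obtain ⟨N3, hN3⟩ := pow_large ε hε ((2 * S : ℕ) + 8)
  refine ⟨y0, fun y hy => ?_⟩
  obtain ⟨x0, hx0⟩ := hy0 y hy
  -- the value `m = 0` is negligible
  have h4 := (Real.isLittleO_log_id_atTop).def (show 0 < ηI * (1 / 2 : ℝ) ^ #(PP y) by positivity)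
  have h5 : Tendsto (fun N : ℕ => ((N + 2 * S : ℕ) : ℝ)) atTop atTop :=
    tendsto_natCast_atTop_atTop.comp (tendsto_add_atTop_nat (2 * S))
  obtain ⟨N4, hN4⟩ := eventually_atTop.1 (h5.eventually h4)
  refine ⟨N1 + N2 + N3 + N4 + x0 + 2 * S + 3, fun N hN C hC hCN => ?_⟩
  set x := N + 2 * S with hx
  have hC' : (x:ℝ) ^ (5 / 6 + ε / 2) ≤ (C + 2 * S : ℕ) := by
    have := hN2 N (by omega)
    have e : (C:ℝ) ≤ (C + 2 * S : ℕ) := by exact_mod_cast (by omega : C ≤ C + 2 * S)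
    linarith
  obtain ⟨Ex, -, hEx2, hEx3⟩ := hx0 x (by omega) (C + 2 * S) hC' (by omega)
  have hCbig := (hN3 N (by omega)).trans hC
  have hCbig' : 2 * S + 8 ≤ C := by exact_mod_cast hCbig
  refine ⟨Ex, ?_, ?_⟩
  · refine hEx2.trans ?_
    have e1 : C + 2 * S ≤ 8 * ((C - 1) / 2) := by omega
    have e2 : ((C + 2 * S : ℕ) : ℝ) ≤ 8 * (((C - 1) / 2 : ℕ) : ℝ) := by exact_mod_cast e1
    calc ηI * ((C + 2 * S : ℕ) : ℝ) ≤ ηI * (8 * (((C - 1) / 2 : ℕ) : ℝ)) := mul_le_mul_of_nonneg_left e2 hηI0.le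
      _ = (8 * ηI) * (((C - 1) / 2 : ℕ) : ℝ) := by ring
      _ ≤ ηE * (((C - 1) / 2 : ℕ) : ℝ) := mul_le_mul_of_nonneg_right hηIE (Nat.cast_nonneg _)
  · intro c hc3 hcC hodd n hn1 hn2
    have hNr : (3:ℝ) ≤ N := by exact_mod_cast (by omega : 3 ≤ N)
    have hn0 : (0:ℝ) < n := lt_of_lt_of_le (by positivity) hn1
    have hxr : (1:ℝ) < x := by exact_mod_cast (by omega : 1 < x)
    have hL0 : 0 < Real.log x := Real.log_pos hxr
    have hLA := hN1 N (by omega) c n hc3 (by omega) hn1 hn2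
    rw [← hx] at hLA
    have hLApos : 0 < LA c n := by
      have := (abs_le.1 hLA).1
      have e1 : ηL * (n / Real.log x) ≤ 1 / 2 * (n / Real.log x) :=
        mul_le_mul_of_nonneg_right hηL1 (by positivity)
      have e2 : 0 < n / Real.log x := by positivity
      linarith
    refine ⟨hLApos, fun hcEx => ?_⟩
    have h6 := (hEx3 c (mem_Icc.2 ⟨by omega, hcC⟩) hcEx fun _ => hodd).2 n (by omega)
    have e0 : (((1:ℕ):ℤ) ^ 2 - 4 * (c:ℤ)) = 1 - 4 * (c:ℤ) := by norm_num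
    rw [e0] at h6
    set T0 := T (1 - 4 * (c:ℤ)) y with hT0
    have hT0p : 0 < T0 := T_pos _ _
    have hT0l : (1 / 2 : ℝ) ^ #(PP y) ≤ T0 := T_lb _ _
    have h7 := PA_diff c n
    have h8 := hN4 N (by omega)
    rw [← hx, Real.norm_of_nonneg hL0.le, id, Real.norm_of_nonneg (by linarith)] at h8
    have h9 : 1 ≤ ηI * (T0 * (x / Real.log x)) := by
      have e1 : Real.log x ≤ ηI * T0 * x := by
        refine h8.trans (mul_le_mul_of_nonneg_right (mul_le_mul_of_nonneg_left hT0l hηI0.le) (by linarith))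
      have e2 : ηI * (T0 * (x / Real.log x)) = (ηI * T0 * x) / Real.log x := by ring
      rw [e2, one_le_div hL0]; exact e1
    have h10 : |(PA c n : ℝ) - T0 * (n / Real.log x)| ≤ 2 * (ηI * (T0 * (x / Real.log x))) := by
      have e1 : (1 + ((1:ℕ):ℝ)) * T0 * (n / (2 * Real.log x)) = T0 * (n / Real.log x) := by
        push_cast; field_simp; ring
      rw [e1] at h6
      have e2 := abs_sub_le (PA c n : ℝ) (#((Icc 1 n).filter fun m : ℕ => (m ^ 2 + 1 * m + c).Prime) : ℝ)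
        (T0 * (n / Real.log x))
      linarith
    refine (ratio_est (x := (x:ℝ)) (κ := κ) (ηI := ηI) (ηL := ηL) hT0p hn0 hL0 hκ hηI0.le hηL0.le hηL1 hsum ?_
      h10 hLA).1
    have e3 : (x:ℝ) ≤ 2 * N := by exact_mod_cast (by omega : x ≤ 2 * N)
    nlinarith

/-! ### the assembly -/

/-- odd numbers from `3` to `C` -/
lemma odd_card (C : ℕ) (p q : ℕ → Prop) [DecidablePred p] [DecidablePred q]
    (h : ∀ i < (C - 1) / 2, (p (2 * ((C - 1) / 2) + 1 - 2 * i) ↔ q i)) :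
    #((Icc 3 C).filter (fun A => Odd A ∧ p A)) = #((range ((C - 1) / 2)).filter q) := by
  set M := (C - 1) / 2 with hM
  refine card_nbij' (fun A => (2 * M + 1 - A) / 2) (fun i => 2 * M + 1 - 2 * i) ?_ ?_ ?_ ?_
  · intro A hA
    simp only [coe_filter, mem_Icc, mem_range, Set.mem_ofPred_eq] at hA ⊢
    obtain ⟨⟨h3, hC⟩, ⟨r, hr⟩, hp⟩ := hA
    have hi : (2 * M + 1 - A) / 2 < M := by omega
    refine ⟨hi, (h _ hi).1 ?_⟩
    have : 2 * M + 1 - 2 * ((2 * M + 1 - A) / 2) = A := by omega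
    rw [this]; exact hp
  · intro i hi
    simp only [coe_filter, mem_Icc, mem_range, Set.mem_ofPred_eq] at hi ⊢
    refine ⟨⟨by omega, by omega⟩, ⟨M - i, by omega⟩, (h i hi.1).2 hi.2⟩
  · intro A hA
    simp only [coe_filter, mem_Icc, Set.mem_ofPred_eq] at hA
    obtain ⟨⟨h3, hC⟩, ⟨r, hr⟩, hp⟩ := hA
    show 2 * M + 1 - 2 * ((2 * M + 1 - A) / 2) = A
    omega
  · intro i hi
    simp only [coe_filter, mem_range, Set.mem_ofPred_eq] at hi
    show (2 * M + 1 - (2 * M + 1 - 2 * i)) / 2 = i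
    omega

end Pool.Agent.N511.LL.KK

namespace Pool.Agent.N511.LL

open Finset Filter Topology Classical
open Pool.Agent.N511.LL.KK

/-- **K0**, from the parts -/
theorem k0 (hC : C0) (hE : E0) (hD : D0) (hF : F0) (hI : I0) : K0 := by
  intro k s hs α β hαβ hβ
  set s' : Fin k → ℤ := fun j => -8 * (s j : ℤ) with hs'
  have hs'i : Function.Injective s' := by
    intro i j hij
    have h1 : -8 * (s i : ℤ) = -8 * (s j : ℤ) := hij
    exact hs (by omega)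
  obtain ⟨ρ, hρ⟩ := @hD (Fin k) _ s'
  obtain ⟨c0, hc0, y1, hy1⟩ := @hF (Fin k) _ s' hs'i α β hαβ hβ
  have hlim : Tendsto (fun y : ℕ => Gb y s' α β) atTop (𝓝 (ρ α β)) := by
    rw [Metric.tendsto_atTop]
    intro e he
    obtain ⟨y2, hy2⟩ := hρ (e / 2) (by linarith)
    refine ⟨y2, fun y hy => ?_⟩
    rw [Real.dist_eq]
    have := hy2 y hy α β
    linarith
  have hρpos : 0 < ρ α β := by
    have : c0 ≤ ρ α β := ge_of_tendsto hlim (eventually_atTop.2 ⟨y1, fun y hy => hy1 y hy⟩)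
    linarith
  refine ⟨ρ α β, hρpos, ?_, ?_⟩
  · refine hlim.congr fun y => ?_
    have h := prop_eq hC s α β y
    have hQ : (0:ℝ) < Q y := by exact_mod_cast Q_pos y
    have h2 : Gb y s' α β = (#((range (Q y)).filter (fun A : ℕ =>
        ∀ j, α j < CA (A + 2 * s j) y ∧ CA (A + 2 * s j) y ≤ β j)) : ℝ) / Q y := by
      rw [h]; field_simp; rfl
    rw [h2]; rfl
  · intro ε κ η hε hκ hκ1 hη
    obtain ⟨ηE, hηE0, y2, hy2⟩ := @hE (Fin k) _ s' ρ hρ η hη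
    obtain ⟨S, hS⟩ : ∃ S : ℕ, ∀ j, s j ≤ S := ⟨univ.sup s, fun j => le_sup (mem_univ j)⟩
    obtain ⟨y3, hy3⟩ := core_est hI S ε κ ηE hε hκ hκ1 hηE0
    set y := max y2 y3 with hy
    obtain ⟨M0, hM0⟩ := hy2 y (le_max_left _ _)
    obtain ⟨N1, hN1⟩ := hy3 y (le_max_right _ _)
    obtain ⟨N2, hN2⟩ := pow_large ε hε ((2 * M0 + 2 : ℕ) + 2 * ρ α β / η + 2)
    refine ⟨N1 + N2, fun N hN C hC1 hC2 => ?_⟩
    obtain ⟨Ex, hEx1, hEx2⟩ := hN1 N (by omega) C hC1 hC2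
    have hCbig := (hN2 N (by omega)).trans hC1
    have hρη : 0 ≤ 2 * ρ α β / η := by positivity
    have hCM0 : 2 * M0 + 2 ≤ C := by
      have : ((2 * M0 + 2 : ℕ) : ℝ) ≤ C := by linarith
      exact_mod_cast this
    set M := (C - 1) / 2 with hM
    -- the extreme ratios
    have hne : ((range (N + 1)).filter (fun n : ℕ => κ * N ≤ n)).Nonempty :=
      ⟨N, mem_filter.2 ⟨mem_range.2 (by omega), by nlinarith [(Nat.cast_nonneg N : (0:ℝ) ≤ N)]⟩⟩
    set U := (range (N + 1)).filter (fun n : ℕ => κ * N ≤ n) with hU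
    have hUm : ∀ n, n ∈ U ↔ κ * N ≤ n ∧ n ≤ N := by
      intro n
      rw [hU, mem_filter, mem_range]
      constructor
      · rintro ⟨h1, h2⟩; exact ⟨h2, by omega⟩
      · rintro ⟨h1, h2⟩; exact ⟨by omega, h1⟩
    set cc : Fin k → ℕ → ℕ := fun j i => 2 * M + 1 - 2 * i + 2 * s j with hcc
    set R : ℕ → ℕ → ℝ := fun c n => (PA c n : ℝ) / LA c n with hR
    set X : Fin k → ℕ → ℝ := fun j i => U.inf' hne (R (cc j i)) with hX
    set Y : Fin k → ℕ → ℝ := fun j i => U.sup' hne (R (cc j i)) with hY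
    have hcc3 : ∀ j i, i < M → 3 ≤ cc j i ∧ cc j i ≤ C + 2 * S ∧ Odd (cc j i) ∧
        (-3 - 8 * (M:ℤ)) + ((8:ℕ):ℤ) * (i:ℤ) + s' j = 1 - 4 * (cc j i : ℤ) := by
      intro j i hi
      have h1 := hS j
      have e1 : cc j i = 2 * M + 1 - 2 * i + 2 * s j := rfl
      have e2 : s' j = -8 * (s j : ℤ) := rfl
      refine ⟨by omega, by omega, ⟨M - i + s j, by omega⟩, ?_⟩
      rw [e1, e2]
      omega
    have hbad : ∀ j, (#((range M).filter (fun i : ℕ =>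
        ηE * T ((-3 - 8 * (M:ℤ)) + ((8:ℕ):ℤ) * (i:ℤ) + s' j) y <
          |X j i - T ((-3 - 8 * (M:ℤ)) + ((8:ℕ):ℤ) * (i:ℤ) + s' j) y| ∨
        ηE * T ((-3 - 8 * (M:ℤ)) + ((8:ℕ):ℤ) * (i:ℤ) + s' j) y <
          |Y j i - T ((-3 - 8 * (M:ℤ)) + ((8:ℕ):ℤ) * (i:ℤ) + s' j) y|)) : ℝ) ≤ ηE * M := by
      intro j
      refine le_trans ?_ hEx1
      rw [Nat.cast_le]
      refine card_le_card_of_injOn (fun i => cc j i) ?_ ?_
      · intro i hi
        simp only [coe_filter, mem_range, Set.mem_ofPred_eq] at hi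
        obtain ⟨hiM, hi2⟩ := hi
        obtain ⟨h3, h4, h5, h6⟩ := hcc3 j i hiM
        rw [h6] at hi2
        by_contra hcon
        have hgood : ∀ n ∈ U, |R (cc j i) n - T (1 - 4 * (cc j i : ℤ)) y| ≤ ηE * T (1 - 4 * (cc j i : ℤ)) y :=
          fun n hn => (hEx2 (cc j i) h3 h4 h5 n ((hUm n).1 hn).1 ((hUm n).1 hn).2).2 hcon
        obtain ⟨n1, hn1, e1⟩ := exists_mem_eq_inf' hne (R (cc j i))
        obtain ⟨n2, hn2, e2⟩ := exists_mem_eq_sup' hne (R (cc j i))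
        have eX : X j i = R (cc j i) n1 := e1
        have eY : Y j i = R (cc j i) n2 := e2
        rw [eX, eY] at hi2
        rcases hi2 with h | h
        · exact absurd (hgood n1 hn1) (not_le.2 h)
        · exact absurd (hgood n2 hn2) (not_le.2 h)
      · intro i hi i' hi' h
        simp only [coe_filter, mem_range, Set.mem_ofPred_eq] at hi hi'
        have h' : 2 * M + 1 - 2 * i + 2 * s j = 2 * M + 1 - 2 * i' + 2 * s j := h
        omega
    have hmain : |(#((range M).filter (fun i : ℕ => ∀ j, α j < X j i ∧ Y j i ≤ β j)) : ℝ) - M * ρ α β| ≤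
        η * M := by
      convert hM0 M (by omega) 8 (-3 - 8 * (M:ℤ)) X Y (cop y 3) hbad α β
    have hcount : #((Icc 3 C).filter (fun A : ℕ => Odd A ∧ ∀ j, ∀ n : ℕ, κ * N ≤ n → n ≤ N →
        α j * LA (A + 2 * s j) n < PA (A + 2 * s j) n ∧ (PA (A + 2 * s j) n : ℝ) ≤ β j * LA (A + 2 * s j) n)) =
        #((range M).filter (fun i : ℕ => ∀ j, α j < X j i ∧ Y j i ≤ β j)) := by
      refine odd_card C (fun A : ℕ => ∀ j, ∀ n : ℕ, κ * N ≤ n → n ≤ N →
        α j * LA (A + 2 * s j) n < PA (A + 2 * s j) n ∧ (PA (A + 2 * s j) n : ℝ) ≤ β j * LA (A + 2 * s j) n) _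
        fun i hi => ?_
      refine forall_congr' fun j => ?_
      obtain ⟨h3, h4, h5, -⟩ := hcc3 j i hi
      have h6 : ∀ n ∈ U, (α j * LA (cc j i) n < PA (cc j i) n ↔ α j < R (cc j i) n) ∧
          ((PA (cc j i) n : ℝ) ≤ β j * LA (cc j i) n ↔ R (cc j i) n ≤ β j) := by
        intro n hn
        have h7 := (hEx2 (cc j i) h3 h4 h5 n ((hUm n).1 hn).1 ((hUm n).1 hn).2).1
        exact ⟨(lt_div_iff₀ h7).symm, (div_le_iff₀ h7).symm⟩
      show (∀ n : ℕ, κ * N ≤ n → n ≤ N → α j * LA (cc j i) n < PA (cc j i) n ∧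
        (PA (cc j i) n : ℝ) ≤ β j * LA (cc j i) n) ↔ α j < U.inf' hne (R (cc j i)) ∧ U.sup' hne (R (cc j i)) ≤ β j
      rw [lt_inf'_iff, sup'_le_iff]
      constructor
      · intro h
        exact ⟨fun n hn => (h6 n hn).1.1 (h n ((hUm n).1 hn).1 ((hUm n).1 hn).2).1,
          fun n hn => (h6 n hn).2.1 (h n ((hUm n).1 hn).1 ((hUm n).1 hn).2).2⟩
      · rintro ⟨h, h'⟩ n hn1 hn2
        have hn := (hUm n).2 ⟨hn1, hn2⟩
        exact ⟨(h6 n hn).1.2 (h n hn), (h6 n hn).2.2 (h' n hn)⟩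
    rw [hcount]
    have hM1 : (M:ℝ) ≤ C / 2 := by
      have : 2 * M ≤ C := by omega
      have : (2:ℝ) * M ≤ C := by exact_mod_cast this
      linarith
    have hM2 : (C:ℝ) / 2 - 1 ≤ M := by
      have : C ≤ 2 * M + 2 := by omega
      have : (C:ℝ) ≤ 2 * M + 2 := by exact_mod_cast this
      linarith
    have h8 : |(M:ℝ) * ρ α β - ρ α β * (C / 2)| ≤ ρ α β := by
      have e : (M:ℝ) * ρ α β - ρ α β * (C / 2) = -(ρ α β * (C / 2 - M)) := by ring
      rw [e, abs_neg, abs_of_nonneg (mul_nonneg hρpos.le (by linarith))]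
      nlinarith
    have h9 : ρ α β ≤ η * (C / 2) := by
      have e1 : 2 * ρ α β / η ≤ C := by
        have : (0:ℝ) ≤ ((2 * M0 + 2 : ℕ) : ℝ) := Nat.cast_nonneg _
        linarith
      rw [div_le_iff₀ hη] at e1
      linarith
    have h10 := abs_sub_le (#((range M).filter (fun i : ℕ => ∀ j, α j < X j i ∧ Y j i ≤ β j)) : ℝ)
      (M * ρ α β) (ρ α β * (C / 2))
    have h11 : η * M ≤ η * (C / 2) := mul_le_mul_of_nonneg_left hM1 hη.le
    refine (h10.trans (add_le_add hmain h8)).trans ?_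
    linarith

end Pool.Agent.N511.LL
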