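import Pool.Agent.N511.LL.Stm
import Pool.Agent.H305R2.MertensE

/-! LL/M0: Mertens' theorem for the two products (helper222). -/

set_option autoImplicit false

namespace Pool.Agent.N511.LL

open Finset Filter Topology Classical

namespace M0x

theorem mem_PP {y p : ℕ} : p ∈ PP y ↔ (3 ≤ p ∧ p ≤ y) ∧ p.Prime := by
  unfold PP
  rw [Finset.mem_filter, Finset.mem_Icc]

theorem pos_of_mem {y p : ℕ} (h : p ∈ PP y) : (2 : ℝ) ≤ (p : ℝ) - 1 := by
  have h1 : (3 : ℝ) ≤ (p : ℝ) := by exact_mod_cast (mem_PP.1 h).1.1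
  linarith

theorem split2 {y : ℕ} (hy : 2 ≤ y) : (Finset.Icc 1 y).filter Nat.Prime = insert 2 (PP y) := by
  ext p
  rw [Finset.mem_filter, Finset.mem_Icc, Finset.mem_insert, mem_PP]
  constructor
  · rintro ⟨⟨_, h2⟩, h3⟩
    by_cases hp : p = 2
    · exact Or.inl hp
    · exact Or.inr ⟨⟨by have := h3.two_le; omega, h2⟩, h3⟩
  · rintro (rfl | ⟨⟨h1, h2⟩, h3⟩)
    · exact ⟨⟨by norm_num, hy⟩, Nat.prime_two⟩
    · exact ⟨⟨by omega, h2⟩, h3⟩

theorem prod_eq {y : ℕ} (hy : 2 ≤ y) : ∏ p ∈ (Finset.Icc 1 y).filter Nat.Prime, (1 - (p : ℝ)⁻¹)⁻¹ =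
    2 * ∏ p ∈ PP y, (1 + 1 / ((p : ℝ) - 1)) := by
  rw [split2 hy, Finset.prod_insert]
  · congr 1
    · norm_num
    · apply Finset.prod_congr rfl
      intro p hp
      have h1 := pos_of_mem hp
      have h2 : (p : ℝ) ≠ 0 := by linarith
      have h3 : (p : ℝ) - 1 ≠ 0 := by linarith
      have h4 : 1 - (p : ℝ)⁻¹ = ((p : ℝ) - 1) / p := by field_simp
      rw [h4, inv_div]
      field_simp
      ring
  · intro h
    have := (mem_PP.1 h).1.1
    omega

theorem part1 : Tendsto (fun y : ℕ => (∏ p ∈ PP y, (1 + 1 / ((p : ℝ) - 1))) / Real.log y) atTop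
    (𝓝 (eg / 2)) := by
  have h := Pool.Agent.H305R2.mertens_three.div_const 2
  refine h.congr' ?_
  filter_upwards [eventually_ge_atTop 2] with y hy
  rw [prod_eq hy]
  ring

/-- the terms of the second product -/
noncomputable def ff (n : ℕ) : ℝ := if n.Prime ∧ 3 ≤ n then - (1 / ((n : ℝ) - 1) ^ 2) else 0

theorem ff_sum : Summable ff := by
  have h0 : Summable (fun n : ℕ => 4 * (1 / (n : ℝ) ^ 2)) :=
    (Real.summable_one_div_nat_pow.2 (by norm_num)).mul_left 4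
  refine Summable.of_norm_bounded h0 ?_
  intro n
  unfold ff
  split_ifs with h
  · have h1 : (3 : ℝ) ≤ n := by exact_mod_cast h.2
    rw [norm_neg, Real.norm_eq_abs, abs_of_pos (by apply one_div_pos.2; apply pow_pos; linarith)]
    rw [div_le_iff₀ (by apply pow_pos; linarith)]
    have h2 : 0 < (n : ℝ) ^ 2 := by positivity
    have e : 4 * (1 / (n : ℝ) ^ 2) * ((n : ℝ) - 1) ^ 2 = (4 * ((n : ℝ) - 1) ^ 2) / (n : ℝ) ^ 2 := by
      field_simp
    rw [e, le_div_iff₀ h2]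
    nlinarith
  · simp only [norm_zero]
    positivity

theorem one_add_ff_pos (n : ℕ) : 0 < 1 + ff n := by
  unfold ff
  split_ifs with h
  · have h1 : (3 : ℝ) ≤ n := by exact_mod_cast h.2
    have h2 : 1 / ((n : ℝ) - 1) ^ 2 ≤ 1 / 4 := by
      apply one_div_le_one_div_of_le (by norm_num)
      nlinarith
    linarith
  · norm_num

theorem prod_ff (y : ℕ) : ∏ p ∈ PP y, (1 - 1 / ((p : ℝ) - 1) ^ 2) =
    ∏ n ∈ Finset.range (y + 1), (1 + ff n) := by
  have h1 : PP y = (Finset.range (y + 1)).filter (fun n => n.Prime ∧ 3 ≤ n) := by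
    ext p
    rw [mem_PP, Finset.mem_filter, Finset.mem_range]
    constructor
    · rintro ⟨⟨a, b⟩, c⟩
      exact ⟨by omega, c, a⟩
    · rintro ⟨a, c, b⟩
      exact ⟨⟨b, by omega⟩, c⟩
  rw [h1, Finset.prod_filter]
  apply Finset.prod_congr rfl
  intro n _
  unfold ff
  split_ifs
  · ring
  · ring

theorem part2 : ∃ C2 : ℝ, 0 < C2 ∧
    Tendsto (fun y : ℕ => ∏ p ∈ PP y, (1 - 1 / ((p : ℝ) - 1) ^ 2)) atTop (𝓝 C2) := by
  have hs : Summable (fun n => Real.log (1 + ff n)) := Real.summable_log_one_add_of_summable ff_sum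
  refine ⟨Real.exp (∑' n, Real.log (1 + ff n)), Real.exp_pos _, ?_⟩
  have h1 := (hs.hasSum.tendsto_sum_nat).comp (tendsto_add_atTop_nat 1)
  have h2 := (Real.continuous_exp.tendsto _).comp h1
  refine h2.congr fun y => ?_
  simp only [Function.comp]
  rw [Real.exp_sum, prod_ff]
  apply Finset.prod_congr rfl
  intro n _
  exact Real.exp_log (one_add_ff_pos n)

end M0x

theorem m0 : M0 := by
  refine ⟨M0x.part1, ?_⟩
  obtain ⟨C2, hC2, h2⟩ := M0x.part2
  refine ⟨C2, hC2, h2, ?_⟩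
  have heg : eg / 2 ≠ 0 := by
    have : 0 < eg := Real.exp_pos _
    positivity
  have h3 := h2.div M0x.part1 heg
  have e : C2 / (eg / 2) = 2 * C2 / eg := by
    have : eg ≠ 0 := (Real.exp_pos _).ne'
    field_simp
  rw [e] at h3
  refine h3.congr fun y => ?_
  have hpos : 0 < ∏ p ∈ PP y, (1 + 1 / ((p : ℝ) - 1)) := by
    apply Finset.prod_pos
    intro p hp
    have := M0x.pos_of_mem hp
    positivity
  have hprod : ∏ p ∈ PP y, (1 - 1 / ((p : ℝ) - 1) ^ 2) =
      (∏ p ∈ PP y, (1 - 1 / ((p : ℝ) - 1))) * ∏ p ∈ PP y, (1 + 1 / ((p : ℝ) - 1)) := by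
    rw [← Finset.prod_mul_distrib]
    apply Finset.prod_congr rfl
    intro p hp
    have := M0x.pos_of_mem hp
    have h3 : (p : ℝ) - 1 ≠ 0 := by linarith
    field_simp
    ring
  simp only [Pi.div_apply]
  rw [hprod]
  rw [div_div_eq_mul_div]
  field_simp

end Pool.Agent.N511.LL
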